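import Pool.Agent.Lib.SB3.SetW74

/-!
SB3, Theorem W with leaks, module BUDW: the entropy budgets of the two families of conditional
averages.
-/

set_option autoImplicit false

namespace Pool.Agent.SB3.W

open Finset Pool.Agent.SB3

section

variable {K : ℕ}

theorem mem_SW90 {T : ℕ} {ω : OmW K} : ω ∈ SW K T ↔ ∀ j, ω.2.2 j ∈ Icc (-(T : ℤ)) T := by
  unfold SW
  simp only [Finset.mem_product, Finset.mem_univ, true_and, Fintype.mem_piFinset]

theorem nzw90 (ν : Fin (2 * K) → ℤ) (j : Fin (2 * K)) : nzw ν j = ν j := by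
  unfold nzw
  rw [dif_pos j.2]

theorem card_Y90 : (Fintype.card (Y K) : ℝ) = 2 ^ K := by
  have : Fintype.card (Y K) = 2 ^ K := by simp
  rw [this]
  push_cast
  rfl

/-- the reference law sums to at most one -/
theorem ref_sum90 (I : Finset ℤ) (r : ℤ → ℝ) (hr0 : ∀ x ∈ I, 0 ≤ r x) (hr : ∑ x ∈ I, r x ≤ 1) :
    ∑ x ∈ (univ : Finset (Y K)) ×ˢ Fintype.piFinset (fun _ : Fin (2 * K) => I),
      ((2 : ℝ) ^ K)⁻¹ * ∏ j, r (x.2 j) ≤ 1 := by
  rw [Finset.sum_product]
  have h1 : ∑ ν ∈ Fintype.piFinset (fun _ : Fin (2 * K) => I), ∏ j, r (ν j) =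
      (∑ x ∈ I, r x) ^ (2 * K) := by
    rw [← Finset.prod_univ_sum (t := fun _ : Fin (2 * K) => I) (f := fun _ x => r x)]
    rw [Finset.prod_const, Finset.card_univ, Fintype.card_fin]
  have h2 : ∀ y : Y K, ∑ ν ∈ Fintype.piFinset (fun _ : Fin (2 * K) => I),
      ((2 : ℝ) ^ K)⁻¹ * ∏ j, r (ν j) = ((2 : ℝ) ^ K)⁻¹ * (∑ x ∈ I, r x) ^ (2 * K) := by
    intro y
    rw [← Finset.mul_sum, h1]
  rw [Finset.sum_congr rfl fun y _ => h2 y, Finset.sum_const, Finset.card_univ, nsmul_eq_mul,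
    card_Y90, ← mul_assoc, mul_inv_cancel₀ (by positivity), one_mul]
  exact pow_le_one₀ (Finset.sum_nonneg hr0) hr

end

/-- BUDW -/
theorem budw_90 (hM : StMsW) : StBudW := by
  classical
  intro K M T R δ φ r ρ G hM1 hδ hN hρ hρ1 hG
  obtain ⟨hP, hF, hFj⟩ := hM K T φ ρ hN.phi_pos hN.phi_sum hρ
  have hsum1 : ∑ ω ∈ SW K T, PW φ ρ ω = 1 := by
    have h1 := hF (fun _ _ => 1)
    rw [hρ1] at h1
    rw [← h1]
    exact Finset.sum_congr rfl fun ω _ => (mul_one _).symm
  have hφp : ∀ ω ∈ SW K T, ∀ j, 0 < φ (ω.2.2 j) := fun ω hω j =>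
    hN.phi_pos _ (mem_SW90.1 hω j)
  constructor
  · have h1 := entw74 (P := PW φ ρ) (S := SW K T) (L := K)
      (fun ω : OmW K => (ω.2.1, ω.2.2)) (fun ω => ω.1) hP
      ((univ : Finset (Y K)) ×ˢ Fintype.piFinset (fun _ : Fin (2 * K) => Icc (-(T : ℤ)) T))
      (fun x => ((2 : ℝ) ^ K)⁻¹ * ∏ j, φ (x.2 j)) hsum1
      (by
        intro x hx
        rw [Finset.mem_product, Fintype.mem_piFinset] at hx
        have : 0 < ∏ j, φ (x.2 j) := Finset.prod_pos fun j _ => hN.phi_pos _ (hx.2 j)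
        positivity)
      (ref_sum90 _ φ (fun x hx => (hN.phi_pos x hx).le) hN.phi_sum.le)
      (by
        intro ω hω
        rw [Finset.mem_product, Fintype.mem_piFinset]
        exact ⟨Finset.mem_univ _, mem_SW90.1 hω⟩)
      (by
        intro ω _ ω' _ h1 h2
        obtain ⟨y, z, ν⟩ := ω
        obtain ⟨y', z', ν'⟩ := ω'
        simp only [Prod.mk.injEq] at h1 h2 ⊢
        exact ⟨h2, h1.1, h1.2⟩)
    refine h1.trans (le_of_eq ?_)
    congr 1
    rw [klr, ← hF]
    refine Finset.sum_congr rfl fun ω hω => ?_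
    congr 2
    have h2 : 0 < ∏ j, φ (ω.2.2 j) := Finset.prod_pos fun j _ => hφp ω hω j
    unfold PW
    have h4 : (4 : ℝ) ^ K = 2 ^ K * 2 ^ K := by rw [← mul_pow]; norm_num
    rw [h4]
    field_simp
  · have hr0 : ∀ x, 0 < r x := hN.r_pos
    have h1 := entw74 (P := PW φ ρ) (S := SW K T) (L := K)
      (fun ω : OmW K => (ω.1, fun j : Fin (2 * K) => GamW G ω j)) (fun ω => ω.2.1) hP
      ((univ : Finset (Y K)) ×ˢ
        Fintype.piFinset (fun _ : Fin (2 * K) => Icc (-((T : ℤ) + R)) (T + R)))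
      (fun x => ((2 : ℝ) ^ K)⁻¹ * ∏ j, r (x.2 j)) hsum1
      (by
        intro x _
        have : 0 < ∏ j, r (x.2 j) := Finset.prod_pos fun j _ => hr0 _
        positivity)
      (ref_sum90 _ r (fun x _ => (hr0 x).le) hN.r_sum)
      (by
        intro ω hω
        rw [Finset.mem_product, Fintype.mem_piFinset]
        refine ⟨Finset.mem_univ _, fun j => ?_⟩
        have h2 := mem_SW90.1 hω j
        have h3 := abs_le.1 (hG j j.2 ω.1 ω.2.1)
        rw [Finset.mem_Icc] at h2 ⊢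
        have h4 : GamW G ω j = G j ω.1 ω.2.1 + ω.2.2 j := by
          unfold GamW
          rw [nzw90]
        show -((T : ℤ) + R) ≤ GamW G ω j ∧ GamW G ω j ≤ (T : ℤ) + R
        rw [h4]
        constructor <;> omega)
      (by
        intro ω _ ω' _ h1 h2
        obtain ⟨y, z, ν⟩ := ω
        obtain ⟨y', z', ν'⟩ := ω'
        simp only [Prod.mk.injEq] at h1 h2 ⊢
        refine ⟨h1.1, h2, ?_⟩
        funext j
        have h3 := congrFun h1.2 j
        unfold GamW at h3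
        rw [nzw90, nzw90] at h3
        dsimp only at h3
        rw [h1.1, h2] at h3
        exact add_left_cancel h3)
    refine h1.trans ?_
    refine mul_le_mul_of_nonneg_left ?_ zero_le_two
    -- the logarithm
    have h2 : ∀ ω ∈ SW K T, PW φ ρ ω * Real.log (2 ^ K * PW φ ρ ω /
        (((2 : ℝ) ^ K)⁻¹ * ∏ j : Fin (2 * K), r (GamW G ω j))) =
        PW φ ρ ω * Real.log (4 ^ K * ρ ω.1 ω.2.1) +
          ∑ j : Fin (2 * K), PW φ ρ ω * Real.log (φ (ω.2.2 j) / r (ω.2.2 j + G j ω.1 ω.2.1)) := by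
      intro ω hω
      have e1 : ∀ j : Fin (2 * K), GamW G ω j = ω.2.2 j + G j ω.1 ω.2.1 := by
        intro j
        unfold GamW
        rw [nzw90, add_comm]
      have e2 : 0 < ∏ j, φ (ω.2.2 j) := Finset.prod_pos fun j _ => hφp ω hω j
      have e3 : 0 < ∏ j : Fin (2 * K), r (ω.2.2 j + G j ω.1 ω.2.1) :=
        Finset.prod_pos fun j _ => hr0 _
      have e4 := hρ ω.1 ω.2.1
      rw [← Finset.mul_sum, ← mul_add]
      congr 1
      rw [← Real.log_prod (fun j _ => (div_pos (hφp ω hω j) (hr0 _)).ne'),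
        ← Real.log_mul (by positivity)
          (Finset.prod_pos fun j _ => div_pos (hφp ω hω j) (hr0 _)).ne']
      congr 1
      rw [Finset.prod_div_distrib]
      simp only [e1]
      unfold PW
      have h4 : (4 : ℝ) ^ K = 2 ^ K * 2 ^ K := by rw [← mul_pow]; norm_num
      rw [h4]
      field_simp
    rw [Finset.sum_congr rfl h2, Finset.sum_add_distrib, Finset.sum_comm]
    have h3 : ∑ ω ∈ SW K T, PW φ ρ ω * Real.log (4 ^ K * ρ ω.1 ω.2.1) = klr ρ := by
      rw [klr, ← hF]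
    have h4 : ∀ j : Fin (2 * K), ∑ ω ∈ SW K T,
        PW φ ρ ω * Real.log (φ (ω.2.2 j) / r (ω.2.2 j + G j ω.1 ω.2.1)) ≤
        6 * Ey ρ (fun y z => psi ((G j y z : ℝ) / M)) + δ := by
      intro j
      rw [hFj j (fun y z x => Real.log (φ x / r (x + G j y z)))]
      have h5 : 6 * Ey ρ (fun y z => psi ((G j y z : ℝ) / M)) + δ =
          Ey ρ (fun y z => 6 * psi ((G j y z : ℝ) / M) + δ) := by
        have h6 : δ = Ey ρ (fun _ _ => 1) * δ := by rw [hρ1, one_mul]
        conv_lhs => rw [h6]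
        unfold Ey
        simp only [Finset.mul_sum, Finset.sum_mul, ← Finset.sum_add_distrib]
        refine Finset.sum_congr rfl fun y _ => Finset.sum_congr rfl fun z _ => ?_
        ring
      rw [h5]
      unfold Ey
      refine Finset.sum_le_sum fun y _ => Finset.sum_le_sum fun z _ => ?_
      exact mul_le_mul_of_nonneg_left (hN.kl _ (hG j j.2 y z)) (hρ y z).le
    have h5 : ∑ j : Fin (2 * K), ∑ ω ∈ SW K T,
        PW φ ρ ω * Real.log (φ (ω.2.2 j) / r (ω.2.2 j + G j ω.1 ω.2.1)) ≤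
        6 * ∑ j ∈ range (2 * K), Ey ρ (fun y z => psi ((G j y z : ℝ) / M)) + 2 * K * δ := by
      refine (Finset.sum_le_sum fun j _ => h4 j).trans (le_of_eq ?_)
      rw [Finset.sum_add_distrib, ← Finset.mul_sum,
        Finset.sum_range (fun j => Ey ρ (fun y z => psi ((G j y z : ℝ) / M))), Finset.sum_const,
        Finset.card_univ, Fintype.card_fin, nsmul_eq_mul]
      push_cast
      ring
    rw [h3]
    linarith

end Pool.Agent.SB3.W
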