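import Pool.Agent.Lib.SB3.EntW74

/-!
SB3: entropies of labels with respect to a positive weight `P` on a finite set `S`.
-/

set_option autoImplicit false

namespace Pool.Agent.SB3.W

open Finset Pool.Agent.SB3

section

variable {α κ κ' τ : Type} {P : α → ℝ} {S : Finset α}

/-- entropy of a label -/
noncomputable def Hw (P : α → ℝ) (S : Finset α) (f : α → κ) : ℝ :=
  ∑ s ∈ S, P s * Real.log (1 / mas P S f s)

theorem mas_mono74 (hP : ∀ s ∈ S, 0 < P s) {f : α → κ} {f' : α → κ'} (hff : Mb S f' f) {s : α}
    (hs : s ∈ S) : mas P S f' s ≤ mas P S f s := by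
  unfold mas
  apply sum_le_sum_of_subset_of_nonneg
  · intro x hx
    rw [CE33_mem_fib] at hx ⊢
    exact ⟨hx.1, hff x hx.1 s hs hx.2⟩
  · intro x hx _
    exact (hP x (CE33_mem_fib.1 hx).1).le

theorem mas_congr74 (P : α → ℝ) (S : Finset α) {f : α → κ} {s s' : α} (h : f s = f s') :
    mas P S f s = mas P S f s' := by
  unfold mas
  rw [CE33_fib_congr S f h]

theorem Hw_mono74 (hP : ∀ s ∈ S, 0 < P s) {f : α → κ} {f' : α → κ'} (hff : Mb S f' f) :
    Hw P S f ≤ Hw P S f' := by
  unfold Hw
  apply sum_le_sum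
  intro s hs
  apply mul_le_mul_of_nonneg_left _ (hP s hs).le
  apply Real.log_le_log
  · exact one_div_pos.2 (mas_pos74 hP f hs)
  · exact one_div_le_one_div_of_le (mas_pos74 hP f' hs) (mas_mono74 hP hff hs)

theorem Hw_congr74 (hP : ∀ s ∈ S, 0 < P s) {f : α → κ} {f' : α → κ'} (h : Mb S f' f)
    (h' : Mb S f f') : Hw P S f = Hw P S f' :=
  le_antisymm (Hw_mono74 hP h) (Hw_mono74 hP h')

/-- Gibbs' inequality with a kernel `R` -/
theorem gibbs74 (hP : ∀ s ∈ S, 0 < P s) (f : α → κ) (b : α → τ) (R : α → τ → ℝ)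
    (hR : ∀ s ∈ S, ∀ s' ∈ S, f s = f s' → ∀ v, R s v = R s' v)
    (hpos : ∀ s ∈ S, 0 < R s (b s))
    (hsum : ∀ s ∈ S, ∀ V : Finset τ, (∀ v ∈ V, ∃ u ∈ S, f u = f s ∧ b u = v) →
      ∑ v ∈ V, R s v ≤ 1) :
    Hw P S (fun s => (f s, b s)) - Hw P S f ≤ ∑ s ∈ S, P s * Real.log (1 / R s (b s)) := by
  classical
  set F : α → κ × τ := fun s => (f s, b s) with hF
  have hm : ∀ s ∈ S, 0 < mas P S f s := fun s hs => mas_pos74 hP f hs
  have hM : ∀ s ∈ S, 0 < mas P S F s := fun s hs => mas_pos74 hP F hs
  have hcount : ∑ s ∈ S, P s * (R s (b s) * mas P S f s / mas P S F s) ≤ ∑ s ∈ S, P s := by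
    have e1 : ∀ s ∈ S, P s * (R s (b s) * mas P S f s / mas P S F s) =
        ∑ u ∈ S, if f u = f s then P u * (P s * R u (b s) / mas P S F s) else 0 := by
      intro s hs
      rw [← sum_filter]
      have e2 : ∀ u ∈ S.filter (fun u => f u = f s), P u * (P s * R u (b s) / mas P S F s) =
          P u * (P s * R s (b s) / mas P S F s) := by
        intro u hu
        rw [hR u (mem_filter.1 hu).1 s hs (mem_filter.1 hu).2]
      rw [sum_congr rfl e2, ← sum_mul]
      have e3 : ∑ u ∈ S.filter (fun u => f u = f s), P u = mas P S f s := by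
        unfold mas
        apply sum_congr _ (fun _ _ => rfl)
        ext x
        rw [CE33_mem_fib, mem_filter]
      rw [e3]
      ring
    rw [sum_congr rfl e1, sum_comm]
    apply sum_le_sum
    intro u hu
    have e4 : ∑ s ∈ S, (if f u = f s then P u * (P s * R u (b s) / mas P S F s) else 0) =
        P u * ∑ v ∈ (S.filter (fun s => f u = f s)).image b, R u v := by
      rw [← sum_filter, ← mul_sum]
      congr 1
      rw [← sum_fiberwise_of_maps_to (s := S.filter (fun s => f u = f s))
        (t := (S.filter (fun s => f u = f s)).image b) (g := b)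
        (fun s hs => mem_image_of_mem b hs)]
      apply sum_congr rfl
      intro v hv
      obtain ⟨s0, hs0, rfl⟩ := mem_image.1 hv
      rw [mem_filter] at hs0
      have e5 : ∀ s ∈ (S.filter (fun s => f u = f s)).filter (fun s => b s = b s0),
          P s * R u (b s) / mas P S F s = P s * (R u (b s0) / mas P S F s0) := by
        intro s hs
        rw [mem_filter, mem_filter] at hs
        have : F s = F s0 := Prod.ext (hs.1.2.symm.trans hs0.2) hs.2
        rw [mas_congr74 P S this, hs.2]
        ring
      rw [sum_congr rfl e5, ← sum_mul]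
      have e6 : ∑ s ∈ (S.filter (fun s => f u = f s)).filter (fun s => b s = b s0), P s =
          mas P S F s0 := by
        unfold mas
        apply sum_congr _ (fun _ _ => rfl)
        ext x
        rw [CE33_mem_fib, mem_filter, mem_filter]
        constructor
        · rintro ⟨⟨h1, h2⟩, h3⟩
          exact ⟨h1, Prod.ext (h2.symm.trans hs0.2) h3⟩
        · rintro ⟨h1, h2⟩
          have h3 := Prod.mk.inj h2
          exact ⟨⟨h1, hs0.2.trans h3.1.symm⟩, h3.2⟩
      rw [e6]
      have := (hM s0 hs0.1).ne'
      field_simp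
    rw [e4]
    have h5 := hsum u hu ((S.filter (fun s => f u = f s)).image b) (by
      intro v hv
      obtain ⟨s0, hs0, rfl⟩ := mem_image.1 hv
      rw [mem_filter] at hs0
      exact ⟨s0, hs0.1, hs0.2.symm, rfl⟩)
    have h6 := mul_le_mul_of_nonneg_left h5 (hP u hu).le
    linarith
  have hlog : ∑ s ∈ S, P s * Real.log (R s (b s) * mas P S f s / mas P S F s) ≤ 0 := by
    calc ∑ s ∈ S, P s * Real.log (R s (b s) * mas P S f s / mas P S F s)
        ≤ ∑ s ∈ S, (P s * (R s (b s) * mas P S f s / mas P S F s) - P s) := by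
          refine Finset.sum_le_sum fun s hs => ?_
          have h3 := Real.log_le_sub_one_of_pos
            (div_pos (mul_pos (hpos s hs) (hm s hs)) (hM s hs))
          have h4 := mul_le_mul_of_nonneg_left h3 (hP s hs).le
          linarith
      _ ≤ 0 := by
          rw [sum_sub_distrib]
          linarith
  have hexp : ∀ s ∈ S, P s * Real.log (R s (b s) * mas P S f s / mas P S F s) =
      P s * Real.log (1 / mas P S F s) - P s * Real.log (1 / mas P S f s) -
        P s * Real.log (1 / R s (b s)) := by
    intro s hs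
    rw [Real.log_div (mul_pos (hpos s hs) (hm s hs)).ne' (hM s hs).ne',
      Real.log_mul (hpos s hs).ne' (hm s hs).ne', Real.log_div one_ne_zero (hM s hs).ne',
      Real.log_div one_ne_zero (hm s hs).ne', Real.log_div one_ne_zero (hpos s hs).ne',
      Real.log_one]
    ring
  rw [sum_congr rfl hexp, sum_sub_distrib, sum_sub_distrib] at hlog
  unfold Hw
  linarith

/-- conditioning on a finer label decreases the entropy -/
theorem sub74 (hP : ∀ s ∈ S, 0 < P s) (f : α → κ) (f' : α → κ') (b : α → τ)
    (hff : Mb S f' f) :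
    Hw P S (fun s => (f' s, b s)) - Hw P S f' ≤ Hw P S (fun s => (f s, b s)) - Hw P S f := by
  classical
  set F : α → κ × τ := fun s => (f s, b s) with hF
  -- the kernel: conditional probability given `f`
  set Rk : α → τ → ℝ := fun s v =>
    (∑ x ∈ (fib S f s).filter (fun x => b x = v), P x) / mas P S f s with hRk
  have hRb : ∀ s ∈ S, Rk s (b s) = mas P S F s / mas P S f s := by
    intro s hs
    simp only [hRk]
    congr 1
    unfold mas
    apply sum_congr _ (fun _ _ => rfl)
    ext x
    rw [mem_filter, CE33_mem_fib, CE33_mem_fib]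
    constructor
    · rintro ⟨⟨h1, h2⟩, h3⟩
      exact ⟨h1, Prod.ext h2 h3⟩
    · rintro ⟨h1, h2⟩
      have h3 := Prod.mk.inj h2
      exact ⟨⟨h1, h3.1⟩, h3.2⟩
  have hRpos : ∀ s ∈ S, 0 < Rk s (b s) := by
    intro s hs
    rw [hRb s hs]
    exact div_pos (mas_pos74 hP F hs) (mas_pos74 hP f hs)
  have h := gibbs74 hP f' b Rk
    (fun s hs s' hs' e v => by
      have e1 := hff s hs s' hs' e
      simp only [hRk]
      rw [CE33_fib_congr S f e1, mas_congr74 P S e1]) hRpos
    (fun s hs V _ => by
      simp only [hRk]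
      rw [← sum_div, div_le_one (mas_pos74 hP f hs)]
      unfold mas
      calc ∑ v ∈ V, ∑ x ∈ (fib S f s).filter (fun x => b x = v), P x
          = ∑ x ∈ (fib S f s).filter (fun x => b x ∈ V), P x := by
            rw [← sum_fiberwise_of_maps_to (s := (fib S f s).filter (fun x => b x ∈ V)) (t := V)
              (g := b) (fun x hx => (mem_filter.1 hx).2)]
            apply sum_congr rfl
            intro v hv
            apply sum_congr _ (fun _ _ => rfl)
            ext x
            simp only [mem_filter]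
            constructor
            · rintro ⟨h1, h2⟩
              exact ⟨⟨h1, h2 ▸ hv⟩, h2⟩
            · rintro ⟨⟨h1, _⟩, h3⟩
              exact ⟨h1, h3⟩
        _ ≤ ∑ x ∈ fib S f s, P x := by
            apply sum_le_sum_of_subset_of_nonneg (filter_subset _ _)
            intro x hx _
            exact (hP x (CE33_mem_fib.1 hx).1).le)
  have e : ∑ s ∈ S, P s * Real.log (1 / Rk s (b s)) = Hw P S F - Hw P S f := by
    unfold Hw
    rw [← sum_sub_distrib]
    apply sum_congr rfl
    intro s hs
    have h1 := mas_pos74 hP F hs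
    have h2 := mas_pos74 hP f hs
    rw [hRb s hs, Real.log_div one_ne_zero (div_pos h1 h2).ne', Real.log_div h1.ne' h2.ne',
      Real.log_div one_ne_zero h1.ne', Real.log_div one_ne_zero h2.ne', Real.log_one]
    ring
  rw [e] at h
  exact h

/-- a variable with at most `N` values costs at most `log N` -/
theorem card74 [Fintype τ] [Nonempty τ] (hP : ∀ s ∈ S, 0 < P s) (f : α → κ) (b : α → τ)
    (h1 : ∑ s ∈ S, P s = 1) :
    Hw P S (fun s => (f s, b s)) - Hw P S f ≤ Real.log (Fintype.card τ) := by
  classical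
  have hN : (0 : ℝ) < Fintype.card τ := by exact_mod_cast Fintype.card_pos
  have h := gibbs74 hP f b (fun _ _ => 1 / (Fintype.card τ : ℝ)) (fun _ _ _ _ _ _ => rfl)
    (fun _ _ => by positivity)
    (fun s _ V _ => by
      rw [sum_const, nsmul_eq_mul, mul_one_div, div_le_one hN]
      exact_mod_cast Finset.card_le_univ V)
  refine h.trans (le_of_eq ?_)
  rw [← sum_mul, h1, one_div_one_div, one_mul]

end

end Pool.Agent.SB3.W
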