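import Pool.Agent.Lib.SB3.SetW74
import Pool.Agent.Lib.SB3.EntH74

/-!
SB3, module CHW: predictability of the active prefixes (chain rule and Gibbs' inequality).
-/

set_option autoImplicit false

namespace Pool.Agent.SB3.W

open Finset Pool.Agent.SB3 Pool.Agent.SB3.Ent3

section

variable {K M T : ℕ} {φ : ℤ → ℝ} {ρ : Y K → Y K → ℝ} {g : ℕ → ℕ → Y K → Y K → ℤ}
  {t : ℕ → ℕ → ℕ → Y K → Y K → ℤ} {c : ℕ → ℕ → Y K → Y K → ℤ} {w : ℕ → ℕ → Y K → Y K → Prop}

/-- prefixes of prefixes -/
theorem pre_of_le74 {L : ℕ} {p q : ℕ} (h : p ≤ q) {y y' : Y L} (e : pre q y = pre q y') :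
    pre p y = pre p y' := by
  funext i
  by_cases hi : (i : ℕ) < p
  · have := congrFun e i
    simp only [pre, if_pos hi, if_pos (lt_of_lt_of_le hi h)] at this ⊢
    exact this
  · simp only [pre, if_neg hi]

open Classical in
/-- the cell of the observation, if it is active -/
noncomputable def cel (M : ℕ) (g : ℕ → ℕ → Y K → Y K → ℤ) (w : ℕ → ℕ → Y K → Y K → Prop)
    (p q : ℕ) (ω : OmW K) : ℤ :=
  if w p q ω.1 ω.2.1 then ObW g p ω (p + q) / (M : ℤ) else 0

theorem ms_eq74 (W : OmW K → Prop) (A : Finset (OmW K)) (h : ∀ x, x ∈ A ↔ x ∈ SW K T ∧ W x) :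
    ms T φ ρ W = ∑ x ∈ A, PW φ ρ x := by
  classical
  unfold ms
  apply sum_congr _ (fun _ _ => rfl)
  ext x
  rw [h, mem_filter]

theorem labP_eq_iff74 {ω ω' : OmW K} {p q : ℕ} : labP M g w p q ω = labP M g w p q ω' ↔
    pre p ω.1 = pre p ω'.1 ∧ pre q ω.2.1 = pre q ω'.2.1 ∧
      ∀ i : Fin K, (i : ℕ) < q → cel M g w p i ω = cel M g w p i ω' := by
  classical
  unfold labP
  rw [Prod.mk.injEq, Prod.mk.injEq]
  refine and_congr_right fun _ => and_congr_right fun _ => ?_
  rw [funext_iff]
  refine forall_congr' fun i => ?_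
  unfold cel
  constructor
  · intro h hi
    simpa only [hi, true_and] using h
  · intro h
    by_cases hi : (i : ℕ) < q
    · simpa only [hi, true_and] using h hi
    · simp only [hi, false_and, if_false]

/-- the label of length `q + 1` -/
theorem labP_succ_iff74 {ω ω' : OmW K} {p q : ℕ} (hq : q < K) :
    labP M g w p (q + 1) ω = labP M g w p (q + 1) ω' ↔
      labP M g w p q ω = labP M g w p q ω' ∧ cel M g w p q ω = cel M g w p q ω' ∧
        sgr (bit ω.2.1 q) = sgr (bit ω'.2.1 q) := by
  have hs : sgr (bit ω.2.1 q) = sgr (bit ω'.2.1 q) ↔ bit ω.2.1 q = bit ω'.2.1 q := by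
    constructor
    · intro h
      cases h1 : bit ω.2.1 q <;> cases h2 : bit ω'.2.1 q <;> rw [h1, h2] at h <;>
        simp [sgr] at h <;> norm_num at h
    · intro h
      rw [h]
  rw [labP_eq_iff74, labP_eq_iff74, pre_succ_iff hq, hs]
  constructor
  · rintro ⟨h1, ⟨h2, h3⟩, h4⟩
    exact ⟨⟨h1, h2, fun i hi => h4 i (by omega)⟩, h4 ⟨q, hq⟩ (Nat.lt_succ_self q), h3⟩
  · rintro ⟨⟨h1, h2, h3⟩, h4, h5⟩
    refine ⟨h1, ⟨h2, h5⟩, fun i hi => ?_⟩
    rcases Nat.lt_succ_iff_lt_or_eq.1 hi with h | h
    · exact h3 i h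
    · rw [h]
      exact h4

end

/-- CHW -/
theorem chw_74 (hms : StMsW) : StChW := by
  classical
  intro K M T R δ φ r ρ g t c w hM hN hρ hρ1 hdep hR p hp
  obtain ⟨hP, hE, hE2⟩ := hms K T φ ρ hN.phi_pos hN.phi_sum hρ
  set S := SW K T with hS
  set P := PW (K := K) φ ρ with hPd
  have hP1 : ∑ ω ∈ S, P ω = 1 := by
    have h := hE (fun _ _ => 1)
    simp only [mul_one] at h
    rw [h, hρ1]
  -- labels
  set f : ℕ → OmW K → Y K × Y K × (Fin K → ℤ) := fun q => labP M g w p q with hf
  set ce : ℕ → OmW K → ℤ := fun q => cel M g w p q with hce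
  set ze : ℕ → OmW K → ℝ := fun q ω => sgr (bit ω.2.1 q) with hze
  set F : ℕ → OmW K → Y K × (Y K × Y K × (Fin K → ℤ)) := fun q ω => (ω.1, f q ω) with hF
  have hwf : ∀ q, ∀ ω ω' : OmW K, f q ω = f q ω' → (w p q ω.1 ω.2.1 ↔ w p q ω'.1 ω'.2.1) := by
    intro q ω ω' h
    have h2 := labP_eq_iff74.1 h
    exact hdep.w_dep p q ω.1 ω'.1 ω.2.1 ω'.2.1 h2.1 h2.2.1
  -- one step of the chain, without and with `y`
  have stepf : ∀ q, q < K → Hw P S (f (q + 1)) =
      Hw P S (fun ω => ((f q ω, ce q ω), ze q ω)) := by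
    intro q hq
    apply Hw_congr74 hP
    · intro ω _ ω' _ h
      have h1 := Prod.mk.inj h
      have h2 := Prod.mk.inj h1.1
      exact (labP_succ_iff74 hq).2 ⟨h2.1, h2.2, h1.2⟩
    · intro ω _ ω' _ h
      have h1 := (labP_succ_iff74 hq).1 h
      exact Prod.ext (Prod.ext h1.1 h1.2.1) h1.2.2
  have stepF : ∀ q, q < K → Hw P S (F (q + 1)) =
      Hw P S (fun ω => ((F q ω, ce q ω), ze q ω)) := by
    intro q hq
    apply Hw_congr74 hP
    · intro ω _ ω' _ h
      have h1 := Prod.mk.inj h
      have h2 := Prod.mk.inj h1.1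
      have h3 := Prod.mk.inj h2.1
      exact Prod.ext h3.1 ((labP_succ_iff74 hq).2 ⟨h3.2, h2.2, h1.2⟩)
    · intro ω _ ω' _ h
      have h0 := Prod.mk.inj h
      have h1 := (labP_succ_iff74 hq).1 h0.2
      exact Prod.ext (Prod.ext (Prod.ext h0.1 h1.1) h1.2.1) h1.2.2
  have hFf : ∀ q, Mb S (F q) (f q) := fun q ω _ ω' _ h => (Prod.mk.inj h).2
  -- comparison of the conditional entropies of the signs
  have hsub : ∀ q, q < K →
      Hw P S (F (q + 1)) - Hw P S (fun ω => (F q ω, ce q ω)) ≤
        Hw P S (f (q + 1)) - Hw P S (fun ω => (f q ω, ce q ω)) := by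
    intro q hq
    rw [stepf q hq, stepF q hq]
    apply sub74 hP (fun ω => (f q ω, ce q ω)) (fun ω => (F q ω, ce q ω)) (ze q)
    intro ω hω ω' hω' h
    have h1 := Prod.mk.inj h
    exact Prod.ext (hFf q ω hω ω' hω' h1.1) h1.2
  -- the left hand side
  have hlhs : ∀ q, q < K → ∑ ω ∈ S, P ω * (i1 (w p q ω.1 ω.2.1) *
      Real.log (1 / piW M T φ ρ g w p q ω)) =
      Hw P S (fun ω => (f q ω, ce q ω)) - Hw P S (f q) := by
    intro q hq
    unfold Hw
    rw [← sum_sub_distrib]
    apply sum_congr rfl
    intro ω hω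
    have m1 := mas_pos74 hP (f q) hω
    have m2 := mas_pos74 hP (fun ω => (f q ω, ce q ω)) hω
    have e1 : ms T φ ρ (fun ω' => labP M g w p q ω' = labP M g w p q ω) = mas P S (f q) ω := by
      unfold mas
      apply ms_eq74
      intro x
      rw [CE33_mem_fib]
    by_cases hw : w p q ω.1 ω.2.1
    · have e2 : mlr M T φ ρ g w p q (labP M g w p q ω) (ObW g p ω (p + q) / (M : ℤ)) =
          mas P S (fun ω => (f q ω, ce q ω)) ω := by
        unfold mlr mas
        apply ms_eq74
        intro x
        rw [CE33_mem_fib]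
        refine and_congr_right fun _ => ?_
        constructor
        · intro h
          have h1 := Prod.mk.inj h
          have hx : w p q x.1 x.2.1 := (hwf q x ω h1.1).2 hw
          have h2 := h1.2
          simp only [hce, cel, if_pos hw, if_pos hx] at h2
          exact ⟨h1.1, h2⟩
        · rintro ⟨h1, h2⟩
          have hx : w p q x.1 x.2.1 := (hwf q x ω h1).2 hw
          refine Prod.ext h1 ?_
          simp only [hce, cel, if_pos hw, if_pos hx]
          exact h2
      unfold piW
      rw [e1, e2]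
      simp only [i1, if_pos hw, one_mul]
      rw [Real.log_div one_ne_zero (div_pos m2 m1).ne', Real.log_div m2.ne' m1.ne',
        Real.log_div one_ne_zero m1.ne', Real.log_div one_ne_zero m2.ne', Real.log_one]
      ring
    · have e2 : mas P S (fun ω => (f q ω, ce q ω)) ω = mas P S (f q) ω := by
        unfold mas
        apply sum_congr _ (fun _ _ => rfl)
        ext x
        rw [CE33_mem_fib, CE33_mem_fib, Prod.mk.injEq]
        refine and_congr_right fun _ => ?_
        constructor
        · exact fun h => h.1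
        · intro h
          refine ⟨h, ?_⟩
          have hx : ¬ w p q x.1 x.2.1 := fun hx => hw ((hwf q x ω h).1 hx)
          simp only [hce, cel, if_neg hw, if_neg hx]
      rw [e2]
      simp only [i1, if_neg hw, zero_mul, mul_zero, sub_self]
  -- the cost of the cells given `y`
  have hcell : ∀ q, q < K → Hw P S (fun ω => (F q ω, ce q ω)) - Hw P S (F q) ≤
      Ey ρ (fun y z => i1 (w p q y z) * (21 + |((g p (p + q) y z + t p q q y z +
          sgi (bit y p) * sgi (bit z q) * c p q y z : ℤ) : ℝ)| / M)) := by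
    intro q hq
    have hj : p + q < 2 * K := by omega
    -- the kernel
    set Rk : OmW K → ℤ → ℝ := fun ω v => if w p q ω.1 ω.2.1 then
      (1 / 2 : ℝ) * ∑ o ∈ cell M v, (r (o + (t p q q ω.1 ω.2.1 + c p q ω.1 ω.2.1)) +
        r (o + (t p q q ω.1 ω.2.1 - c p q ω.1 ω.2.1))) else 1 with hRk
    have hMpos : (0 : ℤ) < M := by exact_mod_cast hM
    have hcellne : ∀ v : ℤ, (cell M v).Nonempty := by
      intro v
      unfold cell
      rw [Finset.nonempty_Ico]
      omega
    have hpos : ∀ ω v, 0 < Rk ω v := by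
      intro ω v
      simp only [hRk]
      split_ifs
      · apply mul_pos (by norm_num)
        exact sum_pos (fun o _ => add_pos (hN.r_pos _) (hN.r_pos _)) (hcellne v)
      · norm_num
    have hdepF : ∀ ω ω' : OmW K, F q ω = F q ω' →
        (w p q ω.1 ω.2.1 ↔ w p q ω'.1 ω'.2.1) ∧ t p q q ω.1 ω.2.1 = t p q q ω'.1 ω'.2.1 ∧
          c p q ω.1 ω.2.1 = c p q ω'.1 ω'.2.1 := by
      intro ω ω' h
      have h1 := Prod.mk.inj h
      have h2 := labP_eq_iff74.1 h1.2
      refine ⟨hwf q ω ω' h1.2, ?_, hdep.c_dep p q _ _ _ _ h2.1 h2.2.1⟩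
      have h3 : ω.1 = ω'.1 := h1.1
      rw [h3]
      exact hdep.t_dep p q q _ _ _ h2.2.1
    -- sum of the reference law over cells
    have hsumcell : ∀ (V : Finset ℤ) (s : ℤ), (∀ v ∈ V, ∀ o ∈ cell M v,
        o + s ∈ Icc (-((T : ℤ) + R)) (T + R)) → ∑ v ∈ V, ∑ o ∈ cell M v, r (o + s) ≤ 1 := by
      intro V s hV
      rw [← sum_biUnion]
      · have h1 : ∑ o ∈ V.biUnion (cell M), r (o + s) =
            ∑ x ∈ (V.biUnion (cell M)).image (fun o => o + s), r x := by
          rw [sum_image]
          intro a _ b _ h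
          exact add_right_cancel h
        rw [h1]
        refine le_trans (sum_le_sum_of_subset_of_nonneg ?_ (fun x _ _ => (hN.r_pos x).le)) hN.r_sum
        intro x hx
        obtain ⟨o, ho, rfl⟩ := mem_image.1 hx
        obtain ⟨v, hv, hov⟩ := mem_biUnion.1 ho
        exact hV v hv o hov
      · intro a _ b _ hab
        rw [Function.onFun, Finset.disjoint_left]
        intro o ho ho'
        apply hab
        unfold cell at ho ho'
        rw [mem_Ico] at ho ho'
        have h1 : a * M < (b + 1) * M := by linarith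
        have h2 : b * M < (a + 1) * M := by linarith
        have h3 := lt_of_mul_lt_mul_right h1 hMpos.le
        have h4 := lt_of_mul_lt_mul_right h2 hMpos.le
        omega
    have hg := gibbs74 hP (F q) (ce q) Rk
      (fun ω _ ω' _ h v => by
        obtain ⟨h1, h2, h3⟩ := hdepF ω ω' h
        simp only [hRk, h2, h3]
        by_cases hw : w p q ω.1 ω.2.1
        · rw [if_pos hw, if_pos (h1.1 hw)]
        · rw [if_neg hw, if_neg (fun h => hw (h1.2 h))])
      (fun ω _ => hpos ω _)
      (fun ω hω V hV => by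
        simp only [hRk]
        by_cases hw : w p q ω.1 ω.2.1
        · simp only [if_pos hw]
          rw [← mul_sum]
          have key : ∀ s : ℤ, (∃ e : ℤ, |e| ≤ |c p q ω.1 ω.2.1| ∧ s = t p q q ω.1 ω.2.1 + e) →
              ∑ v ∈ V, ∑ o ∈ cell M v, r (o + s) ≤ 1 := by
            rintro s ⟨e, he, rfl⟩
            apply hsumcell
            intro v hv o ho
            obtain ⟨u, hu, hu1, hu2⟩ := hV v hv
            obtain ⟨d1, d2, d3⟩ := hdepF u ω hu1
            have hwu : w p q u.1 u.2.1 := d1.2 hw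
            have hcu : ObW g p u (p + q) / (M : ℤ) = v := by
              rw [← hu2]
              simp only [hce, cel, if_pos hwu]
            unfold cell at ho
            rw [mem_Ico] at ho
            have hob1 : v * M ≤ ObW g p u (p + q) := by
              rw [← hcu]
              exact Int.ediv_mul_le _ hMpos.ne'
            have hob2 : ObW g p u (p + q) < v * M + M := by
              have := Int.lt_ediv_add_one_mul_self (ObW g p u (p + q)) hMpos
              rw [hcu] at this
              linarith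
            have hnu : |nzw u.2.2 (p + q)| ≤ T := by
              unfold nzw
              rw [dif_pos hj]
              have h1 := (mem_product.1 (mem_product.1 hu).2).2
              have h2 := Fintype.mem_piFinset.1 h1 ⟨p + q, hj⟩
              rw [mem_Icc] at h2
              exact abs_le.2 h2
            have hob3 : ObW g p u (p + q) = g p (p + q) u.1 u.2.1 + nzw u.2.2 (p + q) := rfl
            have hb := hR p q hp hq u.1 u.2.1
            rw [d2, d3] at hb
            have a1 := abs_le.1 hnu
            have a2 := abs_le.1 (le_refl |g p (p + q) u.1 u.2.1|)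
            have a3 := abs_le.1 (le_refl |t p q q ω.1 ω.2.1|)
            have a4 := abs_le.1 he
            rw [mem_Icc]
            constructor <;> linarith [a1.1, a1.2, a2.1, a2.2, a3.1, a3.2, a4.1, a4.2]
          have e1 : ∑ v ∈ V, ∑ o ∈ cell M v, (r (o + (t p q q ω.1 ω.2.1 + c p q ω.1 ω.2.1)) +
              r (o + (t p q q ω.1 ω.2.1 - c p q ω.1 ω.2.1))) =
              ∑ v ∈ V, ∑ o ∈ cell M v, r (o + (t p q q ω.1 ω.2.1 + c p q ω.1 ω.2.1)) +
              ∑ v ∈ V, ∑ o ∈ cell M v, r (o + (t p q q ω.1 ω.2.1 - c p q ω.1 ω.2.1)) := by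
            rw [← sum_add_distrib]
            exact sum_congr rfl fun v _ => sum_add_distrib
          rw [e1]
          have k1 := key (t p q q ω.1 ω.2.1 + c p q ω.1 ω.2.1) ⟨_, le_refl _, rfl⟩
          have k2 := key (t p q q ω.1 ω.2.1 - c p q ω.1 ω.2.1)
            ⟨-c p q ω.1 ω.2.1, by rw [abs_neg], by ring⟩
          linarith
        · simp only [if_neg hw]
          have hV1 : V ⊆ {0} := by
            intro v hv
            obtain ⟨u, _, hu1, hu2⟩ := hV v hv
            have hwu : ¬ w p q u.1 u.2.1 := fun h => hw ((hdepF u ω hu1).1.1 h)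
            rw [mem_singleton, ← hu2]
            simp only [hce, cel, if_neg hwu]
          calc ∑ _v ∈ V, (1 : ℝ) ≤ ∑ _v ∈ ({0} : Finset ℤ), (1 : ℝ) :=
                sum_le_sum_of_subset_of_nonneg hV1 (fun _ _ _ => zero_le_one)
            _ = 1 := by simp)
    refine hg.trans ?_
    -- pointwise bound of the logarithm
    set A : Y K → Y K → ℤ := fun y z => t p q q y z + sgi (bit y p) * sgi (bit z q) * c p q y z
      with hA
    have hpt : ∀ ω ∈ S, P ω * Real.log (1 / Rk ω (ce q ω)) ≤
        P ω * (fun y z x => i1 (w p q y z) * (1 + Real.log (1 / ∑ o ∈ cell M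
          ((g p (p + q) y z + x) / (M : ℤ)), r (o + A y z)))) ω.1 ω.2.1 (ω.2.2 ⟨p + q, hj⟩) := by
      intro ω hω
      apply mul_le_mul_of_nonneg_left _ (hP ω hω).le
      by_cases hw : w p q ω.1 ω.2.1
      · have e1 : ce q ω = (g p (p + q) ω.1 ω.2.1 + ω.2.2 ⟨p + q, hj⟩) / (M : ℤ) := by
          simp only [hce, cel, if_pos hw, ObW, nzw, dif_pos hj]
        dsimp only
        rw [e1]
        set v : ℤ := (g p (p + q) ω.1 ω.2.1 + ω.2.2 ⟨p + q, hj⟩) / (M : ℤ) with hv
        simp only [i1, if_pos hw, one_mul]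
        have h1 : (1 / 2 : ℝ) * ∑ o ∈ cell M v, r (o + A ω.1 ω.2.1) ≤ Rk ω v := by
          simp only [hRk, if_pos hw]
          apply mul_le_mul_of_nonneg_left _ (by norm_num)
          apply sum_le_sum
          intro o _
          have hs : sgi (bit ω.1 p) * sgi (bit ω.2.1 q) = 1 ∨
              sgi (bit ω.1 p) * sgi (bit ω.2.1 q) = -1 := by
            cases bit ω.1 p <;> cases bit ω.2.1 q <;> simp [sgi]
          rcases hs with h | h
          · simp only [hA, h, one_mul]
            linarith [hN.r_pos (o + (t p q q ω.1 ω.2.1 - c p q ω.1 ω.2.1))]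
          · simp only [hA, h]
            rw [show t p q q ω.1 ω.2.1 + -1 * c p q ω.1 ω.2.1 =
              t p q q ω.1 ω.2.1 - c p q ω.1 ω.2.1 by ring]
            linarith [hN.r_pos (o + (t p q q ω.1 ω.2.1 + c p q ω.1 ω.2.1))]
        have h2 : 0 < ∑ o ∈ cell M v, r (o + A ω.1 ω.2.1) :=
          sum_pos (fun o _ => hN.r_pos _) (hcellne v)
        have h3 : Real.log (1 / Rk ω v) ≤
            Real.log (1 / ((1 / 2 : ℝ) * ∑ o ∈ cell M v, r (o + A ω.1 ω.2.1))) := by
          apply Real.log_le_log
          · exact one_div_pos.2 (hpos ω v)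
          · exact one_div_le_one_div_of_le (by positivity) h1
        have h4 : Real.log (1 / ((1 / 2 : ℝ) * ∑ o ∈ cell M v, r (o + A ω.1 ω.2.1))) =
            Real.log 2 + Real.log (1 / ∑ o ∈ cell M v, r (o + A ω.1 ω.2.1)) := by
          rw [← Real.log_mul (by norm_num) (one_div_pos.2 h2).ne']
          congr 1
          field_simp
        have h5 : Real.log 2 ≤ 1 := by
          have := Real.log_two_lt_d9
          linarith
        linarith
      · dsimp only
        simp only [hRk, if_neg hw, i1, zero_mul]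
        norm_num
    refine (sum_le_sum hpt).trans ?_
    rw [hE2 ⟨p + q, hj⟩ (fun y z x => i1 (w p q y z) * (1 + Real.log (1 / ∑ o ∈ cell M
          ((g p (p + q) y z + x) / (M : ℤ)), r (o + A y z))))]
    unfold Ey
    apply sum_le_sum
    intro y _
    apply sum_le_sum
    intro z _
    apply mul_le_mul_of_nonneg_left _ (hρ y z).le
    have e2 : ∑ x ∈ Icc (-(T : ℤ)) T, φ x * (i1 (w p q y z) * (1 + Real.log (1 / ∑ o ∈ cell M
          ((g p (p + q) y z + x) / (M : ℤ)), r (o + A y z)))) =
        i1 (w p q y z) * (1 + ∑ x ∈ Icc (-(T : ℤ)) T, φ x * Real.log (1 / ∑ o ∈ cell M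
          ((g p (p + q) y z + x) / (M : ℤ)), r (o + A y z))) := by
      have e3 : ∀ x ∈ Icc (-(T : ℤ)) T, φ x * (i1 (w p q y z) * (1 + Real.log (1 / ∑ o ∈ cell M
          ((g p (p + q) y z + x) / (M : ℤ)), r (o + A y z)))) =
          i1 (w p q y z) * (φ x + φ x * Real.log (1 / ∑ o ∈ cell M
          ((g p (p + q) y z + x) / (M : ℤ)), r (o + A y z))) := by
        intro x _; ring
      rw [sum_congr rfl e3, ← mul_sum, sum_add_distrib, hN.phi_sum]
    dsimp only
    rw [e2]
    have hi : 0 ≤ i1 (w p q y z) := by unfold i1; split_ifs <;> norm_num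
    apply mul_le_mul_of_nonneg_left _ hi
    have hb := hR p q hp hq y z
    have hga : |g p (p + q) y z + A y z| ≤ R := by
      simp only [hA]
      have hs : |sgi (bit y p) * sgi (bit z q) * c p q y z| ≤ |c p q y z| := by
        rw [abs_mul]
        have : |sgi (bit y p) * sgi (bit z q)| = 1 := by
          cases bit y p <;> cases bit z q <;> simp [sgi]
        rw [this, one_mul]
      calc |g p (p + q) y z + (t p q q y z + sgi (bit y p) * sgi (bit z q) * c p q y z)|
          ≤ |g p (p + q) y z| + |t p q q y z + sgi (bit y p) * sgi (bit z q) * c p q y z| :=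
            abs_add_le _ _
        _ ≤ |g p (p + q) y z| + (|t p q q y z| + |sgi (bit y p) * sgi (bit z q) * c p q y z|) :=
            add_le_add_right (abs_add_le _ _) _
        _ ≤ R := by linarith
    have h6 := hN.rc (g p (p + q) y z) (A y z) hga
    have h7 : g p (p + q) y z + A y z = g p (p + q) y z + t p q q y z +
          sgi (bit y p) * sgi (bit z q) * c p q y z := by
      simp only [hA]; ring
    rw [h7] at h6
    linarith
  -- the telescoping sums
  have tel : ∀ (a : ℕ → ℝ), ∑ q ∈ range K, (a (q + 1) - a q) = a K - a 0 := fun a =>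
    Finset.sum_range_sub a K
  have hsum1 : ∑ q ∈ range K, (Hw P S (fun ω => (f q ω, ce q ω)) - Hw P S (f q)) ≤
      (Hw P S (f K) - Hw P S (f 0)) - (Hw P S (F K) - Hw P S (F 0)) +
        ∑ q ∈ range K, (Hw P S (fun ω => (F q ω, ce q ω)) - Hw P S (F q)) := by
    rw [← tel (fun q => Hw P S (f q)), ← tel (fun q => Hw P S (F q)), ← sum_sub_distrib,
      ← sum_add_distrib]
    apply sum_le_sum
    intro q hq
    have := hsub q (mem_range.1 hq)
    linarith
  -- the boundary terms
  have hbd : (Hw P S (f K) - Hw P S (f 0)) - (Hw P S (F K) - Hw P S (F 0)) ≤ klr ρ := by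
    set u0 : OmW K → Unit := fun _ => () with hu0
    set ly : OmW K → Y K := fun ω => ω.1 with hly
    set lzn : OmW K → Y K × (Fin (2 * K) → ℤ) := fun ω => (ω.2.1, ω.2.2) with hlzn
    set ln : OmW K → (Fin (2 * K) → ℤ) := fun ω => ω.2.2 with hln
    have hu : Hw P S u0 = 0 := by
      unfold Hw
      apply sum_eq_zero
      intro ω hω
      have : mas P S u0 ω = 1 := by
        rw [← hP1]
        unfold mas
        apply sum_congr _ (fun _ _ => rfl)
        ext x
        rw [CE33_mem_fib]
        exact ⟨fun h => h.1, fun h => ⟨h, rfl⟩⟩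
      rw [this]
      simp
    -- (a)
    have a1 : Hw P S (fun ω => (labR p ω, ω.1)) - Hw P S (labR p) ≤
        Hw P S (fun ω => (f K ω, ω.1)) - Hw P S (f K) := by
      apply sub74 hP (f K) (labR p) (fun ω : OmW K => ω.1)
      intro ω _ ω' _ h
      simp only [labR, Prod.mk.injEq] at h
      obtain ⟨⟨h1, h2⟩, h3⟩ := h
      refine labP_eq_iff74.2 ⟨h3, by rw [h1], fun i _ => ?_⟩
      have e1 : w p i ω.1 ω.2.1 ↔ w p i ω'.1 ω'.2.1 :=
        hdep.w_dep p i _ _ _ _ h3 (by rw [h1])
      have e2 : ObW g p ω (p + i) = ObW g p ω' (p + i) := by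
        unfold ObW
        rw [hdep.g_dep p (p + i) ω.1 ω'.1 ω.2.1 h3, h1, h2]
      unfold cel
      by_cases hw : w p i ω.1 ω.2.1
      · rw [if_pos hw, if_pos (e1.1 hw), e2]
      · rw [if_neg hw, if_neg (fun h => hw (e1.2 h))]
    have a2 : Hw P S (F K) = Hw P S (fun ω => (f K ω, ω.1)) := by
      apply Hw_congr74 hP
      · intro ω _ ω' _ h
        have h1 := Prod.mk.inj h
        exact Prod.ext h1.2 h1.1
      · intro ω _ ω' _ h
        have h1 := Prod.mk.inj h
        exact Prod.ext h1.2 h1.1
    have a3 : Hw P S (fun ω => (labR p ω, ω.1)) = Hw P S (fun ω : OmW K => ω) := by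
      apply Hw_congr74 hP
      · intro ω _ ω' _ h
        have h1 : ω = ω' := h
        rw [h1]
      · intro ω _ ω' _ h
        simp only [labR, Prod.mk.injEq] at h
        obtain ⟨⟨⟨h1, h2⟩, _⟩, h3⟩ := h
        exact Prod.ext h3 (Prod.ext h1 h2)
    -- (b)
    have b1 : Hw P S (labR p) - Hw P S (f 0) ≤ Hw P S lzn := by
      have h := sub74 hP u0 (f 0) lzn (fun _ _ _ _ _ => rfl)
      rw [hu, sub_zero] at h
      have e1 : Hw P S (labR p) = Hw P S (fun ω => (f 0 ω, lzn ω)) := by
        apply Hw_congr74 hP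
        · intro ω _ ω' _ h
          have h1 := Prod.mk.inj h
          have h2 := labP_eq_iff74.1 h1.1
          simp only [labR, Prod.mk.injEq]
          exact ⟨Prod.mk.inj h1.2, h2.1⟩
        · intro ω _ ω' _ h
          simp only [labR, Prod.mk.injEq] at h
          obtain ⟨⟨h1, h2⟩, h3⟩ := h
          exact Prod.ext (labP_eq_iff74.2 ⟨h3, pre_zero _ _, fun i hi => absurd hi (by omega)⟩)
            (Prod.ext h1 h2)
      have e2 : Hw P S (fun ω => (u0 ω, lzn ω)) = Hw P S lzn := by
        apply Hw_congr74 hP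
        · intro ω _ ω' _ h
          exact Prod.ext rfl h
        · intro ω _ ω' _ h
          exact (Prod.mk.inj h).2
      rw [e1]
      rw [e2] at h
      exact h
    have b2 : Hw P S lzn - Hw P S ln ≤ K * Real.log 2 := by
      have h := card74 hP ln (fun ω : OmW K => ω.2.1) hP1
      have e1 : Hw P S (fun ω => (ln ω, ω.2.1)) = Hw P S lzn := by
        apply Hw_congr74 hP
        · intro ω _ ω' _ h
          have h1 := Prod.mk.inj h
          exact Prod.ext h1.2 h1.1
        · intro ω _ ω' _ h
          have h1 := Prod.mk.inj h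
          exact Prod.ext h1.2 h1.1
      rw [e1] at h
      refine h.trans (le_of_eq ?_)
      rw [Fintype.card_fun, Fintype.card_fin, Fintype.card_bool]
      push_cast
      rw [Real.log_pow]
    have b3 : Hw P S (F 0) ≤ K * Real.log 2 := by
      have h := card74 hP u0 (fun ω : OmW K => ω.1) hP1
      rw [hu, sub_zero] at h
      have e1 : Hw P S (fun ω => (u0 ω, ω.1)) = Hw P S (F 0) := by
        apply Hw_congr74 hP
        · intro ω _ ω' _ h
          exact Prod.ext rfl (Prod.mk.inj h).1
        · intro ω _ ω' _ h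
          have h1 : ω.1 = ω'.1 := (Prod.mk.inj h).2
          refine Prod.ext h1 (labP_eq_iff74.2 ⟨by rw [h1], pre_zero _ _,
            fun i hi => absurd hi (by omega)⟩)
      rw [e1] at h
      refine h.trans (le_of_eq ?_)
      rw [Fintype.card_fun, Fintype.card_fin, Fintype.card_bool]
      push_cast
      rw [Real.log_pow]
    -- (c) the entropy of the noise against the entropy of the points
    have c1 : Hw P S ln ≤ ∑ ω ∈ S, P ω * Real.log (1 / ∏ j, φ (ω.2.2 j)) := by
      have hφ : ∀ ω ∈ S, 0 < ∏ j, φ (ω.2.2 j) := by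
        intro ω hω
        apply prod_pos
        intro j _
        exact hN.phi_pos _ (Fintype.mem_piFinset.1 (mem_product.1 (mem_product.1 hω).2).2 j)
      have h := gibbs74 hP u0 ln (fun _ ν => ∏ j, φ (ν j)) (fun _ _ _ _ _ _ => rfl)
        (fun ω hω => hφ ω hω)
        (fun ω _ V hV => by
          have hV1 : V ⊆ Fintype.piFinset (fun _ : Fin (2 * K) => Icc (-(T : ℤ)) T) := by
            intro v hv
            obtain ⟨u, hu1, _, hu2⟩ := hV v hv
            rw [← hu2]
            exact (mem_product.1 (mem_product.1 hu1).2).2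
          refine (sum_le_sum_of_subset_of_nonneg hV1 ?_).trans ?_
          · intro v hv _
            exact prod_nonneg fun j _ => (hN.phi_pos _ (Fintype.mem_piFinset.1 hv j)).le
          · rw [← Finset.prod_univ_sum]
            simp only [hN.phi_sum, prod_const_one, le_refl])
      have e2 : Hw P S (fun ω => (u0 ω, ln ω)) = Hw P S ln := by
        apply Hw_congr74 hP
        · intro ω _ ω' _ h
          exact Prod.ext rfl h
        · intro ω _ ω' _ h
          exact (Prod.mk.inj h).2
      rw [e2, hu, sub_zero] at h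
      exact h
    have c2 : Hw P S (fun ω : OmW K => ω) = ∑ ω ∈ S, P ω * Real.log (1 / P ω) := by
      unfold Hw
      apply sum_congr rfl
      intro ω hω
      congr 3
      unfold mas
      have : fib S (fun ω : OmW K => ω) ω = {ω} := by
        ext x
        rw [CE33_mem_fib, mem_singleton]
        constructor
        · exact fun h => h.2
        · rintro rfl
          exact ⟨hω, rfl⟩
      rw [this, sum_singleton]
    have c3 : ∑ ω ∈ S, P ω * Real.log (1 / ∏ j, φ (ω.2.2 j)) -
        ∑ ω ∈ S, P ω * Real.log (1 / P ω) = Ey ρ (fun y z => Real.log (ρ y z)) := by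
      rw [← hE (fun y z => Real.log (ρ y z)), ← sum_sub_distrib]
      apply sum_congr rfl
      intro ω hω
      have hφ : 0 < ∏ j, φ (ω.2.2 j) := by
        apply prod_pos
        intro j _
        exact hN.phi_pos _ (Fintype.mem_piFinset.1 (mem_product.1 (mem_product.1 hω).2).2 j)
      have hr := hρ ω.1 ω.2.1
      have e1 : P ω = ρ ω.1 ω.2.1 * ∏ j, φ (ω.2.2 j) := rfl
      have e2 : Real.log (P ω) = Real.log (ρ ω.1 ω.2.1) + Real.log (∏ j, φ (ω.2.2 j)) := by
        rw [e1, Real.log_mul hr.ne' hφ.ne']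
      rw [Real.log_div one_ne_zero hφ.ne', Real.log_div one_ne_zero (hP ω hω).ne', e2,
        Real.log_one]
      ring
    have c4 : klr ρ = 2 * K * Real.log 2 + Ey ρ (fun y z => Real.log (ρ y z)) := by
      have e1 : klr ρ = Ey ρ (fun y z => 2 * K * Real.log 2 * 1 + Real.log (ρ y z)) := by
        unfold klr Ey
        apply sum_congr rfl
        intro y _
        apply sum_congr rfl
        intro z _
        dsimp only
        rw [Real.log_mul (by positivity) (hρ y z).ne', Real.log_pow,
          show (4 : ℝ) = 2 ^ 2 by norm_num, Real.log_pow]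
        push_cast
        ring
      rw [e1]
      have e2 : Ey ρ (fun y z => 2 * K * Real.log 2 * 1 + Real.log (ρ y z)) =
          2 * K * Real.log 2 * Ey ρ (fun _ _ => 1) + Ey ρ (fun y z => Real.log (ρ y z)) := by
        unfold Ey
        rw [mul_sum, ← sum_add_distrib]
        apply sum_congr rfl
        intro y _
        rw [mul_sum, ← sum_add_distrib]
        apply sum_congr rfl
        intro z _
        ring
      rw [e2, hρ1, mul_one]
    rw [a2]
    rw [a3] at a1
    linarith
  calc ∑ q ∈ range K, ∑ ω ∈ S, P ω *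
        (i1 (w p q ω.1 ω.2.1) * Real.log (1 / piW M T φ ρ g w p q ω))
      = ∑ q ∈ range K, (Hw P S (fun ω => (f q ω, ce q ω)) - Hw P S (f q)) :=
        sum_congr rfl fun q hq => hlhs q (mem_range.1 hq)
    _ ≤ klr ρ + ∑ q ∈ range K, (Hw P S (fun ω => (F q ω, ce q ω)) - Hw P S (F q)) := by
        linarith
    _ ≤ _ := add_le_add_right (sum_le_sum fun q hq => hcell q (mem_range.1 hq)) _

end Pool.Agent.SB3.W
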