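import Mathlib

/-!
SB3 (chair: helper74): sharp lower bounds for three-parameter dyadic sums.
General finite part: definitions and statements (as `Prop`s) of the modules CE, ENT, BES, STAR.
The set-up of Theorem G is in `Set74.lean`.
-/

set_option autoImplicit false

namespace Pool.Agent.SB3

open Finset

abbrev Y (L : ℕ) : Type := Fin L → Bool

/-- coordinate `i` (false outside the range) -/
def bit {L : ℕ} (y : Y L) (i : ℕ) : Bool := if h : i < L then y ⟨i, h⟩ else false

def sgr (b : Bool) : ℝ := if b then 1 else -1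

def sgi (b : Bool) : ℤ := if b then 1 else -1

/-- the first `p` coordinates, the others are set to `false` -/
def pre {L : ℕ} (p : ℕ) (y : Y L) : Y L := fun i => if (i : ℕ) < p then y i else false

/-! ### finite conditional averages -/

open Classical in
/-- the points of `S` with the same label as `s` -/
noncomputable def fib {α κ : Type} (S : Finset α) (f : α → κ) (s : α) : Finset α :=
  S.filter (fun s' => f s' = f s)

/-- average of `X` over the points of `S` with the same label as `s` -/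
noncomputable def cav {α κ : Type} (S : Finset α) (f : α → κ) (X : α → ℝ) (s : α) : ℝ :=
  (∑ s' ∈ fib S f s, X s') / ((fib S f s).card : ℝ)

/-- `h` is a function of the label `f` on `S` -/
def Mb {α κ τ : Type} (S : Finset α) (f : α → κ) (h : α → τ) : Prop :=
  ∀ s ∈ S, ∀ s' ∈ S, f s = f s' → h s = h s'

/-- CE: the orthogonality property of conditional averages, and the variance bound -/
def StCE : Prop :=
  ∀ (α κ : Type) (S : Finset α) (f : α → κ) (X h : α → ℝ), Mb S f h →
    (∑ s ∈ S, h s * (X s - cav S f X s) = 0) ∧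
    ((∀ s ∈ S, |X s| ≤ 1) → (∀ s ∈ S, |cav S f X s| ≤ 1) ∧
      ((∀ s ∈ S, |h s| ≤ 1) → ∑ s ∈ S, ((X s - cav S f X s) * h s) ^ 2 ≤ S.card))

/-- ENT: the entropy lemma. If `(a, b)` is injective on `S`, `a` has values in `A`, and `β q` is the
average of the sign of `b q` given `a` and the earlier coordinates of `b`, then
`∑ β ^ 2` is controlled by the relative size of `S`. -/
def StEnt : Prop :=
  ∀ (L : ℕ) (α κ : Type) (S : Finset α) (A : Finset κ) (a : α → κ) (b : α → Y L), S.Nonempty →
    (∀ s ∈ S, a s ∈ A) → (∀ s ∈ S, ∀ s' ∈ S, a s = a s' → b s = b s' → s = s') →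
    ∑ q ∈ range L, ∑ s ∈ S,
      (cav S (fun s => (a s, pre q (b s))) (fun s => sgr (bit (b s) q)) s) ^ 2
      ≤ 2 * S.card * Real.log (2 ^ L * A.card / S.card)

/-- BES: Bessel's inequality for the martingale differences `(X p - cav X p) * f p` -/
def StBes : Prop :=
  ∀ (α κ : Type) (S : Finset α) (n : ℕ) (R : ℕ → α → κ) (X f : ℕ → α → ℝ) (β : α → ℝ),
    (∀ p p', p ≤ p' → Mb S (R p') (R p)) → (∀ p p', p < p' → Mb S (R p') (X p)) →
    (∀ p, Mb S (R p) (f p)) → (∀ p, ∀ s ∈ S, |X p s| ≤ 1) → (∀ p, ∀ s ∈ S, |f p s| ≤ 1) →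
    ∑ p ∈ range n, (∑ s ∈ S, β s * ((X p s - cav S (R p) (X p) s) * f p s)) ^ 2
      ≤ S.card * ∑ s ∈ S, β s ^ 2

/-- STAR: the identity obtained by conditioning in two ways -/
def StStar : Prop :=
  ∀ (α κ κ' : Type) (S : Finset α) (R : α → κ) (C : α → κ') (η ζ u F A B : α → ℝ),
    (∀ s ∈ S, η s = 1 ∨ η s = -1) → (∀ s ∈ S, ζ s = 1 ∨ ζ s = -1) →
    (∀ s ∈ S, u s ^ 2 = 1) →
    Mb S R ζ → Mb S C η → Mb S R u → Mb S C u → Mb S R F → Mb S C A → Mb S C B →
    (∀ s ∈ S, F s = A s - η s * ζ s * u s * B s) →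
    ∑ s ∈ S, (1 - cav S R η s * η s) * (1 - cav S C ζ s * ζ s) * B s =
      ∑ s ∈ S, cav S C ζ s * ((η s - cav S R η s) * (u s * F s)) -
      ∑ s ∈ S, cav S R η s * ((ζ s - cav S C ζ s) * (u s * A s))

end Pool.Agent.SB3
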