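import Mathlib
import Pool.Agent.Lib.SB3.Stmts74

set_option autoImplicit false

/-!
CE: conditional averages.
-/

namespace Pool.Agent.SB3

open Finset

theorem CE33_mem_fib {α κ : Type} {S : Finset α} {f : α → κ} {s s' : α} :
    s' ∈ fib S f s ↔ s' ∈ S ∧ f s' = f s := by
  classical
  unfold fib
  rw [mem_filter]

theorem CE33_fib_congr {α κ : Type} (S : Finset α) (f : α → κ) {s s' : α} (h : f s = f s') :
    fib S f s = fib S f s' := by
  ext x
  rw [CE33_mem_fib, CE33_mem_fib, h]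

theorem CE33_fib_pos {α κ : Type} {S : Finset α} {f : α → κ} {s : α} (hs : s ∈ S) :
    0 < ((fib S f s).card : ℝ) := by
  have : s ∈ fib S f s := CE33_mem_fib.2 ⟨hs, rfl⟩
  exact_mod_cast card_pos.2 ⟨s, this⟩

theorem CE33_cav_congr {α κ : Type} (S : Finset α) (f : α → κ) (X : α → ℝ) {s s' : α}
    (h : f s = f s') : cav S f X s = cav S f X s' := by
  unfold cav
  rw [CE33_fib_congr S f h]

/-- the conditional average is a function of the label -/
theorem CE33_cav_mb {α κ : Type} (S : Finset α) (f : α → κ) (X : α → ℝ) : Mb S f (cav S f X) :=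
  fun _ _ _ _ h => CE33_cav_congr S f X h

theorem CE33_sum {α κ : Type} (S : Finset α) (f : α → κ) (X h : α → ℝ) (hh : Mb S f h) :
    ∑ s ∈ S, h s * cav S f X s = ∑ s ∈ S, h s * X s := by
  classical
  have e1 : ∀ s ∈ S, h s * cav S f X s =
      ∑ s' ∈ S, if f s' = f s then h s' * X s' / ((fib S f s').card : ℝ) else 0 := by
    intro s hs
    unfold cav
    rw [← mul_div_assoc, mul_sum, sum_div]
    rw [← sum_filter]
    apply sum_congr rfl
    intro s' hs'
    rw [CE33_mem_fib] at hs'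
    rw [hh s hs s' hs'.1 hs'.2.symm, CE33_fib_congr S f hs'.2]
  rw [sum_congr rfl e1, sum_comm]
  apply sum_congr rfl
  intro s' hs'
  rw [← sum_filter, sum_const, nsmul_eq_mul]
  have e2 : S.filter (fun s => f s' = f s) = fib S f s' := by
    ext x
    rw [mem_filter, CE33_mem_fib, eq_comm]
  rw [e2]
  have := CE33_fib_pos (f := f) hs'
  field_simp

theorem CE33_orth {α κ : Type} (S : Finset α) (f : α → κ) (X h : α → ℝ) (hh : Mb S f h) :
    ∑ s ∈ S, h s * (X s - cav S f X s) = 0 := by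
  have e : ∀ s ∈ S, h s * (X s - cav S f X s) = h s * X s - h s * cav S f X s := by
    intro s _; ring
  rw [sum_congr rfl e, sum_sub_distrib, CE33_sum S f X h hh, sub_self]

theorem CE33_abs {α κ : Type} (S : Finset α) (f : α → κ) (X : α → ℝ) (hX : ∀ s ∈ S, |X s| ≤ 1) :
    ∀ s ∈ S, |cav S f X s| ≤ 1 := by
  intro s hs
  have h0 := CE33_fib_pos (f := f) hs
  unfold cav
  rw [abs_div, abs_of_pos h0, div_le_one h0]
  calc |∑ s' ∈ fib S f s, X s'| ≤ ∑ s' ∈ fib S f s, |X s'| := abs_sum_le_sum_abs _ _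
    _ ≤ ∑ s' ∈ fib S f s, (1 : ℝ) := sum_le_sum fun s' hs' => hX s' (CE33_mem_fib.1 hs').1
    _ = ((fib S f s).card : ℝ) := by simp

theorem CE33_var {α κ : Type} (S : Finset α) (f : α → κ) (X h : α → ℝ)
    (hX : ∀ s ∈ S, |X s| ≤ 1) (h1 : ∀ s ∈ S, |h s| ≤ 1) :
    ∑ s ∈ S, ((X s - cav S f X s) * h s) ^ 2 ≤ S.card := by
  have a1 := CE33_orth S f X (cav S f X) (CE33_cav_mb S f X)
  calc ∑ s ∈ S, ((X s - cav S f X s) * h s) ^ 2
      ≤ ∑ s ∈ S, (X s - cav S f X s) ^ 2 := by
        apply sum_le_sum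
        intro s hs
        rw [mul_pow]
        have h2 : h s ^ 2 ≤ 1 := by rw [sq_le_one_iff_abs_le_one]; exact h1 s hs
        have h3 := sq_nonneg (X s - cav S f X s)
        nlinarith
    _ ≤ ∑ s ∈ S, (X s ^ 2 - 2 * (cav S f X s * (X s - cav S f X s))) := by
        apply sum_le_sum
        intro s _
        have h3 := sq_nonneg (cav S f X s)
        nlinarith
    _ = ∑ s ∈ S, X s ^ 2 := by
        rw [sum_sub_distrib, ← mul_sum, a1]; ring
    _ ≤ ∑ s ∈ S, (1 : ℝ) := by
        apply sum_le_sum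
        intro s hs
        rw [sq_le_one_iff_abs_le_one]; exact hX s hs
    _ = S.card := by simp

/-- CE -/
theorem stCE : StCE := by
  intro α κ S f X h hh
  exact ⟨CE33_orth S f X h hh, fun hX => ⟨CE33_abs S f X hX, fun h1 => CE33_var S f X h hX h1⟩⟩

end Pool.Agent.SB3
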