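import Mathlib
import Pool.Agent.Lib.SB3.CE33

set_option autoImplicit false

/-!
STAR: the identity obtained by conditioning in two ways.
-/

namespace Pool.Agent.SB3

open Finset

/-- STAR with an error term (`F` is not exactly `A - η ζ u B`) -/
theorem star_err33 {α κ κ' : Type} (S : Finset α) (R : α → κ) (C : α → κ')
    (η ζ u F A B : α → ℝ) (hη : ∀ s ∈ S, η s = 1 ∨ η s = -1) (hζ : ∀ s ∈ S, ζ s = 1 ∨ ζ s = -1)
    (hu : ∀ s ∈ S, u s ^ 2 = 1) (hRζ : Mb S R ζ) (hCη : Mb S C η) (hRu : Mb S R u)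
    (hCu : Mb S C u) (hRF : Mb S R F) (hCA : Mb S C A) :
    ∑ s ∈ S, (1 - cav S R η s * η s) * (1 - cav S C ζ s * ζ s) * B s =
      ∑ s ∈ S, cav S C ζ s * ((η s - cav S R η s) * (u s * F s)) -
      ∑ s ∈ S, cav S R η s * ((ζ s - cav S C ζ s) * (u s * A s)) +
      ∑ s ∈ S, (η s - cav S R η s) * (ζ s - cav S C ζ s) * u s *
        (F s - A s + η s * ζ s * u s * B s) := by
  set a := cav S R η with ha
  set b := cav S C ζ with hb
  have h1 : ∑ s ∈ S, (ζ s * u s * F s) * (η s - a s) = 0 := by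
    apply CE33_orth S R η (fun s => ζ s * u s * F s)
    intro s hs s' hs' e
    dsimp only
    rw [hRζ s hs s' hs' e, hRu s hs s' hs' e, hRF s hs s' hs' e]
  have h2 : ∑ s ∈ S, (η s * u s * A s) * (ζ s - b s) = 0 := by
    apply CE33_orth S C ζ (fun s => η s * u s * A s)
    intro s hs s' hs' e
    dsimp only
    rw [hCη s hs s' hs' e, hCu s hs s' hs' e, hCA s hs s' hs' e]
  have key : ∑ s ∈ S, ((1 - a s * η s) * (1 - b s * ζ s) * B s -
      b s * ((η s - a s) * (u s * F s)) + a s * ((ζ s - b s) * (u s * A s)) -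
      (η s - a s) * (ζ s - b s) * u s * (F s - A s + η s * ζ s * u s * B s)) =
      ∑ s ∈ S, ((η s * u s * A s) * (ζ s - b s) - (ζ s * u s * F s) * (η s - a s)) := by
    apply sum_congr rfl
    intro s hs
    have e1 : η s ^ 2 = 1 := by rcases hη s hs with h | h <;> rw [h] <;> norm_num
    have e2 : ζ s ^ 2 = 1 := by rcases hζ s hs with h | h <;> rw [h] <;> norm_num
    have e3 := hu s hs
    linear_combination ((ζ s * u s ^ 2 * B s * b s - ζ s ^ 2 * u s ^ 2 * B s)) * e1 +
      (a s * η s * u s ^ 2 * B s - u s ^ 2 * B s) * e2 +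
      (a s * η s * B s + ζ s * B s * b s - B s - a s * η s * ζ s * b s * B s) * e3
  rw [sum_sub_distrib, sum_sub_distrib, h1, h2, sub_zero, sum_add_distrib, sum_sub_distrib] at key
  linarith

/-- STAR -/
theorem stStar : StStar := by
  intro α κ κ' S R C η ζ u F A B hη hζ hu hRζ hCη hRu hCu hRF hCA _ hF
  rw [star_err33 S R C η ζ u F A B hη hζ hu hRζ hCη hRu hCu hRF hCA]
  have : ∑ s ∈ S, (η s - cav S R η s) * (ζ s - cav S C ζ s) * u s *
        (F s - A s + η s * ζ s * u s * B s) = 0 := by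
    apply sum_eq_zero
    intro s hs
    rw [hF s hs]; ring
  rw [this, add_zero]

end Pool.Agent.SB3
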