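import Pool.Agent.Lib.SB3.Meas7
import Pool.Agent.Lib.SB3.Star33

/-! SB3, module KEY: the main inequality for one pair. -/

set_option autoImplicit false

namespace Pool.Agent.SB3

open Finset

namespace Key7

/-- `x / W`, clamped to `[0, 1]` -/
noncomputable def cl (W x : ℝ) : ℝ := max 0 (min 1 (x / W))

lemma cl_nonneg (W x : ℝ) : 0 ≤ cl W x := le_max_left _ _

lemma cl_le_one (W x : ℝ) : cl W x ≤ 1 := max_le zero_le_one (min_le_left _ _)

lemma cl_mono {W x y : ℝ} (hW : 0 < W) (h : x ≤ y) : cl W x ≤ cl W y :=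
  max_le_max le_rfl (min_le_min le_rfl (div_le_div_of_nonneg_right h hW.le))

lemma cl_lip' {W x y : ℝ} (hW : 0 < W) : cl W x ≤ cl W y + |x - y| / W := by
  have h0 : 0 ≤ |x - y| / W := by positivity
  have h1 : x / W ≤ y / W + |x - y| / W := by
    rw [← add_div]
    refine div_le_div_of_nonneg_right ?_ hW.le
    have := le_abs_self (x - y)
    linarith
  have h2 : min 1 (x / W) ≤ min 1 (y / W) + |x - y| / W := by
    rcases min_choice 1 (y / W) with h | h
    · rw [h]
      exact (min_le_left _ _).trans (by linarith)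
    · rw [h]
      exact (min_le_right _ _).trans h1
  unfold cl
  refine max_le (add_nonneg (le_max_left _ _) h0) ?_
  have := le_max_right 0 (min 1 (y / W))
  linarith

lemma cl_lip {W x y : ℝ} (hW : 0 < W) : |cl W x - cl W y| ≤ |x - y| / W := by
  rw [abs_le]
  have h1 := cl_lip' (x := x) (y := y) hW
  have h2 := cl_lip' (x := y) (y := x) hW
  rw [abs_sub_comm] at h2
  constructor <;> linarith

lemma cl_eq {W x : ℝ} (hW : 0 < W) (h0 : 0 ≤ x) (h1 : x ≤ W) : cl W x = x / W := by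
  unfold cl
  rw [min_eq_right ((div_le_one hW).2 h1), max_eq_right (div_nonneg h0 hW.le)]

lemma sgr_cases (b : Bool) : sgr b = 1 ∨ sgr b = -1 := by
  cases b <;> simp [sgr]

lemma sgr_cast (b : Bool) : sgr b = (sgi b : ℝ) := by
  cases b <;> simp [sgr, sgi]

/-- facts about the numbers `W = M + 6 c`, `ρ = k W / c`, `k = D / (M + 6 D)` -/
lemma rho_bounds {M D c : ℝ} (hM : 0 < M) (hD : 0 < D) (hc : D ≤ c) :
    0 < M + 6 * c ∧ 0 ≤ D / (M + 6 * D) * (M + 6 * c) / c ∧
      D / (M + 6 * D) * (M + 6 * c) / c ≤ 1 := by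
  have hc0 : 0 < c := by linarith
  have hW : 0 < M + 6 * c := by linarith
  have hW' : 0 < M + 6 * D := by linarith
  refine ⟨hW, by positivity, ?_⟩
  rw [div_le_one hc0, div_mul_eq_mul_div, div_le_iff₀ hW']
  nlinarith

/-- the value of `A - e B` -/
lemma AeB {W ρ x c e : ℝ} (he : e = 1 ∨ e = -1) :
    ρ * (cl W (x - c) + cl W (x + c)) / 2 - e * (ρ * (cl W (x + c) - cl W (x - c)) / 2) =
      ρ * cl W (x - e * c) := by
  rcases he with h | h
  · rw [h, one_mul, one_mul]; ring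
  · rw [h, neg_one_mul, neg_one_mul, sub_neg_eq_add, sub_neg_eq_add]; ring

lemma prod_ge {a b B k : ℝ} (ha : |a| ≤ 1) (hb : |b| ≤ 1) (hB : 0 ≤ B) (hBk : B ≤ k) :
    B - k * (|a| + |b|) ≤ (1 - a) * (1 - b) * B := by
  have h1 := le_abs_self a
  have h2 := le_abs_self b
  have h3 := abs_nonneg a
  have h4 := abs_nonneg b
  have h5 : (1 - |a|) * (1 - |b|) ≤ (1 - a) * (1 - b) :=
    mul_le_mul (by linarith) (by linarith) (by linarith) (by linarith)
  have h6 : 1 - (|a| + |b|) ≤ (1 - |a|) * (1 - |b|) := by nlinarith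
  have h7 : (1 - (|a| + |b|)) * B ≤ (1 - a) * (1 - b) * B :=
    mul_le_mul_of_nonneg_right (h6.trans h5) hB
  have h8 : (|a| + |b|) * B ≤ (|a| + |b|) * k :=
    mul_le_mul_of_nonneg_left hBk (by linarith)
  nlinarith

end Key7

open Key7 in
theorem key_7 : StKey := by
  classical
  intro K M D lam E G g t c w hD hM hlam hS p q hp hq
  obtain ⟨m1, m2, m3, m4, m5, m6, m7, m8, -⟩ := meas_7 K M D lam E G g t c w hS p q hp hq
  set S := Sm M E with hSdef
  have hMr : (0 : ℝ) < M := by exact_mod_cast hM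
  have hDr : (0 : ℝ) < (D : ℝ) := by exact_mod_cast hD
  set k : ℝ := (D / (M + 6 * D) : ℝ) with hk
  have hk0 : 0 ≤ k := by positivity
  have hk1 : k ≤ 1 := by
    rw [hk, div_le_one (by positivity)]
    linarith
  -- the functions
  set cc : Om K M → ℝ := fun ω => |(c p q ω.1 ω.2.1 : ℝ)| with hcc
  set W : Om K M → ℝ := fun ω => M + 6 * cc ω with hW
  set ρ : Om K M → ℝ := fun ω => k * W ω / cc ω with hρ
  set lP : Om K M → ℝ := fun ω => (mo M E g p q (labP g p q ω) : ℝ) * M with hlP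
  set lT : Om K M → ℝ := fun ω => (mo M E g p q (labT G t p q ω) : ℝ) * M with hlT
  set F : Om K M → ℝ := fun ω => if w p q ω.1 ω.2.1 then
    ρ ω * cl (W ω) ((Ob g p ω (p + q) : ℝ) - lP ω + 3 * cc ω) else 0 with hF
  set x : Om K M → ℝ := fun ω => (Tt G t p q q ω : ℝ) - lT ω + 3 * cc ω with hx
  set A : Om K M → ℝ := fun ω => if w p q ω.1 ω.2.1 then
    ρ ω * (cl (W ω) (x ω - cc ω) + cl (W ω) (x ω + cc ω)) / 2 else 0 with hA
  set B : Om K M → ℝ := fun ω => if w p q ω.1 ω.2.1 then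
    ρ ω * (cl (W ω) (x ω + cc ω) - cl (W ω) (x ω - cc ω)) / 2 else 0 with hB
  set u : Om K M → ℝ := fun ω => if w p q ω.1 ω.2.1 ∧ (c p q ω.1 ω.2.1) < 0 then -1 else 1
    with hu
  set η : Om K M → ℝ := fun ω => sgr (bit ω.1 p) with hη
  set ζ : Om K M → ℝ := fun ω => sgr (bit ω.2.1 q) with hζ
  -- measurability
  have hRζ : Mb S (labR (K := K) (M := M) p) ζ := by
    intro ω _ ω' _ h
    obtain ⟨h1, -, -⟩ := Meas7.labR_eq h
    simp only [hζ, h1]
  have hCη : Mb S (labC (K := K) (M := M) G q) η := by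
    intro ω _ ω' _ h
    obtain ⟨h1, -, -⟩ := Meas7.labC_eq h
    simp only [hη, h1]
  have hRu : Mb S (labR (K := K) (M := M) p) u := by
    intro ω h1 ω' h2 h
    simp only [hu]
    have e1 := m5 ω h1 ω' h2 h
    have e2 := m6 ω h1 ω' h2 h
    simp only at e1 e2
    rw [e1, e2]
  have hCu : Mb S (labC (K := K) (M := M) G q) u := by
    intro ω h1 ω' h2 h
    simp only [hu]
    have e1 := m7 ω h1 ω' h2 h
    have e2 := m8 ω h1 ω' h2 h
    simp only at e1 e2
    rw [e1, e2]
  have hRF : Mb S (labR (K := K) (M := M) p) F := by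
    intro ω h1 ω' h2 h
    have e1 := m5 ω h1 ω' h2 h
    have e2 := m6 ω h1 ω' h2 h
    have e3 := m3 ω h1 ω' h2 h
    have e4 := m1 ω h1 ω' h2 h
    simp only at e1 e2 e3
    simp only [hF, hρ, hW, hcc, hlP]
    rw [e1, e2, e3, e4]
  have hCA : Mb S (labC (K := K) (M := M) G q) A := by
    intro ω h1 ω' h2 h
    have e1 := m7 ω h1 ω' h2 h
    have e2 := m8 ω h1 ω' h2 h
    have e3 := m4 ω h1 ω' h2 h
    have e4 := m2 ω h1 ω' h2 h
    simp only at e1 e2
    simp only [hA, hρ, hW, hcc, hx, hlT]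
    rw [e1, e2, e3, e4]
  -- pointwise facts
  have hc : ∀ ω : Om K M, w p q ω.1 ω.2.1 → (D : ℝ) ≤ cc ω := by
    intro ω hw
    have := hS.c_ge p q _ _ hw
    simp only [hcc]
    exact_mod_cast this
  have hu2 : ∀ ω : Om K M, u ω = 1 ∨ u ω = -1 := by
    intro ω
    simp only [hu]
    split_ifs
    · exact Or.inr rfl
    · exact Or.inl rfl
  have huc : ∀ ω : Om K M, w p q ω.1 ω.2.1 → u ω * cc ω = (c p q ω.1 ω.2.1 : ℝ) := by
    intro ω hw
    simp only [hu, hcc]
    by_cases h : c p q ω.1 ω.2.1 < 0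
    · rw [if_pos ⟨hw, h⟩, abs_of_neg (by exact_mod_cast h)]; ring
    · rw [if_neg (fun h' => h h'.2), abs_of_nonneg (by exact_mod_cast not_lt.1 h), one_mul]
  have hηp : ∀ ω : Om K M, η ω = 1 ∨ η ω = -1 := fun ω => sgr_cases _
  have hζp : ∀ ω : Om K M, ζ ω = 1 ∨ ζ ω = -1 := fun ω => sgr_cases _
  have he : ∀ ω : Om K M, η ω * ζ ω * u ω = 1 ∨ η ω * ζ ω * u ω = -1 := by
    intro ω
    rcases hηp ω with h1 | h1 <;> rcases hζp ω with h2 | h2 <;> rcases hu2 ω with h3 | h3 <;>
      rw [h1, h2, h3] <;> norm_num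
  have hmain : ∀ ω : Om K M, w p q ω.1 ω.2.1 →
      |(Tt G t p q q ω : ℝ) - (Ob g p ω (p + q) : ℝ) - η ω * ζ ω * u ω * cc ω| ≤ (lam 0 : ℝ) := by
    intro ω hw
    have h1 := hS.main p q hp hq _ _ hw
    have h2 : (Tt G t p q q ω : ℝ) - (Ob g p ω (p + q) : ℝ) - η ω * ζ ω * u ω * cc ω =
        ((G (p + q) ω.1 ω.2.1 - g p (p + q) ω.1 ω.2.1 - t p q q ω.1 ω.2.1 -
          sgi (bit ω.1 p) * sgi (bit ω.2.1 q) * c p q ω.1 ω.2.1 : ℤ) : ℝ) := by
      rw [mul_assoc, huc ω hw]
      simp only [Tt, Ob, Gam, hη, hζ, sgr_cast]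
      push_cast
      ring
    rw [h2]
    exact_mod_cast h1
  have hFb : ∀ ω : Om K M, 0 ≤ F ω ∧ F ω ≤ 1 := by
    intro ω
    simp only [hF]
    split_ifs with hw
    · obtain ⟨h1, h2, h3⟩ := rho_bounds hMr hDr (hc ω hw)
      have h4 := cl_nonneg (W ω) ((Ob g p ω (p + q) : ℝ) - lP ω + 3 * cc ω)
      have h5 := cl_le_one (W ω) ((Ob g p ω (p + q) : ℝ) - lP ω + 3 * cc ω)
      exact ⟨mul_nonneg h2 h4, mul_le_one₀ h3 h4 h5⟩
    · exact ⟨le_rfl, zero_le_one⟩
  have hAb : ∀ ω : Om K M, 0 ≤ A ω ∧ A ω ≤ 1 := by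
    intro ω
    simp only [hA]
    split_ifs with hw
    · obtain ⟨h1, h2, h3⟩ := rho_bounds hMr hDr (hc ω hw)
      have h4 := cl_nonneg (W ω) (x ω - cc ω)
      have h5 := cl_le_one (W ω) (x ω - cc ω)
      have h6 := cl_nonneg (W ω) (x ω + cc ω)
      have h7 := cl_le_one (W ω) (x ω + cc ω)
      have h8 : ρ ω * ((cl (W ω) (x ω - cc ω) + cl (W ω) (x ω + cc ω)) / 2) ≤ 1 :=
        mul_le_one₀ h3 (by linarith) (by linarith)
      have h9 : 0 ≤ ρ ω * ((cl (W ω) (x ω - cc ω) + cl (W ω) (x ω + cc ω)) / 2) :=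
        mul_nonneg h2 (by linarith)
      rw [mul_div_assoc]
      exact ⟨h9, h8⟩
    · exact ⟨le_rfl, zero_le_one⟩
  have hBb : ∀ ω : Om K M, 0 ≤ B ω ∧ B ω ≤ k := by
    intro ω
    simp only [hB]
    split_ifs with hw
    · obtain ⟨h1, h2, h3⟩ := rho_bounds hMr hDr (hc ω hw)
      have hcpos : 0 < cc ω := lt_of_lt_of_le hDr (hc ω hw)
      have h4 : cl (W ω) (x ω - cc ω) ≤ cl (W ω) (x ω + cc ω) := cl_mono h1 (by linarith)
      have h5 := cl_lip (W := W ω) (x := x ω + cc ω) (y := x ω - cc ω) h1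
      rw [show x ω + cc ω - (x ω - cc ω) = 2 * cc ω by ring, abs_of_pos (by linarith : 0 < 2 * cc ω)]
        at h5
      have h6 := (le_abs_self _).trans h5
      have h7 : ρ ω * (2 * cc ω / W ω) = 2 * k := by
        have hWne : W ω ≠ 0 := h1.ne'
        simp only [hρ]
        field_simp
      constructor
      · have := mul_nonneg h2 (sub_nonneg.2 h4)
        linarith
      · have := mul_le_mul_of_nonneg_left h6 h2
        linarith
    · exact ⟨le_rfl, hk0⟩
  have hAeB : ∀ ω : Om K M, A ω - η ω * ζ ω * u ω * B ω =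
      if w p q ω.1 ω.2.1 then ρ ω * cl (W ω) (x ω - η ω * ζ ω * u ω * cc ω) else 0 := by
    intro ω
    simp only [hA, hB]
    split_ifs with hw
    · exact AeB (he ω)
    · ring
  -- the error term
  have herr : ∀ ω : Om K M, |F ω - A ω + η ω * ζ ω * u ω * B ω| ≤
      k * (lam 0 / D : ℝ) + (if labP g p q ω ≠ labT G t p q ω then 1 else 0) := by
    intro ω
    have hl0 : (0 : ℝ) ≤ lam 0 := by exact_mod_cast hS.lam_nonneg 0
    have hl1 : 0 ≤ k * (lam 0 / D : ℝ) := by positivity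
    rw [show F ω - A ω + η ω * ζ ω * u ω * B ω = F ω - (A ω - η ω * ζ ω * u ω * B ω) by ring,
      hAeB ω]
    by_cases hw : w p q ω.1 ω.2.1
    · obtain ⟨h1, h2, h3⟩ := rho_bounds hMr hDr (hc ω hw)
      have hcpos : 0 < cc ω := lt_of_lt_of_le hDr (hc ω hw)
      rw [if_pos hw]
      by_cases hl : labP g p q ω = labT G t p q ω
      · rw [if_neg (not_not.2 hl), add_zero]
        simp only [hF, if_pos hw]
        rw [← mul_sub, abs_mul, abs_of_nonneg h2]
        have h4 := cl_lip (W := W ω) (x := (Ob g p ω (p + q) : ℝ) - lP ω + 3 * cc ω)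
          (y := x ω - η ω * ζ ω * u ω * cc ω) h1
        have h5 : |(Ob g p ω (p + q) : ℝ) - lP ω + 3 * cc ω - (x ω - η ω * ζ ω * u ω * cc ω)| ≤
            (lam 0 : ℝ) := by
          have h6 := hmain ω hw
          rw [← abs_neg] at h6
          refine le_trans (le_of_eq ?_) h6
          simp only [hx, hlP, hlT, hl]
          congr 1
          ring
        have h7 : |(Ob g p ω (p + q) : ℝ) - lP ω + 3 * cc ω - (x ω - η ω * ζ ω * u ω * cc ω)| / W ω ≤
            (lam 0 : ℝ) / W ω := div_le_div_of_nonneg_right h5 h1.le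
        calc ρ ω * |cl (W ω) ((Ob g p ω (p + q) : ℝ) - lP ω + 3 * cc ω) -
              cl (W ω) (x ω - η ω * ζ ω * u ω * cc ω)|
            ≤ ρ ω * ((lam 0 : ℝ) / W ω) := mul_le_mul_of_nonneg_left (h4.trans h7) h2
          _ = k * ((lam 0 : ℝ) / cc ω) := by
              have hWne : W ω ≠ 0 := h1.ne'
              simp only [hρ]
              field_simp
          _ ≤ k * (lam 0 / D : ℝ) :=
              mul_le_mul_of_nonneg_left (div_le_div_of_nonneg_left hl0 hDr (hc ω hw)) hk0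
      · rw [if_pos hl]
        have h4 := cl_nonneg (W ω) (x ω - η ω * ζ ω * u ω * cc ω)
        have h5 := cl_le_one (W ω) (x ω - η ω * ζ ω * u ω * cc ω)
        have h6 : 0 ≤ ρ ω * cl (W ω) (x ω - η ω * ζ ω * u ω * cc ω) := mul_nonneg h2 h4
        have h7 : ρ ω * cl (W ω) (x ω - η ω * ζ ω * u ω * cc ω) ≤ 1 := mul_le_one₀ h3 h4 h5
        have h8 := hFb ω
        rw [abs_le]
        constructor <;> linarith [h8.1, h8.2]
    · rw [if_neg hw]
      have h8 : F ω = 0 := by simp only [hF, if_neg hw]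
      rw [h8, sub_zero, abs_zero]
      refine add_nonneg hl1 ?_
      split_ifs <;> norm_num
  -- the lower bound for B
  have hBlow : ∀ ω : Om K M, k * (if w p q ω.1 ω.2.1 ∧
      Ob g p ω (p + q) / (M : ℤ) = mo M E g p q (labP g p q ω) then 1 else 0) ≤
      B ω + (if labP g p q ω ≠ labT G t p q ω then 1 else 0) := by
    intro ω
    by_cases hl : labP g p q ω = labT G t p q ω
    · rw [if_neg (not_not.2 hl), add_zero]
      by_cases hw : w p q ω.1 ω.2.1 ∧ Ob g p ω (p + q) / (M : ℤ) = mo M E g p q (labP g p q ω)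
      · rw [if_pos hw, mul_one]
        obtain ⟨h1, h2, h3⟩ := rho_bounds hMr hDr (hc ω hw.1)
        have hcpos : 0 < cc ω := lt_of_lt_of_le hDr (hc ω hw.1)
        have hMz : (0 : ℤ) < M := by exact_mod_cast hM
        have h4 : lT ω ≤ (Ob g p ω (p + q) : ℝ) := by
          simp only [hlT, ← hl, ← hw.2]
          have := Int.ediv_mul_le (Ob g p ω (p + q)) hMz.ne'
          exact_mod_cast this
        have h5 : (Ob g p ω (p + q) : ℝ) ≤ lT ω + M := by
          simp only [hlT, ← hl, ← hw.2]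
          have h6 := Int.lt_ediv_add_one_mul_self (Ob g p ω (p + q)) hMz
          have h7 : Ob g p ω (p + q) ≤ Ob g p ω (p + q) / (M : ℤ) * M + M := by
            nlinarith
          exact_mod_cast h7
        have h6 := hmain ω hw.1
        have hlam' : (lam 0 : ℝ) ≤ cc ω := le_trans (by exact_mod_cast hlam) (hc ω hw.1)
        have h7 : |η ω * ζ ω * u ω * cc ω| ≤ cc ω := by
          rcases he ω with h | h <;> rw [h]
          · rw [one_mul, abs_of_pos hcpos]
          · rw [neg_one_mul, abs_neg, abs_of_pos hcpos]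
        have h8 : |(Tt G t p q q ω : ℝ) - (Ob g p ω (p + q) : ℝ)| ≤ 2 * cc ω := by
          calc |(Tt G t p q q ω : ℝ) - (Ob g p ω (p + q) : ℝ)|
              = |((Tt G t p q q ω : ℝ) - (Ob g p ω (p + q) : ℝ) - η ω * ζ ω * u ω * cc ω) +
                  η ω * ζ ω * u ω * cc ω| := by congr 1; ring
            _ ≤ _ := abs_add_le _ _
            _ ≤ 2 * cc ω := by linarith
        rw [abs_le] at h8
        have h9 : 0 ≤ x ω - cc ω := by simp only [hx]; linarith [h8.1, h8.2]
        have h10 : x ω + cc ω ≤ W ω := by simp only [hx, hW]; linarith [h8.1, h8.2]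
        simp only [hB, if_pos hw.1]
        rw [cl_eq h1 (by linarith) h10, cl_eq h1 h9 (by linarith)]
        have hWne : W ω ≠ 0 := h1.ne'
        simp only [hρ]
        refine le_of_eq ?_
        field_simp
        ring
      · rw [if_neg hw, mul_zero]
        exact (hBb ω).1
    · rw [if_pos hl]
      have h1 := (hBb ω).1
      split_ifs
      · linarith
      · linarith
  -- assembly
  have hstar := star_err33 S (labR (K := K) (M := M) p) (labC (K := K) (M := M) G q) η ζ u F A B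
    (fun ω _ => hηp ω) (fun ω _ => hζp ω)
    (fun ω _ => by rcases hu2 ω with h | h <;> rw [h] <;> norm_num) hRζ hCη hRu hCu hRF hCA
  have hal : ∀ ω ∈ S, |alp M E p ω| ≤ 1 := fun ω hω =>
    CE33_abs S (labR p) η (fun s _ => by rcases hηp s with h | h <;> rw [h] <;> norm_num) ω hω
  have hbe : ∀ ω ∈ S, |bet M E G q ω| ≤ 1 := fun ω hω =>
    CE33_abs S (labC G q) ζ (fun s _ => by rcases hζp s with h | h <;> rw [h] <;> norm_num) ω hω
  refine ⟨fun ω => u ω * F ω, fun ω => u ω * A ω, ?_, ?_, ?_, ?_, ?_⟩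
  · intro ω h1 ω' h2 h
    dsimp only
    rw [hRu ω h1 ω' h2 h, hRF ω h1 ω' h2 h]
  · intro ω h1 ω' h2 h
    dsimp only
    rw [hCu ω h1 ω' h2 h, hCA ω h1 ω' h2 h]
  · intro ω _
    have h1 := hFb ω
    rcases hu2 ω with h | h <;> dsimp only <;> rw [h, abs_le] <;> constructor <;>
      linarith [h1.1, h1.2]
  · intro ω _
    have h1 := hAb ω
    rcases hu2 ω with h | h <;> dsimp only <;> rw [h, abs_le] <;> constructor <;>
      linarith [h1.1, h1.2]
  · set X1 := ∑ ω ∈ S, bet M E G q ω * ((sgr (bit ω.1 p) - alp M E p ω) * (u ω * F ω)) with hX1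
    set X2 := ∑ ω ∈ S, alp M E p ω * ((sgr (bit ω.2.1 q) - bet M E G q ω) * (u ω * A ω)) with hX2
    have hZ : ∑ ω ∈ S, (if labP g p q ω ≠ labT G t p q ω then (1 : ℝ) else 0) =
        ((S.filter (fun ω => labP g p q ω ≠ labT G t p q ω)).card : ℝ) := by
      rw [← sum_filter, sum_const, nsmul_eq_mul, mul_one]
    have h1 : ∑ ω ∈ S, (1 - alp M E p ω * η ω) * (1 - bet M E G q ω * ζ ω) * B ω ≤
        |X1| + |X2| + 4 * (k * (lam 0 / D : ℝ) * S.card +
          (S.filter (fun ω => labP g p q ω ≠ labT G t p q ω)).card) := by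
      have h2 : ∑ ω ∈ S, (1 - alp M E p ω * η ω) * (1 - bet M E G q ω * ζ ω) * B ω =
          X1 - X2 + ∑ ω ∈ S, (η ω - alp M E p ω) * (ζ ω - bet M E G q ω) * u ω *
            (F ω - A ω + η ω * ζ ω * u ω * B ω) := hstar
      have h3 : ∑ ω ∈ S, (η ω - alp M E p ω) * (ζ ω - bet M E G q ω) * u ω *
            (F ω - A ω + η ω * ζ ω * u ω * B ω) ≤ ∑ ω ∈ S, 4 * (k * (lam 0 / D : ℝ) +
              (if labP g p q ω ≠ labT G t p q ω then 1 else 0)) := by
        refine sum_le_sum fun ω hω => ?_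
        refine (le_abs_self _).trans ?_
        rw [abs_mul]
        refine mul_le_mul ?_ (herr ω) (abs_nonneg _) (by norm_num)
        rw [abs_mul, abs_mul]
        have h4 : |η ω - alp M E p ω| ≤ 2 := by
          have := hal ω hω
          rw [abs_le] at this ⊢
          rcases hηp ω with h | h <;> rw [h] <;> constructor <;> linarith [this.1, this.2]
        have h5 : |ζ ω - bet M E G q ω| ≤ 2 := by
          have := hbe ω hω
          rw [abs_le] at this ⊢
          rcases hζp ω with h | h <;> rw [h] <;> constructor <;> linarith [this.1, this.2]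
        have h6 : |u ω| = 1 := by rcases hu2 ω with h | h <;> rw [h] <;> norm_num
        rw [h6, mul_one]
        calc |η ω - alp M E p ω| * |ζ ω - bet M E G q ω| ≤ 2 * 2 :=
              mul_le_mul h4 h5 (abs_nonneg _) (by norm_num)
          _ = 4 := by norm_num
      rw [← mul_sum, sum_add_distrib, hZ, sum_const, nsmul_eq_mul] at h3
      rw [h2]
      have h7 := le_abs_self X1
      have h8 := neg_abs_le X2
      linarith
    have h2 : ∑ ω ∈ S, B ω - k * ∑ ω ∈ S, (|alp M E p ω| + |bet M E G q ω|) ≤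
        ∑ ω ∈ S, (1 - alp M E p ω * η ω) * (1 - bet M E G q ω * ζ ω) * B ω := by
      rw [mul_sum, ← sum_sub_distrib]
      refine sum_le_sum fun ω hω => ?_
      have h3 : |alp M E p ω * η ω| = |alp M E p ω| := by
        rw [abs_mul]
        rcases hηp ω with h | h <;> rw [h] <;> norm_num
      have h4 : |bet M E G q ω * ζ ω| = |bet M E G q ω| := by
        rw [abs_mul]
        rcases hζp ω with h | h <;> rw [h] <;> norm_num
      have h5 := prod_ge (a := alp M E p ω * η ω) (b := bet M E G q ω * ζ ω) (B := B ω) (k := k)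
        (by rw [h3]; exact hal ω hω) (by rw [h4]; exact hbe ω hω) (hBb ω).1 (hBb ω).2
      rw [h3, h4] at h5
      exact h5
    have h3 : k * ((S.filter (fun ω => w p q ω.1 ω.2.1 ∧
        Ob g p ω (p + q) / (M : ℤ) = mo M E g p q (labP g p q ω))).card : ℝ) ≤
        ∑ ω ∈ S, B ω + (S.filter (fun ω => labP g p q ω ≠ labT G t p q ω)).card := by
      rw [← hZ, ← sum_add_distrib]
      have h4 : ((S.filter (fun ω => w p q ω.1 ω.2.1 ∧
        Ob g p ω (p + q) / (M : ℤ) = mo M E g p q (labP g p q ω))).card : ℝ) =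
          ∑ ω ∈ S, (if w p q ω.1 ω.2.1 ∧
        Ob g p ω (p + q) / (M : ℤ) = mo M E g p q (labP g p q ω) then (1 : ℝ) else 0) := by
        rw [← sum_filter, sum_const, nsmul_eq_mul, mul_one]
      rw [h4, mul_sum]
      exact sum_le_sum fun ω _ => hBlow ω
    have e1 : 4 * k * (lam 0 / D : ℝ) * (S.card : ℝ) = 4 * (k * (lam 0 / D : ℝ) * S.card) := by ring
    rw [e1]
    linarith

end Pool.Agent.SB3
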