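import Pool.Agent.Lib.SB3.SetW74
import Pool.Agent.Lib.SB3.Key7

/-! SB3, leak version, module KEYW (helper42): the main inequality for one pair. -/

set_option autoImplicit false

namespace Pool.Agent.SB3.W

open Finset Pool.Agent.SB3

namespace KeyW42

open Classical in
lemma i1_pos {p : Prop} (h : p) : i1 p = 1 := by unfold i1; rw [if_pos h]

open Classical in
lemma i1_neg {p : Prop} (h : ¬ p) : i1 p = 0 := by unfold i1; rw [if_neg h]

lemma i1_nonneg (p : Prop) : 0 ≤ i1 p := by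
  by_cases h : p
  · rw [i1_pos h]; exact zero_le_one
  · rw [i1_neg h]

lemma ms_eq {K : ℕ} (T : ℕ) (φ : ℤ → ℝ) (ρ : Y K → Y K → ℝ) (W : OmW K → Prop) :
    ms T φ ρ W = ∑ ω ∈ SW K T, PW φ ρ ω * i1 (W ω) := by
  classical
  unfold ms
  rw [sum_filter]
  refine sum_congr rfl fun ω _ => ?_
  by_cases h : W ω
  · rw [if_pos h, i1_pos h, mul_one]
  · rw [if_neg h, i1_neg h, mul_zero]

lemma labR_eq {K : ℕ} {p : ℕ} {ω ω' : OmW K} (h : labR p ω = labR p ω') :
    ω.2.1 = ω'.2.1 ∧ ω.2.2 = ω'.2.2 ∧ pre p ω.1 = pre p ω'.1 := by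
  unfold labR at h
  simp only [Prod.mk.injEq] at h
  exact ⟨h.1.1, h.1.2, h.2⟩

lemma labC_eq {K : ℕ} {G : ℕ → Y K → Y K → ℤ} {q : ℕ} {ω ω' : OmW K}
    (h : labC G q ω = labC G q ω') :
    ω.1 = ω'.1 ∧ (∀ j < 2 * K, GamW G ω j = GamW G ω' j) ∧ pre q ω.2.1 = pre q ω'.2.1 := by
  unfold labC at h
  simp only [Prod.mk.injEq] at h
  refine ⟨h.1.1, fun j hj => ?_, h.2⟩
  exact congrFun h.1.2 ⟨j, hj⟩

/-- the identity with an error term -/
lemma star_err {α κ κ' : Type} {P : α → ℝ} {S : Finset α} (hP : ∀ s ∈ S, 0 < P s)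
    (R : α → κ) (C : α → κ') (η ζ u F A B : α → ℝ)
    (hη : ∀ s ∈ S, η s = 1 ∨ η s = -1) (hζ : ∀ s ∈ S, ζ s = 1 ∨ ζ s = -1)
    (hRζ : Mb S R ζ) (hCη : Mb S C η) (hRu : Mb S R u) (hCu : Mb S C u)
    (hRF : Mb S R F) (hCA : Mb S C A) :
    ∑ s ∈ S, P s * ((1 - cavw P S R η s * η s) * (1 - cavw P S C ζ s * ζ s) * (u s ^ 2 * B s)) =
      ∑ s ∈ S, P s * (cavw P S C ζ s * ((η s - cavw P S R η s) * (u s * F s))) -
      ∑ s ∈ S, P s * (cavw P S R η s * ((ζ s - cavw P S C ζ s) * (u s * A s))) +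
      ∑ s ∈ S, P s * ((η s - cavw P S R η s) * (ζ s - cavw P S C ζ s) * u s *
        (F s - A s + η s * ζ s * u s * B s)) := by
  set a := cavw P S R η with ha
  set b := cavw P S C ζ with hb
  have h1 : ∑ s ∈ S, P s * ((ζ s * u s * F s) * (η s - a s)) = 0 := by
    apply orth74 hP R η (fun s => ζ s * u s * F s)
    intro s hs s' hs' e
    dsimp only
    rw [hRζ s hs s' hs' e, hRu s hs s' hs' e, hRF s hs s' hs' e]
  have h2 : ∑ s ∈ S, P s * ((η s * u s * A s) * (ζ s - b s)) = 0 := by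
    apply orth74 hP C ζ (fun s => η s * u s * A s)
    intro s hs s' hs' e
    dsimp only
    rw [hCη s hs s' hs' e, hCu s hs s' hs' e, hCA s hs s' hs' e]
  have key : ∑ s ∈ S, (P s * ((1 - a s * η s) * (1 - b s * ζ s) * (u s ^ 2 * B s)) -
      P s * (b s * ((η s - a s) * (u s * F s))) + P s * (a s * ((ζ s - b s) * (u s * A s))) -
      P s * ((η s - a s) * (ζ s - b s) * u s * (F s - A s + η s * ζ s * u s * B s))) =
      ∑ s ∈ S, (P s * ((η s * u s * A s) * (ζ s - b s)) -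
        P s * ((ζ s * u s * F s) * (η s - a s))) := by
    apply sum_congr rfl
    intro s hs
    rcases hη s hs with h | h <;> rcases hζ s hs with h' | h' <;> rw [h, h'] <;> ring
  rw [sum_sub_distrib, sum_sub_distrib, h1, h2, sub_zero, sum_add_distrib, sum_sub_distrib] at key
  linarith

end KeyW42

open Key7 KeyW42 in
/-- KEYW -/
theorem keyw_42 (hMeas : StMeasW) : StKeyW := by
  classical
  intro K M T D φ ρ G g t c w hD hM hP hS hcD p q hp hq
  obtain ⟨m1, m2, m3, m4, m5, m6, m7, m8, -⟩ := hMeas K M T G g t c w hS p q hp hq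
  set S := SW K T with hSdef
  set P : OmW K → ℝ := PW φ ρ with hPdef
  have hMr : (0 : ℝ) < M := by exact_mod_cast hM
  have hDr : (0 : ℝ) < (D : ℝ) := by exact_mod_cast hD
  set k : ℝ := (D / (M + 6 * D) : ℝ) with hk
  have hk0 : 0 ≤ k := by positivity
  have hk1 : k ≤ 1 := by
    rw [hk, div_le_one (by positivity)]
    linarith
  -- the functions
  set cc : OmW K → ℝ := fun ω => |(c p q ω.1 ω.2.1 : ℝ)| with hcc
  set W : OmW K → ℝ := fun ω => M + 6 * cc ω with hW
  set r : OmW K → ℝ := fun ω => k * W ω / cc ω with hr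
  set lP : OmW K → ℝ := fun ω => (mo M T φ ρ g w p q (labP M g w p q ω) : ℝ) * M with hlP
  set lT : OmW K → ℝ := fun ω => (mo M T φ ρ g w p q (labT M G t w p q ω) : ℝ) * M with hlT
  set F : OmW K → ℝ := fun ω => if w p q ω.1 ω.2.1 then
    r ω * cl (W ω) ((ObW g p ω (p + q) : ℝ) - lP ω + 3 * cc ω) else 0 with hF
  set x : OmW K → ℝ := fun ω => (TtW G t p q q ω : ℝ) - lT ω + 3 * cc ω with hx
  set A : OmW K → ℝ := fun ω => if w p q ω.1 ω.2.1 then
    r ω * (cl (W ω) (x ω - cc ω) + cl (W ω) (x ω + cc ω)) / 2 else 0 with hA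
  set B : OmW K → ℝ := fun ω => if w p q ω.1 ω.2.1 then
    r ω * (cl (W ω) (x ω + cc ω) - cl (W ω) (x ω - cc ω)) / 2 else 0 with hB
  set u : OmW K → ℝ := fun ω => if w p q ω.1 ω.2.1 then
    (if (c p q ω.1 ω.2.1) < 0 then -1 else 1) else 0 with hu
  set η : OmW K → ℝ := fun ω => sgr (bit ω.1 p) with hη
  set ζ : OmW K → ℝ := fun ω => sgr (bit ω.2.1 q) with hζ
  -- measurability
  have hRζ : Mb S (labR (K := K) p) ζ := by
    intro ω _ ω' _ h
    obtain ⟨h1, -, -⟩ := KeyW42.labR_eq h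
    simp only [hζ, h1]
  have hCη : Mb S (labC (K := K) G q) η := by
    intro ω _ ω' _ h
    obtain ⟨h1, -, -⟩ := KeyW42.labC_eq h
    simp only [hη, h1]
  have hRu : Mb S (labR (K := K) p) u := by
    intro ω h1 ω' h2 h
    simp only [hu]
    have e1 := m5 ω h1 ω' h2 h
    have e2 := m6 ω h1 ω' h2 h
    simp only at e1 e2
    rw [e1, e2]
  have hCu : Mb S (labC (K := K) G q) u := by
    intro ω h1 ω' h2 h
    simp only [hu]
    have e1 := m7 ω h1 ω' h2 h
    have e2 := m8 ω h1 ω' h2 h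
    simp only at e1 e2
    rw [e1, e2]
  have hRF : Mb S (labR (K := K) p) F := by
    intro ω h1 ω' h2 h
    have e1 := m5 ω h1 ω' h2 h
    have e2 := m6 ω h1 ω' h2 h
    have e3 := m3 ω h1 ω' h2 h
    have e4 := m1 ω h1 ω' h2 h
    simp only at e1 e2 e3
    simp only [hF, hr, hW, hcc, hlP]
    rw [e1, e2, e3, e4]
  have hCA : Mb S (labC (K := K) G q) A := by
    intro ω h1 ω' h2 h
    have e1 := m7 ω h1 ω' h2 h
    have e2 := m8 ω h1 ω' h2 h
    have e3 := m4 ω h1 ω' h2 h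
    have e4 := m2 ω h1 ω' h2 h
    simp only at e1 e2
    simp only [hA, hr, hW, hcc, hx, hlT]
    rw [e1, e2, e3, e4]
  -- pointwise facts
  have hc : ∀ ω : OmW K, w p q ω.1 ω.2.1 → (D : ℝ) ≤ cc ω := by
    intro ω hw
    have := hcD p q _ _ hw
    simp only [hcc]
    exact_mod_cast this
  have hu0 : ∀ ω : OmW K, ¬ w p q ω.1 ω.2.1 → u ω = 0 := by
    intro ω hw
    simp only [hu, if_neg hw]
  have hu2 : ∀ ω : OmW K, w p q ω.1 ω.2.1 → (u ω = 1 ∨ u ω = -1) := by
    intro ω hw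
    simp only [hu, if_pos hw]
    split_ifs
    · exact Or.inr rfl
    · exact Or.inl rfl
  have huc : ∀ ω : OmW K, w p q ω.1 ω.2.1 → u ω * cc ω = (c p q ω.1 ω.2.1 : ℝ) := by
    intro ω hw
    simp only [hu, hcc, if_pos hw]
    by_cases h : c p q ω.1 ω.2.1 < 0
    · rw [if_pos h, abs_of_neg (by exact_mod_cast h)]; ring
    · rw [if_neg h, abs_of_nonneg (by exact_mod_cast not_lt.1 h), one_mul]
  have hηp : ∀ ω : OmW K, η ω = 1 ∨ η ω = -1 := fun ω => sgr_cases _
  have hζp : ∀ ω : OmW K, ζ ω = 1 ∨ ζ ω = -1 := fun ω => sgr_cases _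
  have he : ∀ ω : OmW K, w p q ω.1 ω.2.1 →
      (η ω * ζ ω * u ω = 1 ∨ η ω * ζ ω * u ω = -1) := by
    intro ω hw
    rcases hηp ω with h1 | h1 <;> rcases hζp ω with h2 | h2 <;> rcases hu2 ω hw with h3 | h3 <;>
      rw [h1, h2, h3] <;> norm_num
  have hmain : ∀ ω : OmW K, w p q ω.1 ω.2.1 →
      |(TtW G t p q q ω : ℝ) - (ObW g p ω (p + q) : ℝ) - η ω * ζ ω * u ω * cc ω| =
        lk0 G g t c p q ω.1 ω.2.1 := by
    intro ω hw
    have h2 : (TtW G t p q q ω : ℝ) - (ObW g p ω (p + q) : ℝ) - η ω * ζ ω * u ω * cc ω =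
        ((G (p + q) ω.1 ω.2.1 - g p (p + q) ω.1 ω.2.1 - t p q q ω.1 ω.2.1 -
          sgi (bit ω.1 p) * sgi (bit ω.2.1 q) * c p q ω.1 ω.2.1 : ℤ) : ℝ) := by
      rw [mul_assoc, huc ω hw]
      simp only [TtW, ObW, GamW, hη, hζ, sgr_cast]
      push_cast
      ring
    rw [h2]
    rfl
  have hlk0 : ∀ ω : OmW K, 0 ≤ lk0 G g t c p q ω.1 ω.2.1 := fun ω => abs_nonneg _
  have hFb : ∀ ω : OmW K, 0 ≤ F ω ∧ F ω ≤ 1 := by
    intro ω
    simp only [hF]
    split_ifs with hw
    · obtain ⟨h1, h2, h3⟩ := rho_bounds hMr hDr (hc ω hw)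
      have h4 := cl_nonneg (W ω) ((ObW g p ω (p + q) : ℝ) - lP ω + 3 * cc ω)
      have h5 := cl_le_one (W ω) ((ObW g p ω (p + q) : ℝ) - lP ω + 3 * cc ω)
      exact ⟨mul_nonneg h2 h4, mul_le_one₀ h3 h4 h5⟩
    · exact ⟨le_rfl, zero_le_one⟩
  have hAb : ∀ ω : OmW K, 0 ≤ A ω ∧ A ω ≤ 1 := by
    intro ω
    simp only [hA]
    split_ifs with hw
    · obtain ⟨h1, h2, h3⟩ := rho_bounds hMr hDr (hc ω hw)
      have h4 := cl_nonneg (W ω) (x ω - cc ω)
      have h5 := cl_le_one (W ω) (x ω - cc ω)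
      have h6 := cl_nonneg (W ω) (x ω + cc ω)
      have h7 := cl_le_one (W ω) (x ω + cc ω)
      have h8 : r ω * ((cl (W ω) (x ω - cc ω) + cl (W ω) (x ω + cc ω)) / 2) ≤ 1 :=
        mul_le_one₀ h3 (by linarith) (by linarith)
      have h9 : 0 ≤ r ω * ((cl (W ω) (x ω - cc ω) + cl (W ω) (x ω + cc ω)) / 2) :=
        mul_nonneg h2 (by linarith)
      rw [mul_div_assoc]
      exact ⟨h9, h8⟩
    · exact ⟨le_rfl, zero_le_one⟩
  have hBb : ∀ ω : OmW K, 0 ≤ B ω ∧ B ω ≤ k := by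
    intro ω
    simp only [hB]
    split_ifs with hw
    · obtain ⟨h1, h2, h3⟩ := rho_bounds hMr hDr (hc ω hw)
      have hcpos : 0 < cc ω := lt_of_lt_of_le hDr (hc ω hw)
      have h4 : cl (W ω) (x ω - cc ω) ≤ cl (W ω) (x ω + cc ω) := cl_mono h1 (by linarith)
      have h5 := cl_lip (W := W ω) (x := x ω + cc ω) (y := x ω - cc ω) h1
      rw [show x ω + cc ω - (x ω - cc ω) = 2 * cc ω by ring, abs_of_pos (by linarith : 0 < 2 * cc ω)]
        at h5
      have h6 := (le_abs_self _).trans h5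
      have h7 : r ω * (2 * cc ω / W ω) = 2 * k := by
        have hWne : W ω ≠ 0 := h1.ne'
        simp only [hr]
        field_simp
      constructor
      · have := mul_nonneg h2 (sub_nonneg.2 h4)
        linarith
      · have := mul_le_mul_of_nonneg_left h6 h2
        linarith
    · exact ⟨le_rfl, hk0⟩
  have hAeB : ∀ ω : OmW K, w p q ω.1 ω.2.1 → A ω - η ω * ζ ω * u ω * B ω =
      r ω * cl (W ω) (x ω - η ω * ζ ω * u ω * cc ω) := by
    intro ω hw
    simp only [hA, hB, if_pos hw]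
    exact AeB (he ω hw)
  -- the error term
  have herr : ∀ ω : OmW K, |u ω| * |F ω - A ω + η ω * ζ ω * u ω * B ω| ≤
      k / D * (i1 (w p q ω.1 ω.2.1) * lk0 G g t c p q ω.1 ω.2.1) +
        i1 (w p q ω.1 ω.2.1 ∧ labP M g w p q ω ≠ labT M G t w p q ω) := by
    intro ω
    have hl1 : 0 ≤ k / D * lk0 G g t c p q ω.1 ω.2.1 := mul_nonneg (by positivity) (hlk0 ω)
    by_cases hw : w p q ω.1 ω.2.1
    · have hu1 : |u ω| = 1 := by
        rcases hu2 ω hw with h | h <;> rw [h] <;> norm_num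
      rw [hu1, one_mul, i1_pos hw, one_mul,
        show F ω - A ω + η ω * ζ ω * u ω * B ω = F ω - (A ω - η ω * ζ ω * u ω * B ω) by ring,
        hAeB ω hw]
      obtain ⟨h1, h2, h3⟩ := rho_bounds hMr hDr (hc ω hw)
      have hcpos : 0 < cc ω := lt_of_lt_of_le hDr (hc ω hw)
      by_cases hl : labP M g w p q ω = labT M G t w p q ω
      · rw [i1_neg (fun h => h.2 hl), add_zero]
        simp only [hF, if_pos hw]
        rw [← mul_sub, abs_mul, abs_of_nonneg h2]
        have h4 := cl_lip (W := W ω) (x := (ObW g p ω (p + q) : ℝ) - lP ω + 3 * cc ω)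
          (y := x ω - η ω * ζ ω * u ω * cc ω) h1
        have h5 : |(ObW g p ω (p + q) : ℝ) - lP ω + 3 * cc ω - (x ω - η ω * ζ ω * u ω * cc ω)| =
            lk0 G g t c p q ω.1 ω.2.1 := by
          rw [← hmain ω hw, ← abs_neg]
          simp only [hx, hlP, hlT, hl]
          congr 1
          ring
        rw [h5] at h4
        calc r ω * |cl (W ω) ((ObW g p ω (p + q) : ℝ) - lP ω + 3 * cc ω) -
              cl (W ω) (x ω - η ω * ζ ω * u ω * cc ω)|
            ≤ r ω * (lk0 G g t c p q ω.1 ω.2.1 / W ω) := mul_le_mul_of_nonneg_left h4 h2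
          _ = k * (lk0 G g t c p q ω.1 ω.2.1 / cc ω) := by
              have hWne : W ω ≠ 0 := h1.ne'
              simp only [hr]
              field_simp
          _ ≤ k * (lk0 G g t c p q ω.1 ω.2.1 / D) :=
              mul_le_mul_of_nonneg_left
                (div_le_div_of_nonneg_left (hlk0 ω) hDr (hc ω hw)) hk0
          _ = _ := by ring
      · rw [i1_pos ⟨hw, hl⟩]
        have h4 := cl_nonneg (W ω) (x ω - η ω * ζ ω * u ω * cc ω)
        have h5 := cl_le_one (W ω) (x ω - η ω * ζ ω * u ω * cc ω)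
        have h6 : 0 ≤ r ω * cl (W ω) (x ω - η ω * ζ ω * u ω * cc ω) := mul_nonneg h2 h4
        have h7 : r ω * cl (W ω) (x ω - η ω * ζ ω * u ω * cc ω) ≤ 1 := mul_le_one₀ h3 h4 h5
        have h8 := hFb ω
        rw [abs_le]
        constructor <;> linarith [h8.1, h8.2]
    · rw [hu0 ω hw, abs_zero, zero_mul, i1_neg hw, zero_mul, mul_zero, zero_add]
      exact i1_nonneg _
  -- the lower bound for B
  have hBlow : ∀ ω : OmW K, k * i1 (w p q ω.1 ω.2.1 ∧
      ObW g p ω (p + q) / (M : ℤ) = mo M T φ ρ g w p q (labP M g w p q ω)) ≤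
      u ω ^ 2 * B ω + k / D * (i1 (w p q ω.1 ω.2.1) * lk0 G g t c p q ω.1 ω.2.1) +
        i1 (w p q ω.1 ω.2.1 ∧ labP M g w p q ω ≠ labT M G t w p q ω) := by
    intro ω
    have hl1 : 0 ≤ k / D * lk0 G g t c p q ω.1 ω.2.1 := mul_nonneg (by positivity) (hlk0 ω)
    by_cases hw : w p q ω.1 ω.2.1
    · have hu1 : u ω ^ 2 = 1 := by
        rcases hu2 ω hw with h | h <;> rw [h] <;> norm_num
      rw [hu1, one_mul, i1_pos hw, one_mul]
      by_cases hl : labP M g w p q ω = labT M G t w p q ω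
      · have z0 : i1 (w p q ω.1 ω.2.1 ∧ labP M g w p q ω ≠ labT M G t w p q ω) = 0 :=
          i1_neg (fun h => h.2 hl)
        rw [z0, add_zero]
        by_cases ho : ObW g p ω (p + q) / (M : ℤ) = mo M T φ ρ g w p q (labP M g w p q ω)
        · rw [i1_pos ⟨hw, ho⟩, mul_one]
          rcases le_or_gt (lk0 G g t c p q ω.1 ω.2.1) D with hlD | hlD
          · obtain ⟨h1, h2, h3⟩ := rho_bounds hMr hDr (hc ω hw)
            have hcpos : 0 < cc ω := lt_of_lt_of_le hDr (hc ω hw)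
            have hMz : (0 : ℤ) < M := by exact_mod_cast hM
            have h4 : lT ω ≤ (ObW g p ω (p + q) : ℝ) := by
              simp only [hlT, ← hl, ← ho]
              have := Int.ediv_mul_le (ObW g p ω (p + q)) hMz.ne'
              exact_mod_cast this
            have h5 : (ObW g p ω (p + q) : ℝ) ≤ lT ω + M := by
              simp only [hlT, ← hl, ← ho]
              have h6 := Int.lt_ediv_add_one_mul_self (ObW g p ω (p + q)) hMz
              have h7 : ObW g p ω (p + q) ≤ ObW g p ω (p + q) / (M : ℤ) * M + M := by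
                nlinarith
              exact_mod_cast h7
            have h6 := hmain ω hw
            have hlam' : lk0 G g t c p q ω.1 ω.2.1 ≤ cc ω := hlD.trans (hc ω hw)
            have h7 : |η ω * ζ ω * u ω * cc ω| ≤ cc ω := by
              rcases he ω hw with h | h <;> rw [h]
              · rw [one_mul, abs_of_pos hcpos]
              · rw [neg_one_mul, abs_neg, abs_of_pos hcpos]
            have h8 : |(TtW G t p q q ω : ℝ) - (ObW g p ω (p + q) : ℝ)| ≤ 2 * cc ω := by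
              calc |(TtW G t p q q ω : ℝ) - (ObW g p ω (p + q) : ℝ)|
                  = |((TtW G t p q q ω : ℝ) - (ObW g p ω (p + q) : ℝ) -
                      η ω * ζ ω * u ω * cc ω) + η ω * ζ ω * u ω * cc ω| := by congr 1; ring
                _ ≤ _ := abs_add_le _ _
                _ ≤ 2 * cc ω := by rw [h6]; linarith
            rw [abs_le] at h8
            have h9 : 0 ≤ x ω - cc ω := by simp only [hx]; linarith [h8.1, h8.2]
            have h10 : x ω + cc ω ≤ W ω := by simp only [hx, hW]; linarith [h8.1, h8.2]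
            have h11 : k ≤ B ω := by
              simp only [hB, if_pos hw]
              rw [cl_eq h1 (by linarith) h10, cl_eq h1 h9 (by linarith)]
              have hWne : W ω ≠ 0 := h1.ne'
              simp only [hr]
              refine le_of_eq ?_
              field_simp
              ring
            linarith
          · have h1 : k ≤ k / D * lk0 G g t c p q ω.1 ω.2.1 := by
              rw [div_mul_eq_mul_div, le_div_iff₀ hDr]
              exact mul_le_mul_of_nonneg_left hlD.le hk0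
            have := (hBb ω).1
            linarith
        · rw [i1_neg (fun h => ho h.2), mul_zero]
          have := (hBb ω).1
          linarith
      · have z0 : i1 (w p q ω.1 ω.2.1 ∧ labP M g w p q ω ≠ labT M G t w p q ω) = 1 :=
          i1_pos ⟨hw, hl⟩
        rw [z0]
        have h1 := (hBb ω).1
        have h2 : k * i1 (w p q ω.1 ω.2.1 ∧
          ObW g p ω (p + q) / (M : ℤ) = mo M T φ ρ g w p q (labP M g w p q ω)) ≤ 1 := by
          by_cases h : w p q ω.1 ω.2.1 ∧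
            ObW g p ω (p + q) / (M : ℤ) = mo M T φ ρ g w p q (labP M g w p q ω)
          · rw [i1_pos h, mul_one]; exact hk1
          · rw [i1_neg h, mul_zero]; exact zero_le_one
        linarith
    · rw [hu0 ω hw, i1_neg (fun h => hw h.1), i1_neg hw, i1_neg (fun h => hw h.1)]
      simp
  -- assembly
  have hstar := star_err hP (labR (K := K) p) (labC (K := K) G q) η ζ u F A B
    (fun ω _ => hηp ω) (fun ω _ => hζp ω) hRζ hCη hRu hCu hRF hCA
  have hal : ∀ ω ∈ S, |alp T φ ρ p ω| ≤ 1 :=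
    cavw_abs74 hP (labR p) η (fun s _ => by rcases hηp s with h | h <;> rw [h] <;> norm_num)
  have hbe : ∀ ω ∈ S, |bet T φ ρ G q ω| ≤ 1 :=
    cavw_abs74 hP (labC G q) ζ (fun s _ => by rcases hζp s with h | h <;> rw [h] <;> norm_num)
  have hui : ∀ ω : OmW K, ∀ f : ℝ, 0 ≤ f → f ≤ 1 → |u ω * f| ≤ i1 (w p q ω.1 ω.2.1) := by
    intro ω f hf0 hf1
    by_cases hw : w p q ω.1 ω.2.1
    · rw [i1_pos hw]
      rcases hu2 ω hw with h | h <;> rw [h, abs_le] <;> constructor <;> linarith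
    · rw [i1_neg hw, hu0 ω hw, zero_mul, abs_zero]
  refine ⟨fun ω => u ω * F ω, fun ω => u ω * A ω, ?_, ?_, ?_, ?_, ?_⟩
  · intro ω h1 ω' h2 h
    dsimp only
    rw [hRu ω h1 ω' h2 h, hRF ω h1 ω' h2 h]
  · intro ω h1 ω' h2 h
    dsimp only
    rw [hCu ω h1 ω' h2 h, hCA ω h1 ω' h2 h]
  · intro ω _
    exact hui ω _ (hFb ω).1 (hFb ω).2
  · intro ω _
    exact hui ω _ (hAb ω).1 (hAb ω).2
  · set X1 := ∑ ω ∈ S, P ω * (bet T φ ρ G q ω * ((sgr (bit ω.1 p) - alp T φ ρ p ω) *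
      (u ω * F ω))) with hX1
    set X2 := ∑ ω ∈ S, P ω * (alp T φ ρ p ω * ((sgr (bit ω.2.1 q) - bet T φ ρ G q ω) *
      (u ω * A ω))) with hX2
    set Lk := ∑ ω ∈ S, P ω * (i1 (w p q ω.1 ω.2.1) * lk0 G g t c p q ω.1 ω.2.1) with hLk
    have hZ : ms T φ ρ (fun ω => w p q ω.1 ω.2.1 ∧ labP M g w p q ω ≠ labT M G t w p q ω) =
        ∑ ω ∈ S, P ω * i1 (w p q ω.1 ω.2.1 ∧ labP M g w p q ω ≠ labT M G t w p q ω) :=
      ms_eq _ _ _ _
    rw [hZ]
    set Z := ∑ ω ∈ S, P ω * i1 (w p q ω.1 ω.2.1 ∧ labP M g w p q ω ≠ labT M G t w p q ω) with hZ'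
    have h1 : ∑ ω ∈ S, P ω * ((1 - alp T φ ρ p ω * η ω) * (1 - bet T φ ρ G q ω * ζ ω) *
        (u ω ^ 2 * B ω)) ≤ |X1| + |X2| + 4 * (k / D * Lk + Z) := by
      have h2 : ∑ ω ∈ S, P ω * ((1 - alp T φ ρ p ω * η ω) * (1 - bet T φ ρ G q ω * ζ ω) *
        (u ω ^ 2 * B ω)) =
          X1 - X2 + ∑ ω ∈ S, P ω * ((η ω - alp T φ ρ p ω) * (ζ ω - bet T φ ρ G q ω) * u ω *
            (F ω - A ω + η ω * ζ ω * u ω * B ω)) := hstar
      have h3 : ∑ ω ∈ S, P ω * ((η ω - alp T φ ρ p ω) * (ζ ω - bet T φ ρ G q ω) * u ω *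
            (F ω - A ω + η ω * ζ ω * u ω * B ω)) ≤ ∑ ω ∈ S, P ω * (4 *
              (k / D * (i1 (w p q ω.1 ω.2.1) * lk0 G g t c p q ω.1 ω.2.1) +
        i1 (w p q ω.1 ω.2.1 ∧ labP M g w p q ω ≠ labT M G t w p q ω))) := by
        refine sum_le_sum fun ω hω => mul_le_mul_of_nonneg_left ?_ (hP ω hω).le
        refine (le_abs_self _).trans ?_
        have h4 : |η ω - alp T φ ρ p ω| ≤ 2 := by
          have := hal ω hω
          rw [abs_le] at this ⊢
          rcases hηp ω with h | h <;> rw [h] <;> constructor <;> linarith [this.1, this.2]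
        have h5 : |ζ ω - bet T φ ρ G q ω| ≤ 2 := by
          have := hbe ω hω
          rw [abs_le] at this ⊢
          rcases hζp ω with h | h <;> rw [h] <;> constructor <;> linarith [this.1, this.2]
        have h6 : |η ω - alp T φ ρ p ω| * |ζ ω - bet T φ ρ G q ω| ≤ 4 := by
          calc |η ω - alp T φ ρ p ω| * |ζ ω - bet T φ ρ G q ω| ≤ 2 * 2 :=
                mul_le_mul h4 h5 (abs_nonneg _) (by norm_num)
            _ = 4 := by norm_num
        have h7 : |(η ω - alp T φ ρ p ω) * (ζ ω - bet T φ ρ G q ω) * u ω *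
            (F ω - A ω + η ω * ζ ω * u ω * B ω)| =
            (|η ω - alp T φ ρ p ω| * |ζ ω - bet T φ ρ G q ω|) *
              (|u ω| * |F ω - A ω + η ω * ζ ω * u ω * B ω|) := by
          rw [abs_mul, abs_mul, abs_mul]; ring
        rw [h7]
        exact mul_le_mul h6 (herr ω) (by positivity) (by norm_num)
      have h8 : ∑ ω ∈ S, P ω * (4 *
              (k / D * (i1 (w p q ω.1 ω.2.1) * lk0 G g t c p q ω.1 ω.2.1) +
        i1 (w p q ω.1 ω.2.1 ∧ labP M g w p q ω ≠ labT M G t w p q ω))) =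
          4 * (k / D * Lk + Z) := by
        rw [hLk, hZ', mul_sum, ← sum_add_distrib, mul_sum]
        refine sum_congr rfl fun ω _ => ?_
        ring
      rw [h8] at h3
      rw [h2]
      have h9 := le_abs_self X1
      have h10 := neg_abs_le X2
      linarith
    have h2 : ∑ ω ∈ S, P ω * (u ω ^ 2 * B ω) - k * ∑ ω ∈ S, P ω * (i1 (w p q ω.1 ω.2.1) *
        (|alp T φ ρ p ω| + |bet T φ ρ G q ω|)) ≤
        ∑ ω ∈ S, P ω * ((1 - alp T φ ρ p ω * η ω) * (1 - bet T φ ρ G q ω * ζ ω) *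
        (u ω ^ 2 * B ω)) := by
      rw [mul_sum, ← sum_sub_distrib]
      refine sum_le_sum fun ω hω => ?_
      have h3 : |alp T φ ρ p ω * η ω| = |alp T φ ρ p ω| := by
        rw [abs_mul]
        rcases hηp ω with h | h <;> rw [h] <;> norm_num
      have h4 : |bet T φ ρ G q ω * ζ ω| = |bet T φ ρ G q ω| := by
        rw [abs_mul]
        rcases hζp ω with h | h <;> rw [h] <;> norm_num
      by_cases hw : w p q ω.1 ω.2.1
      · have hu1 : u ω ^ 2 = 1 := by
          rcases hu2 ω hw with h | h <;> rw [h] <;> norm_num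
        rw [hu1, one_mul, i1_pos hw, one_mul]
        have h5 := prod_ge (a := alp T φ ρ p ω * η ω) (b := bet T φ ρ G q ω * ζ ω) (B := B ω)
          (k := k) (by rw [h3]; exact hal ω hω) (by rw [h4]; exact hbe ω hω) (hBb ω).1 (hBb ω).2
        rw [h3, h4] at h5
        have h6 := mul_le_mul_of_nonneg_left h5 (hP ω hω).le
        linarith
      · rw [hu0 ω hw, i1_neg hw]
        simp
    have h3 : k * ms T φ ρ (fun ω => w p q ω.1 ω.2.1 ∧
        ObW g p ω (p + q) / (M : ℤ) = mo M T φ ρ g w p q (labP M g w p q ω)) ≤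
        ∑ ω ∈ S, P ω * (u ω ^ 2 * B ω) + k / D * Lk + Z := by
      rw [ms_eq, hLk, hZ', mul_sum, mul_sum, ← sum_add_distrib, ← sum_add_distrib]
      refine sum_le_sum fun ω hω => ?_
      have := mul_le_mul_of_nonneg_left (hBlow ω) (hP ω hω).le
      linarith
    have e1 : 5 * k / D * Lk = 4 * (k / D * Lk) + k / D * Lk := by ring
    rw [e1]
    linarith

end Pool.Agent.SB3.W
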