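import Pool.Agent.Lib.SB3.SetW74

/-! SB3, weighted version with leaks, module MEASW: measurability. -/

set_option autoImplicit false

namespace Pool.Agent.SB3.W

open Finset Pool.Agent.SB3

namespace MeasW39

theorem pre_mono {L a b : ℕ} (h : a ≤ b) {y y' : Y L} (hy : pre b y = pre b y') :
    pre a y = pre a y' := by
  funext i
  have := congrFun hy i
  unfold pre at *
  by_cases hi : (i : ℕ) < a
  · rw [if_pos hi, if_pos hi]
    rwa [if_pos (by omega), if_pos (by omega)] at this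
  · rw [if_neg hi, if_neg hi]

theorem labR_eq {K : ℕ} {p : ℕ} {ω ω' : OmW K} (h : labR p ω = labR p ω') :
    ω.2.1 = ω'.2.1 ∧ ω.2.2 = ω'.2.2 ∧ pre p ω.1 = pre p ω'.1 := by
  unfold labR at h
  simp only [Prod.mk.injEq] at h
  exact ⟨h.1.1, h.1.2, h.2⟩

theorem labC_eq {K : ℕ} {G : ℕ → Y K → Y K → ℤ} {q : ℕ} {ω ω' : OmW K}
    (h : labC G q ω = labC G q ω') :
    ω.1 = ω'.1 ∧ (∀ j < 2 * K, GamW G ω j = GamW G ω' j) ∧ pre q ω.2.1 = pre q ω'.2.1 := by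
  unfold labC at h
  simp only [Prod.mk.injEq] at h
  refine ⟨h.1.1, fun j hj => ?_, h.2⟩
  exact congrFun h.1.2 ⟨j, hj⟩

end MeasW39

theorem measw_39 : StMeasW := by
  classical
  intro K M T G g t c w hS p q hp hq
  have hOb : ∀ {ω ω' : OmW K}, labR p ω = labR p ω' → ∀ j, ObW g p ω j = ObW g p ω' j := by
    intro ω ω' h j
    obtain ⟨h1, h2, h3⟩ := MeasW39.labR_eq h
    unfold ObW
    rw [h1, h2, hS.g_dep p j _ _ _ h3]
  have hTt : ∀ {ω ω' : OmW K}, labC G q ω = labC G q ω' → ∀ i, p + i < 2 * K →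
      TtW G t p q i ω = TtW G t p q i ω' := by
    intro ω ω' h i hi
    obtain ⟨h1, h2, h3⟩ := MeasW39.labC_eq h
    unfold TtW
    rw [h2 _ hi, h1, hS.t_dep p q i _ _ _ h3]
  refine ⟨?_, ?_, ?_, ?_, ?_, ?_, ?_, ?_, ?_⟩
  · intro ω _ ω' _ h
    obtain ⟨h1, h2, h3⟩ := MeasW39.labR_eq h
    unfold labP
    simp only [Prod.mk.injEq]
    refine ⟨h3, by rw [h1], ?_⟩
    funext i
    have hw : w p i ω.1 ω.2.1 ↔ w p i ω'.1 ω'.2.1 := hS.w_dep p i _ _ _ _ h3 (by rw [h1])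
    by_cases hi : (i : ℕ) < q ∧ w p i ω.1 ω.2.1
    · rw [if_pos hi, if_pos ⟨hi.1, hw.1 hi.2⟩, hOb h]
    · rw [if_neg hi, if_neg (fun h' => hi ⟨h'.1, hw.2 h'.2⟩)]
  · intro ω _ ω' _ h
    obtain ⟨h1, h2, h3⟩ := MeasW39.labC_eq h
    unfold labT
    simp only [Prod.mk.injEq]
    refine ⟨by rw [h1], h3, ?_⟩
    funext i
    by_cases hiq : (i : ℕ) < q
    · have hw : w p i ω.1 ω.2.1 ↔ w p i ω'.1 ω'.2.1 :=
        hS.w_dep p i _ _ _ _ (by rw [h1]) (MeasW39.pre_mono (le_of_lt hiq) h3)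
      by_cases hi : (i : ℕ) < q ∧ w p i ω.1 ω.2.1
      · rw [if_pos hi, if_pos ⟨hi.1, hw.1 hi.2⟩, hTt h _ (by omega)]
      · rw [if_neg hi, if_neg (fun h' => hi ⟨h'.1, hw.2 h'.2⟩)]
    · rw [if_neg (fun h' => hiq h'.1), if_neg (fun h' => hiq h'.1)]
  · intro ω _ ω' _ h
    exact hOb h _
  · intro ω _ ω' _ h
    exact hTt h _ (by omega)
  · intro ω _ ω' _ h
    obtain ⟨h1, h2, h3⟩ := MeasW39.labR_eq h
    exact hS.c_dep p q _ _ _ _ h3 (by rw [h1])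
  · intro ω _ ω' _ h
    obtain ⟨h1, h2, h3⟩ := MeasW39.labR_eq h
    exact propext (hS.w_dep p q _ _ _ _ h3 (by rw [h1]))
  · intro ω _ ω' _ h
    obtain ⟨h1, h2, h3⟩ := MeasW39.labC_eq h
    exact hS.c_dep p q _ _ _ _ (by rw [h1]) h3
  · intro ω _ ω' _ h
    obtain ⟨h1, h2, h3⟩ := MeasW39.labC_eq h
    exact propext (hS.w_dep p q _ _ _ _ (by rw [h1]) h3)
  · intro ω _ ω' _ h
    unfold labP at h
    simp only [Prod.mk.injEq] at h
    exact propext (hS.w_dep p q _ _ _ _ h.1 h.2.1)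

end Pool.Agent.SB3.W
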