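import Pool.Agent.Lib.SB3.SetW74

/-! SB3, weighted version with leaks, module MSW: basic facts about the sample space. -/

set_option autoImplicit false

namespace Pool.Agent.SB3.W

open Finset Pool.Agent.SB3

namespace MsW39

/-- Fubini for the sample space -/
theorem sum_sw {K T : ℕ} (φ : ℤ → ℝ) (ρ : Y K → Y K → ℝ) (F : OmW K → ℝ) :
    ∑ ω ∈ SW K T, PW φ ρ ω * F ω =
      Ey ρ (fun y z => ∑ ν ∈ Fintype.piFinset (fun _ : Fin (2 * K) => Icc (-(T : ℤ)) T),
        (∏ j, φ (ν j)) * F (y, z, ν)) := by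
  unfold SW Ey PW
  rw [sum_product]
  apply sum_congr rfl
  intro y _
  rw [sum_product]
  apply sum_congr rfl
  intro z _
  rw [mul_sum]
  apply sum_congr rfl
  intro ν _
  ring

theorem sum_prod_one {n : ℕ} (T : ℕ) (φ : ℤ → ℝ) (hs : ∑ x ∈ Icc (-(T : ℤ)) T, φ x = 1) :
    ∑ ν ∈ Fintype.piFinset (fun _ : Fin n => Icc (-(T : ℤ)) T), ∏ j, φ (ν j) = 1 := by
  rw [← Finset.prod_univ_sum (fun _ : Fin n => Icc (-(T : ℤ)) T) (fun _ x => φ x)]
  rw [prod_eq_one]
  intro i _
  exact hs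

theorem sum_prod_coord {n : ℕ} (T : ℕ) (φ : ℤ → ℝ) (hs : ∑ x ∈ Icc (-(T : ℤ)) T, φ x = 1)
    (i : Fin n) (f : ℤ → ℝ) :
    ∑ ν ∈ Fintype.piFinset (fun _ : Fin n => Icc (-(T : ℤ)) T), (∏ j, φ (ν j)) * f (ν i) =
      ∑ x ∈ Icc (-(T : ℤ)) T, φ x * f x := by
  have e1 : ∀ ν : Fin n → ℤ, (∏ j, φ (ν j)) * f (ν i) =
      ∏ j, (φ (ν j) * if j = i then f (ν j) else 1) := by
    intro ν
    rw [prod_mul_distrib]
    congr 1
    rw [prod_ite_eq' univ i (fun j => f (ν j)), if_pos (mem_univ i)]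
  rw [sum_congr rfl (fun ν _ => e1 ν)]
  rw [← Finset.prod_univ_sum (fun _ : Fin n => Icc (-(T : ℤ)) T)
    (fun j x => φ x * if j = i then f x else 1)]
  rw [← mul_prod_erase univ _ (mem_univ i)]
  rw [prod_eq_one]
  · rw [mul_one]
    apply sum_congr rfl
    intro x _
    rw [if_pos rfl]
  · intro j hj
    refine Eq.trans ?_ hs
    apply sum_congr rfl
    intro x _
    rw [if_neg (ne_of_mem_erase hj), mul_one]

end MsW39

theorem msw_39 : StMsW := by
  intro K T φ ρ hφ hs hρ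
  refine ⟨?_, ?_, ?_⟩
  · intro ω hω
    unfold PW
    apply mul_pos (hρ _ _)
    apply prod_pos
    intro j _
    apply hφ
    unfold SW at hω
    rw [mem_product, mem_product, Fintype.mem_piFinset] at hω
    exact hω.2.2 j
  · intro f
    rw [MsW39.sum_sw]
    unfold Ey
    apply sum_congr rfl
    intro y _
    apply sum_congr rfl
    intro z _
    beta_reduce
    dsimp only
    rw [← sum_mul, MsW39.sum_prod_one T φ hs, one_mul]
  · intro j f
    rw [MsW39.sum_sw]
    unfold Ey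
    apply sum_congr rfl
    intro y _
    apply sum_congr rfl
    intro z _
    beta_reduce
    dsimp only
    rw [← MsW39.sum_prod_coord T φ hs j (f y z)]

end Pool.Agent.SB3.W
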