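import Pool.Agent.Lib.SB3.SetW74
import Pool.Agent.Lib.SBW.Noise38

/-!
SB3, helper38: the module NOI (truncated two sided geometric noise, with cells).
-/

set_option autoImplicit false

namespace Pool.Agent.SB3.W

open Finset Pool.Agent.SB3 Pool.Agent.SBW.N38

namespace NOI38

lemma exp_neg_one_le : Real.exp (-1) ≤ 2 / 5 := by
  have h := Real.exp_one_gt_d9
  rw [Real.exp_neg]
  have h2 : (2 / 5 : ℝ) = (5 / 2)⁻¹ := by norm_num
  rw [h2]
  exact inv_anti₀ (by norm_num) (by linarith)

lemma geo (n : ℕ) : ∑ k ∈ range n, Real.exp (-1) ^ k ≤ 5 / 3 := by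
  have h0 : 0 < Real.exp (-1) := Real.exp_pos _
  have h1 := exp_neg_one_le
  have hs : Summable (fun k : ℕ => Real.exp (-1) ^ k) :=
    summable_geometric_of_lt_one h0.le (by linarith)
  have h2 := hs.sum_le_tsum (range n) (fun k _ => by positivity)
  rw [tsum_geometric_of_lt_one h0.le (by linarith)] at h2
  refine h2.trans ?_
  have h3 : (5 / 3 : ℝ) = (3 / 5)⁻¹ := by norm_num
  rw [h3]
  exact inv_anti₀ (by norm_num) (by linarith)

/-- a set with few elements in every window of length `M` has a small sum -/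
lemma window_sum (M : ℕ) (hM : 1 ≤ M) (N : ℕ) (S : Finset ℤ)
    (hS : ∀ c : ℤ, (S.filter (fun x => c ≤ x ∧ x < c + M)).card ≤ N) :
    ∑ x ∈ S, h (M : ℝ) x ≤ 10 / 3 * N := by
  have hMr : (0 : ℝ) < M := by exact_mod_cast hM
  have hmap : ∀ x ∈ S, x.natAbs / M ∈ range (S.sup (fun x => x.natAbs / M) + 1) := by
    intro x hx
    rw [Finset.mem_range]
    exact Nat.lt_succ_of_le (Finset.le_sup (f := fun x : ℤ => x.natAbs / M) hx)
  rw [← Finset.sum_fiberwise_of_maps_to hmap]
  have hfib : ∀ k, ∑ x ∈ S.filter (fun x => x.natAbs / M = k), h (M : ℝ) x ≤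
      2 * N * Real.exp (-1) ^ k := by
    intro k
    have hval : ∀ x ∈ S.filter (fun x => x.natAbs / M = k), h (M : ℝ) x ≤ Real.exp (-1) ^ k := by
      intro x hx
      have hx2 := (Finset.mem_filter.mp hx).2
      have h1 : k * M ≤ x.natAbs := by
        rw [← hx2]
        exact Nat.div_mul_le_self _ _
      have h2 : (k : ℝ) * M ≤ |(x : ℝ)| := by
        have h3 : ((k * M : ℕ) : ℝ) ≤ (x.natAbs : ℝ) := by exact_mod_cast h1
        rw [Nat.cast_natAbs] at h3
        push_cast at h3
        exact h3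
      unfold h
      rw [← Real.exp_nat_mul]
      apply Real.exp_le_exp.mpr
      rw [div_le_iff₀ hMr]
      linarith
    have hcard : (S.filter (fun x => x.natAbs / M = k)).card ≤ 2 * N := by
      have hsub : S.filter (fun x => x.natAbs / M = k) ⊆
          S.filter (fun x => ((k * M : ℕ) : ℤ) ≤ x ∧ x < ((k * M : ℕ) : ℤ) + M) ∪
          S.filter (fun x => (-((k * M : ℕ) : ℤ) - M + 1) ≤ x ∧
            x < (-((k * M : ℕ) : ℤ) - M + 1) + M) := by
        intro x hx
        rw [Finset.mem_filter] at hx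
        have h1 : k * M ≤ x.natAbs := by
          rw [← hx.2]
          exact Nat.div_mul_le_self _ _
        have h2 : x.natAbs < k * M + M := by
          rw [← hx.2]
          have := Nat.lt_div_mul_add (a := x.natAbs) (b := M) (by omega)
          exact this
        rw [Finset.mem_union, Finset.mem_filter, Finset.mem_filter]
        rcases le_total 0 x with h0 | h0
        · left
          refine ⟨hx.1, ?_, ?_⟩ <;> omega
        · right
          refine ⟨hx.1, ?_, ?_⟩ <;> omega
      refine (Finset.card_le_card hsub).trans ((Finset.card_union_le _ _).trans ?_)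
      have h1 := hS ((k * M : ℕ) : ℤ)
      have h2 := hS (-((k * M : ℕ) : ℤ) - M + 1)
      omega
    refine (Finset.sum_le_sum hval).trans ?_
    rw [Finset.sum_const, nsmul_eq_mul]
    apply mul_le_mul_of_nonneg_right _ (by positivity)
    exact_mod_cast hcard
  calc _ ≤ ∑ k ∈ range (S.sup (fun x => x.natAbs / M) + 1), 2 * (N : ℝ) * Real.exp (-1) ^ k :=
        Finset.sum_le_sum (fun k _ => hfib k)
    _ = 2 * (N : ℝ) * ∑ k ∈ range (S.sup (fun x => x.natAbs / M) + 1), Real.exp (-1) ^ k := by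
        rw [Finset.mul_sum]
    _ ≤ 2 * (N : ℝ) * (5 / 3) := mul_le_mul_of_nonneg_left (geo _) (by positivity)
    _ = _ := by ring

lemma Z_upper (M : ℕ) (hM : 1 ≤ M) (n : ℕ) : Z (M : ℝ) n ≤ 10 / 3 * M := by
  unfold Z
  apply window_sum M hM M
  intro c
  calc _ ≤ (Finset.Ico c (c + M)).card := by
        apply Finset.card_le_card
        intro x hx
        rw [Finset.mem_filter] at hx
        rw [Finset.mem_Ico]
        exact hx.2
    _ = M := by rw [Int.card_Ico]; omega
    _ ≤ M := le_rfl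

/-- few elements of a window are moved to another cell -/
lemma window_bad (M : ℕ) (hM : 1 ≤ M) (a e : ℤ) (S : Finset ℤ) (c : ℤ) :
    ((S.filter (fun x => (a + x) / (M : ℤ) ≠ (a + x + e) / (M : ℤ))).filter
      (fun x => c ≤ x ∧ x < c + M)).card ≤ e.natAbs := by
  have hM0 : (0 : ℤ) < M := by exact_mod_cast hM
  have hcard : (Finset.Ico (0 : ℤ) |e|).card = e.natAbs := by
    rw [Int.card_Ico, Int.abs_eq_natAbs]
    omega
  rw [← hcard]
  apply Finset.card_le_card_of_injOn (fun x => (a + x + max e 0) % (M : ℤ))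
  · intro x hx
    rw [Finset.mem_coe, Finset.mem_filter, Finset.mem_filter] at hx
    have hne := hx.1.2
    rw [Finset.mem_coe, Finset.mem_Ico]
    refine ⟨Int.emod_nonneg _ hM0.ne', ?_⟩
    by_contra hcon
    rw [not_lt] at hcon
    apply hne
    rcases le_total 0 e with he | he
    · rw [max_eq_left he, abs_of_nonneg he] at hcon
      have h1 := (Int.ediv_emod_unique (a := a + x + e) (b := (M : ℤ))
        (r := (a + x + e) % (M : ℤ)) (q := (a + x + e) / (M : ℤ)) hM0).mp ⟨rfl, rfl⟩
      have h2 := (Int.ediv_emod_unique (a := a + x) (b := (M : ℤ))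
        (r := (a + x + e) % (M : ℤ) - e) (q := (a + x + e) / (M : ℤ)) hM0).mpr
        ⟨by linarith [h1.1], by linarith, by linarith [h1.2.2]⟩
      exact h2.1
    · rw [max_eq_right he, abs_of_nonpos he] at hcon
      simp only [add_zero] at hcon
      have h1 := (Int.ediv_emod_unique (a := a + x) (b := (M : ℤ))
        (r := (a + x) % (M : ℤ)) (q := (a + x) / (M : ℤ)) hM0).mp ⟨rfl, rfl⟩
      have h2 := (Int.ediv_emod_unique (a := a + x + e) (b := (M : ℤ))
        (r := (a + x) % (M : ℤ) + e) (q := (a + x) / (M : ℤ)) hM0).mpr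
        ⟨by linarith [h1.1], by linarith, by linarith [h1.2.2]⟩
      exact h2.1.symm
  · intro x hx y hy hxy
    rw [Finset.mem_coe, Finset.mem_filter] at hx hy
    simp only at hxy
    have h1 : (M : ℤ) ∣ x - y := by
      have h2 := Int.emod_emod_of_dvd
      have h3 : ((a + x + max e 0) - (a + y + max e 0)) % (M : ℤ) = 0 :=
        Int.emod_eq_emod_iff_emod_sub_eq_zero.mp hxy
      have h4 := Int.dvd_of_emod_eq_zero h3
      have h5 : (a + x + max e 0) - (a + y + max e 0) = x - y := by ring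
      rwa [h5] at h4
    have h6 : |x - y| < M := by
      rw [abs_lt]
      constructor <;> linarith [hx.2.1, hx.2.2, hy.2.1, hy.2.2]
    have := Int.eq_zero_of_abs_lt_dvd h1 h6
    linarith

end NOI38

open NOI38

/-- NOI -/
theorem noi_38 : StNoi := by
  intro M R δ hM hδ
  have hMr : (1 : ℝ) ≤ M := by exact_mod_cast hM
  have hM0 : (0 : ℝ) < M := by linarith
  have hM0z : (0 : ℤ) < M := by exact_mod_cast hM
  obtain ⟨T, hT⟩ := exists_nat_ge (max (M : ℝ) (M * (2 * R / δ)))
  have hT1 : (M : ℝ) ≤ T := le_trans (le_max_left _ _) hT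
  have hT2 : (M : ℝ) * (2 * R / δ) ≤ T := le_trans (le_max_right _ _) hT
  have hZ := Z_pos (M : ℝ) T
  have hZ' := Z_pos (M : ℝ) (R + T)
  have hZl := Z_low (M : ℝ) hMr T hT1
  have hsum1 : ∑ t ∈ Finset.Icc (-(T : ℤ)) (T : ℤ), h (M : ℝ) t / Z (M : ℝ) T = 1 := by
    rw [← Finset.sum_div]
    exact div_self hZ.ne'
  refine ⟨T, fun x => h (M : ℝ) x / Z (M : ℝ) T, fun x => h (M : ℝ) x / Z (M : ℝ) (R + T), ?_⟩
  refine ⟨fun x _ => div_pos (h_pos _ x) hZ, hsum1, fun x => div_pos (h_pos _ x) hZ', ?_, ?_, ?_, ?_⟩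
  · have hc : ∑ x ∈ Icc (-((T : ℤ) + R)) (T + R), h (M : ℝ) x / Z (M : ℝ) (R + T) = 1 := by
      rw [← Finset.sum_div]
      have : Z (M : ℝ) (R + T) = ∑ x ∈ Icc (-((T : ℤ) + R)) (T + R), h (M : ℝ) x := by
        unfold Z
        push_cast
        rw [add_comm (R : ℤ) T]
      rw [← this]
      exact div_self hZ'.ne'
    exact hc.le
  · -- relative entropy
    intro g _
    have hlog : ∀ t : ℤ, h (M : ℝ) t / Z (M : ℝ) T *
        Real.log (h (M : ℝ) t / Z (M : ℝ) T / (h (M : ℝ) (t + g) / Z (M : ℝ) (R + T))) =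
        h (M : ℝ) t / Z (M : ℝ) T * Real.log (Z (M : ℝ) (R + T) / Z (M : ℝ) T) +
          1 / (M : ℝ) * (h (M : ℝ) t / Z (M : ℝ) T * (|((g + t : ℤ) : ℝ)| - |(t : ℝ)|)) := by
      intro t
      have e1 : h (M : ℝ) t / Z (M : ℝ) T / (h (M : ℝ) (t + g) / Z (M : ℝ) (R + T)) =
          (Z (M : ℝ) (R + T) / Z (M : ℝ) T) * (h (M : ℝ) t / h (M : ℝ) (t + g)) := by
        have a1 := (h_pos (M : ℝ) (t + g)).ne'
        field_simp
      have e2 : Real.log (h (M : ℝ) t / h (M : ℝ) (t + g)) =
          1 / (M : ℝ) * (|((g + t : ℤ) : ℝ)| - |(t : ℝ)|) := by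
        unfold h
        rw [← Real.exp_sub, Real.log_exp, add_comm g t]
        ring
      rw [e1, Real.log_mul (div_pos hZ' hZ).ne' (div_pos (h_pos _ _) (h_pos _ _)).ne', e2]
      ring
    calc ∑ t ∈ Finset.Icc (-(T : ℤ)) (T : ℤ), h (M : ℝ) t / Z (M : ℝ) T *
          Real.log (h (M : ℝ) t / Z (M : ℝ) T / (h (M : ℝ) (t + g) / Z (M : ℝ) (R + T)))
        = Real.log (Z (M : ℝ) (R + T) / Z (M : ℝ) T) + 1 / (M : ℝ) *
          ∑ t ∈ Finset.Icc (-(T : ℤ)) (T : ℤ),
            h (M : ℝ) t / Z (M : ℝ) T * (|((g + t : ℤ) : ℝ)| - |(t : ℝ)|) := by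
          simp_rw [hlog]
          rw [Finset.sum_add_distrib, ← Finset.sum_mul, hsum1, one_mul, Finset.mul_sum]
      _ ≤ δ + 1 / (M : ℝ) * (6 * M * min (((g : ℝ) / M) ^ 2) |(g : ℝ) / M|) := by
          apply add_le_add
          · have h1 := Z_diff (M : ℝ) hMr T R
            have h2 : Real.log (Z (M : ℝ) (R + T) / Z (M : ℝ) T) ≤
                Z (M : ℝ) (R + T) / Z (M : ℝ) T - 1 :=
              Real.log_le_sub_one_of_pos (div_pos hZ' hZ)
            have h3 : Z (M : ℝ) (R + T) / Z (M : ℝ) T - 1 ≤ 2 * R * Real.exp (-(T : ℝ) / M) := by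
              rw [sub_le_iff_le_add, div_le_iff₀ hZ]
              have hZ1 := Z_ge (M : ℝ) T
              have h4 : 0 ≤ 2 * R * Real.exp (-(T : ℝ) / M) := by positivity
              nlinarith
            have h5 : 2 * R * Real.exp (-(T : ℝ) / M) ≤ δ := by
              rw [neg_div, Real.exp_neg]
              have h6 : 2 * R / δ ≤ Real.exp (T / M) := by
                have h7 := Real.add_one_le_exp ((T : ℝ) / M)
                have h8 : 2 * R / δ ≤ T / M := by
                  rw [le_div_iff₀ hM0]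
                  linarith
                linarith
              rw [div_le_iff₀ hδ] at h6
              rw [← div_eq_mul_inv, div_le_iff₀ (Real.exp_pos _)]
              linarith
            linarith
          · exact mul_le_mul_of_nonneg_left (mean_bound (M : ℝ) hMr T hT1 g) (by positivity)
      _ = 6 * psi ((g : ℝ) / M) + δ := by
          unfold psi
          field_simp
          ring
  · -- cells
    intro g t _
    have hcell : ∀ x : ℤ, Real.log (1 / ∑ o ∈ cell M ((g + x) / (M : ℤ)),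
        h (M : ℝ) (o + t) / Z (M : ℝ) (R + T)) ≤
        3 + |((g + t : ℤ) : ℝ)| / M + |(x : ℝ)| / M := by
      intro x
      have hlow : ∀ o ∈ cell M ((g + x) / (M : ℤ)),
          Real.exp (-(1 + |((g + t : ℤ) : ℝ)| / M + |(x : ℝ)| / M)) / Z (M : ℝ) (R + T) ≤
          h (M : ℝ) (o + t) / Z (M : ℝ) (R + T) := by
        intro o ho
        apply div_le_div_of_nonneg_right _ hZ'.le
        unfold h
        apply Real.exp_le_exp.mpr
        unfold cell at ho
        rw [Finset.mem_Ico] at ho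
        have h1 : (g + x) / (M : ℤ) * M ≤ g + x := Int.ediv_mul_le _ hM0z.ne'
        have h2 : g + x < (g + x) / (M : ℤ) * M + M := Int.lt_ediv_add_one_mul_self _ hM0z |>.trans_eq (by ring)
        have h3 : |o - (g + x)| ≤ M := by
          rw [abs_le]
          constructor <;> linarith [ho.1, ho.2]
        have h4 : |o + t| ≤ M + |g + t| + |x| := by
          have h5 : o + t = (o - (g + x)) + ((g + t) + x) := by ring
          rw [h5]
          have h6 := abs_add_le (o - (g + x)) ((g + t) + x)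
          have h7 := abs_add_le (g + t) x
          linarith
        have h8 : |((o + t : ℤ) : ℝ)| ≤ M + |((g + t : ℤ) : ℝ)| + |(x : ℝ)| := by
          exact_mod_cast h4
        rw [neg_div]
        apply neg_le_neg
        rw [div_le_iff₀ hM0]
        have h9 : (1 + |((g + t : ℤ) : ℝ)| / M + |(x : ℝ)| / M) * M =
            M + |((g + t : ℤ) : ℝ)| + |(x : ℝ)| := by
          field_simp
        rw [h9]
        exact h8
      have hsum : (M : ℝ) * (Real.exp (-(1 + |((g + t : ℤ) : ℝ)| / M + |(x : ℝ)| / M)) /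
          Z (M : ℝ) (R + T)) ≤ ∑ o ∈ cell M ((g + x) / (M : ℤ)),
          h (M : ℝ) (o + t) / Z (M : ℝ) (R + T) := by
        refine le_trans (le_of_eq ?_) (Finset.card_nsmul_le_sum _ _ _ hlow)
        have : (cell M ((g + x) / (M : ℤ))).card = M := by
          unfold cell
          rw [Int.card_Ico]
          omega
        rw [this, nsmul_eq_mul]
      have hZu := Z_upper M hM (R + T)
      have hlow2 : Real.exp (-(3 + |((g + t : ℤ) : ℝ)| / M + |(x : ℝ)| / M)) ≤
          ∑ o ∈ cell M ((g + x) / (M : ℤ)), h (M : ℝ) (o + t) / Z (M : ℝ) (R + T) := by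
        refine le_trans ?_ hsum
        have e1 : Real.exp (-(3 + |((g + t : ℤ) : ℝ)| / M + |(x : ℝ)| / M)) =
            Real.exp (-2) * Real.exp (-(1 + |((g + t : ℤ) : ℝ)| / M + |(x : ℝ)| / M)) := by
          rw [← Real.exp_add]
          congr 1
          ring
        rw [e1, ← mul_div_assoc, le_div_iff₀ hZ']
        have e2 : Real.exp (-2) ≤ 3 / 10 := by
          have h1 := exp_neg_one_le
          have h2 : Real.exp (-2) = Real.exp (-1) * Real.exp (-1) := by
            rw [← Real.exp_add]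
            norm_num
          have h3 := Real.exp_pos (-1)
          rw [h2]
          nlinarith
        have e3 : Real.exp (-2) * Z (M : ℝ) (R + T) ≤ M := by
          have h3 := Real.exp_pos (-2)
          nlinarith
        have e4 := Real.exp_pos (-(1 + |((g + t : ℤ) : ℝ)| / M + |(x : ℝ)| / M))
        nlinarith
      rw [one_div, Real.log_inv]
      have h10 := Real.log_le_log (Real.exp_pos _) hlow2
      rw [Real.log_exp] at h10
      linarith
    -- mean of the absolute value
    have habs : ∑ x ∈ Icc (-(T : ℤ)) (T : ℤ), h (M : ℝ) x / Z (M : ℝ) T * (|(x : ℝ)| / M) ≤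
        40 / 3 := by
      have hpt : ∀ x : ℤ, h (M : ℝ) x * (|(x : ℝ)| / M) ≤
          2 * Real.exp (-1) * h ((2 * M : ℕ) : ℝ) x := by
        intro x
        unfold h
        set u := |(x : ℝ)| / M with hu
        have hv : u / 2 ≤ Real.exp (u / 2 - 1) := by
          have := Real.add_one_le_exp (u / 2 - 1)
          linarith
        have e1 : -|(x : ℝ)| / M = -u := by rw [hu]; ring
        have e2 : -|(x : ℝ)| / ((2 * M : ℕ) : ℝ) = -(u / 2) := by
          rw [hu]
          push_cast
          field_simp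
        rw [e1, e2]
        have e3 : Real.exp (-1) * Real.exp (-(u / 2)) = Real.exp (-u) * Real.exp (u / 2 - 1) := by
          rw [← Real.exp_add, ← Real.exp_add]
          congr 1
          ring
        have h3 := Real.exp_pos (-u)
        calc Real.exp (-u) * u = 2 * (Real.exp (-u) * (u / 2)) := by ring
          _ ≤ 2 * (Real.exp (-u) * Real.exp (u / 2 - 1)) := by
              apply mul_le_mul_of_nonneg_left _ (by norm_num)
              exact mul_le_mul_of_nonneg_left hv h3.le
          _ = 2 * (Real.exp (-1) * Real.exp (-(u / 2))) := by rw [e3]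
          _ = _ := by ring
      have hZ2 := Z_upper (2 * M) (by omega) T
      have hs2 : ∑ x ∈ Icc (-(T : ℤ)) (T : ℤ), h (M : ℝ) x * (|(x : ℝ)| / M) ≤
          2 * Real.exp (-1) * (10 / 3 * ((2 * M : ℕ) : ℝ)) := by
        refine (Finset.sum_le_sum (fun x _ => hpt x)).trans ?_
        rw [← Finset.mul_sum]
        apply mul_le_mul_of_nonneg_left _ (by positivity)
        exact hZ2
      have e1 : ∑ x ∈ Icc (-(T : ℤ)) (T : ℤ), h (M : ℝ) x / Z (M : ℝ) T * (|(x : ℝ)| / M) =
          (∑ x ∈ Icc (-(T : ℤ)) (T : ℤ), h (M : ℝ) x * (|(x : ℝ)| / M)) / Z (M : ℝ) T := by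
        rw [Finset.sum_div]
        apply Finset.sum_congr rfl
        intro x _
        ring
      rw [e1, div_le_iff₀ hZ]
      refine hs2.trans ?_
      push_cast
      linarith
    calc ∑ x ∈ Icc (-(T : ℤ)) (T : ℤ), h (M : ℝ) x / Z (M : ℝ) T *
          Real.log (1 / ∑ o ∈ cell M ((g + x) / (M : ℤ)),
            h (M : ℝ) (o + t) / Z (M : ℝ) (R + T)) ≤
        ∑ x ∈ Icc (-(T : ℤ)) (T : ℤ), (h (M : ℝ) x / Z (M : ℝ) T *
          (3 + |((g + t : ℤ) : ℝ)| / M) + h (M : ℝ) x / Z (M : ℝ) T * (|(x : ℝ)| / M)) := by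
          apply Finset.sum_le_sum
          intro x _
          rw [← mul_add]
          exact mul_le_mul_of_nonneg_left (hcell x) (div_nonneg (h_pos _ _).le hZ.le)
      _ = (3 + |((g + t : ℤ) : ℝ)| / M) + ∑ x ∈ Icc (-(T : ℤ)) (T : ℤ),
          h (M : ℝ) x / Z (M : ℝ) T * (|(x : ℝ)| / M) := by
          rw [Finset.sum_add_distrib, ← Finset.sum_mul, hsum1, one_mul]
      _ ≤ 20 + |((g + t : ℤ) : ℝ)| / M := by linarith
  · -- shifts
    intro a e
    have h1 := window_sum M hM e.natAbs ((Icc (-(T : ℤ)) T).filter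
      (fun x => (a + x) / (M : ℤ) ≠ (a + x + e) / (M : ℤ)))
      (fun c => window_bad M hM a e (Icc (-(T : ℤ)) T) c)
    rw [← Finset.sum_div, div_le_iff₀ hZ]
    have h2 : ((e.natAbs : ℕ) : ℝ) = |(e : ℝ)| := by
      rw [Nat.cast_natAbs]
      push_cast
      rfl
    rw [h2] at h1
    refine h1.trans ?_
    have h3 : 1 / 3 ≤ Real.exp (-1) := by
      have h7 := Real.exp_one_lt_d9
      rw [Real.exp_neg, one_div]
      apply inv_anti₀ (Real.exp_pos 1)
      linarith
    have h4 : (M : ℝ) * (1 / 3) ≤ Z (M : ℝ) T := by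
      have : (M : ℝ) * (1 / 3) ≤ M * Real.exp (-1) := mul_le_mul_of_nonneg_left h3 hM0.le
      linarith
    have h5 : 0 ≤ |(e : ℝ)| := abs_nonneg _
    calc 10 / 3 * |(e : ℝ)| = 10 * |(e : ℝ)| / M * (M * (1 / 3)) := by
          field_simp
      _ ≤ 10 * |(e : ℝ)| / M * Z (M : ℝ) T :=
          mul_le_mul_of_nonneg_left h4 (by positivity)

end Pool.Agent.SB3.W
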