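import Pool.Agent.Lib.SB3.SetW74

/-! SB3, weighted version with leaks, module QLW: basic properties of the largest conditional
probability of a cell. -/

set_option autoImplicit false

namespace Pool.Agent.SB3.W

open Finset Pool.Agent.SB3

namespace QLW39

theorem i1_pos {a : Prop} (h : a) : i1 a = 1 := by
  unfold i1
  exact if_pos h

theorem i1_neg {a : Prop} (h : ¬ a) : i1 a = 0 := by
  unfold i1
  exact if_neg h

theorem i1_nonneg (a : Prop) : 0 ≤ i1 a := by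
  by_cases h : a
  · rw [i1_pos h]; exact zero_le_one
  · rw [i1_neg h]

theorem i1_le_one (a : Prop) : i1 a ≤ 1 := by
  by_cases h : a
  · rw [i1_pos h]
  · rw [i1_neg h]; exact zero_le_one

theorem i1_and (a b : Prop) : i1 (a ∧ b) = i1 a * i1 b := by
  by_cases ha : a
  · by_cases hb : b
    · rw [i1_pos ⟨ha, hb⟩, i1_pos ha, i1_pos hb, one_mul]
    · rw [i1_neg (fun h => hb h.2), i1_neg hb, mul_zero]
  · rw [i1_neg (fun h => ha h.1), i1_neg ha, zero_mul]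

theorem amaxr_spec (f : ℤ → ℝ) (hf : (Set.range f).Finite) (o : ℤ) : f o ≤ f (amaxr f) := by
  have h : ∃ o, ∀ o', f o' ≤ f o := by
    obtain ⟨m, ⟨o₁, ho₁⟩, hmax⟩ := Set.exists_max_image (Set.range f) id hf ⟨f 0, 0, rfl⟩
    refine ⟨o₁, fun o' => ?_⟩
    rw [ho₁]
    exact hmax _ ⟨o', rfl⟩
  unfold amaxr
  rw [dif_pos h]
  exact h.choose_spec o

variable {K : ℕ}

theorem ms_eq (T : ℕ) (φ : ℤ → ℝ) (ρ : Y K → Y K → ℝ) (W : OmW K → Prop) :
    ms T φ ρ W = ∑ ω ∈ SW K T, PW φ ρ ω * i1 (W ω) := by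
  unfold ms
  rw [sum_filter]
  apply sum_congr rfl
  intro ω _
  by_cases h : W ω
  · rw [if_pos h, i1_pos h, mul_one]
  · rw [if_neg h, i1_neg h, mul_zero]

theorem sum_fib (P F : OmW K → ℝ) (S : Finset (OmW K)) {κ : Type} (f : OmW K → κ) (s : OmW K) :
    ∑ s' ∈ fib S f s, P s' * F s' = ∑ s' ∈ S, P s' * (i1 (f s' = f s) * F s') := by
  unfold fib
  rw [sum_filter]
  apply sum_congr rfl
  intro s' _
  by_cases h : f s' = f s
  · rw [if_pos h, i1_pos h, one_mul]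
  · rw [if_neg h, i1_neg h, zero_mul, mul_zero]

theorem sum_fib1 (P : OmW K → ℝ) (S : Finset (OmW K)) {κ : Type} (f : OmW K → κ) (s : OmW K) :
    ∑ s' ∈ fib S f s, P s' = ∑ s' ∈ S, P s' * i1 (f s' = f s) := by
  have h := sum_fib P (fun _ => 1) S f s
  simp only [mul_one] at h
  exact h

variable {M T : ℕ} {φ : ℤ → ℝ} {ρ : Y K → Y K → ℝ} {g : ℕ → ℕ → Y K → Y K → ℤ}
  {w : ℕ → ℕ → Y K → Y K → Prop} {p q : ℕ}

open Classical in
theorem ms_mem (W : OmW K → Prop) : ms T φ ρ W ∈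
    (SW K T).powerset.image (fun A => ∑ ω ∈ A, PW φ ρ ω) := by
  rw [mem_image]
  exact ⟨(SW K T).filter W, mem_powerset.2 (filter_subset _ _), rfl⟩

theorem mlr_fin (l : Y K × Y K × (Fin K → ℤ)) :
    (Set.range (mlr M T φ ρ g w p q l)).Finite := by
  classical
  apply Set.Finite.subset
    (Finset.finite_toSet ((SW K T).powerset.image (fun A => ∑ ω ∈ A, PW φ ρ ω)))
  rintro _ ⟨r, rfl⟩
  rw [mem_coe]
  have h := ms_mem (T := T) (φ := φ) (ρ := ρ)
    (fun ω => labP M g w p q ω = l ∧ ObW g p ω (p + q) / (M : ℤ) = r)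
  convert h
  rfl

theorem mlr_le (l : Y K × Y K × (Fin K → ℤ)) (r : ℤ) :
    mlr M T φ ρ g w p q l r ≤ mlr M T φ ρ g w p q l (mo M T φ ρ g w p q l) :=
  amaxr_spec _ (mlr_fin l) r

/-- the mass of a class, both ways -/
theorem ms_fib (ω : OmW K) : ms T φ ρ (fun ω' => labP M g w p q ω' = labP M g w p q ω) =
    ∑ s' ∈ fib (SW K T) (labP M g w p q) ω, PW φ ρ s' := by
  rw [ms_eq, sum_fib1]

theorem mlr_fib (ω : OmW K) (r : ℤ) : mlr M T φ ρ g w p q (labP M g w p q ω) r =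
    ∑ s' ∈ fib (SW K T) (labP M g w p q) ω, PW φ ρ s' *
      i1 (ObW g p s' (p + q) / (M : ℤ) = r) := by
  unfold mlr
  rw [ms_eq, sum_fib]
  apply sum_congr rfl
  intro s' _
  rw [i1_and]

/-- the largest conditional probability as a conditional average -/
theorem Qf_cavw (ω : OmW K) : Qf M T φ ρ g w p q ω =
    cavw (PW φ ρ) (SW K T) (labP M g w p q) (fun ω' => i1 (ObW g p ω' (p + q) / (M : ℤ) =
      mo M T φ ρ g w p q (labP M g w p q ω'))) ω := by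
  unfold Qf cavw
  rw [ms_fib, mlr_fib]
  congr 1
  apply sum_congr rfl
  intro s' hs'
  rw [CE33_mem_fib] at hs'
  dsimp only
  rw [hs'.2]

theorem Qf_pos (hP : ∀ ω ∈ SW K T, 0 < PW φ ρ ω) {ω : OmW K} (hω : ω ∈ SW K T) :
    0 < Qf M T φ ρ g w p q ω := by
  unfold Qf
  have hd : 0 < ms T φ ρ (fun ω' => labP M g w p q ω' = labP M g w p q ω) := by
    rw [ms_fib]
    exact fib_pos74 hP _ hω
  apply div_pos _ hd
  refine lt_of_lt_of_le ?_ (mlr_le (labP M g w p q ω) (ObW g p ω (p + q) / (M : ℤ)))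
  rw [mlr_fib]
  apply sum_pos'
  · intro s' hs'
    exact mul_nonneg (hP s' (CE33_mem_fib.1 hs').1).le (i1_nonneg _)
  · refine ⟨ω, CE33_mem_fib.2 ⟨hω, rfl⟩, ?_⟩
    rw [i1_pos rfl, mul_one]
    exact hP ω hω

theorem Qf_le_one (hP : ∀ ω ∈ SW K T, 0 < PW φ ρ ω) {ω : OmW K} (hω : ω ∈ SW K T) :
    Qf M T φ ρ g w p q ω ≤ 1 := by
  unfold Qf
  have hd : 0 < ms T φ ρ (fun ω' => labP M g w p q ω' = labP M g w p q ω) := by
    rw [ms_fib]
    exact fib_pos74 hP _ hω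
  rw [div_le_one hd, ms_fib, mlr_fib]
  apply sum_le_sum
  intro s' hs'
  have h1 := (hP s' (CE33_mem_fib.1 hs').1).le
  calc PW φ ρ s' * i1 (ObW g p s' (p + q) / (M : ℤ) = mo M T φ ρ g w p q (labP M g w p q ω))
      ≤ PW φ ρ s' * 1 := mul_le_mul_of_nonneg_left (i1_le_one _) h1
    _ = PW φ ρ s' := mul_one _

end QLW39

/-- QLW -/
theorem qlw_39 : StQLW := by
  intro K M T φ ρ g w p q hP
  refine ⟨fun ω hω => ⟨QLW39.Qf_pos hP hω, QLW39.Qf_le_one hP hω⟩, fun l r => QLW39.mlr_le l r, ?_⟩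
  intro W hW
  have hmb : Mb (SW K T) (labP M g w p q) (fun ω => i1 (W ω)) := by
    intro s hs s' hs' e
    have h1 := hW s hs s' hs' e
    dsimp only
    rw [h1]
  have h := sum_cavw74 hP (labP M g w p q)
    (fun ω => i1 (ObW g p ω (p + q) / (M : ℤ) = mo M T φ ρ g w p q (labP M g w p q ω)))
    (fun ω => i1 (W ω)) hmb
  rw [QLW39.ms_eq]
  have e1 : ∑ ω ∈ SW K T, PW φ ρ ω * (i1 (W ω) * Qf M T φ ρ g w p q ω) =
      ∑ ω ∈ SW K T, PW φ ρ ω * (i1 (W ω) * cavw (PW φ ρ) (SW K T) (labP M g w p q)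
        (fun ω' => i1 (ObW g p ω' (p + q) / (M : ℤ) =
          mo M T φ ρ g w p q (labP M g w p q ω'))) ω) := by
    apply sum_congr rfl
    intro ω _
    rw [QLW39.Qf_cavw]
  rw [e1, h]
  apply sum_congr rfl
  intro ω _
  rw [QLW39.i1_and]

end Pool.Agent.SB3.W
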