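import Pool.Agent.Lib.SB3.SetW74
import Pool.Agent.Lib.MP_a7b2aa_an.SBT.Stmts30

/-!
SB3, Theorem W with leaks, module SW30: from `StWR` to the form used by the trigonometric part.
-/

set_option autoImplicit false

namespace Pool.Agent.SB3.W

open Finset Filter Topology Pool.Agent.SB3

namespace SW95

lemma i1_nonneg (p : Prop) : 0 ≤ i1 p := by
  unfold i1
  split_ifs <;> norm_num

lemma i1_le (p : Prop) : i1 p ≤ 1 := by
  unfold i1
  split_ifs <;> norm_num

open Classical in
/-- the number of good pairs, for a law -/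
noncomputable def NN {L : ℕ} (w : ℕ → ℕ → Y L → Y L → Prop) (ρ : Y L → Y L → ℝ) : ℝ :=
  ∑ p ∈ range L, ∑ q ∈ range (L - p), ∑ y, ∑ z, (if w p q y z then ρ y z else 0)

/-- the right side -/
noncomputable def RH {L : ℕ} (G : ℕ → Y L → Y L → ℝ) (ρ : Y L → Y L → ℝ) : ℝ :=
  ∑ y, ∑ z, ρ y z * Real.log (4 ^ L * ρ y z) +
    ∑ j ∈ range L, ∑ y, ∑ z, ρ y z * min (G j y z ^ 2 / L) (|G j y z| / Real.sqrt L)

lemma NN_eq {L : ℕ} (w : ℕ → ℕ → Y L → Y L → Prop) (ρ : Y L → Y L → ℝ) :
    NN w ρ = ∑ p ∈ range L, ∑ q ∈ range L, Ey ρ (fun y z => i1 (w p q y z ∧ p + q < L)) := by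
  classical
  unfold NN
  refine Finset.sum_congr rfl (fun p _ => ?_)
  have h1 : range (L - p) ⊆ range L := Finset.range_subset_range.2 (Nat.sub_le _ _)
  rw [← Finset.sum_subset h1]
  · refine Finset.sum_congr rfl (fun q hq => ?_)
    rw [Finset.mem_range] at hq
    unfold Ey
    refine Finset.sum_congr rfl (fun y _ => Finset.sum_congr rfl (fun z _ => ?_))
    unfold i1
    dsimp only
    by_cases h : w p q y z
    · rw [if_pos h, if_pos ⟨h, by omega⟩, mul_one]
    · rw [if_neg h, if_neg (fun hh => h hh.1), mul_zero]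
  · intro q _ hq
    rw [Finset.mem_range] at hq
    unfold Ey
    refine Finset.sum_eq_zero (fun y _ => Finset.sum_eq_zero (fun z _ => ?_))
    unfold i1
    dsimp only
    rw [if_neg (fun hh => hq (by omega)), mul_zero]

/-- the inequality for positive laws -/
lemma pos_case {C : ℝ} (hC : 0 < C)
    (hW : ∀ (K : ℕ) (ρ : Y K → Y K → ℝ) (G : ℕ → Y K → Y K → ℝ)
      (g : ℕ → ℕ → Y K → Y K → ℝ) (t : ℕ → ℕ → ℕ → Y K → Y K → ℝ) (c : ℕ → ℕ → Y K → Y K → ℝ)
      (w : ℕ → ℕ → Y K → Y K → Prop), 1 ≤ K → (∀ y z, 0 < ρ y z) →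
      Ey ρ (fun _ _ => 1) = 1 → Dep g t c w → (∀ p q y z, w p q y z → 1 ≤ |c p q y z|) →
      ∑ p ∈ range K, ∑ q ∈ range K, Ey ρ (fun y z => i1 (w p q y z)) ≤
        C * (K * (klr ρ + ∑ j ∈ range (2 * K), Ey ρ (fun y z => psi (G j y z / Real.sqrt K))) +
          ∑ p ∈ range K, ∑ q ∈ range K, Ey ρ (fun y z => i1 (w p q y z) * lkr G g t c w p q y z)))
    (L : ℕ) (G : ℕ → Y L → Y L → ℝ)
    (g : ℕ → ℕ → Y L → Y L → ℝ) (t : ℕ → ℕ → ℕ → Y L → Y L → ℝ) (c : ℕ → ℕ → Y L → Y L → ℝ)
    (w : ℕ → ℕ → Y L → Y L → Prop) (ρ : Y L → Y L → ℝ) (hL : 1 ≤ L)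
    (hs : SBT.StrW L (1 / (2 * C)) G g t c w) (hρ : ∀ y z, 0 < ρ y z)
    (hρ1 : ∑ y, ∑ z, ρ y z = 1) : NN w ρ ≤ 2 * C * L * RH G ρ := by
  classical
  have hLr : (0 : ℝ) < L := by exact_mod_cast hL
  have hsq : 0 < Real.sqrt L := Real.sqrt_pos.2 hLr
  set w' : ℕ → ℕ → Y L → Y L → Prop := fun p q y z => w p q y z ∧ p + q < L with hw'
  set G' : ℕ → Y L → Y L → ℝ := fun j y z => if j < L then G j y z else 0 with hG'
  have h1 := hW L ρ G' g t c w' hL hρ (by unfold Ey; simpa using hρ1)
    ⟨hs.g_dep, hs.t_dep, hs.c_dep, fun p q y y' z z' h h' => by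
      simp only [hw']
      rw [hs.w_dep p q y y' z z' h h']⟩ (fun p q y z h => hs.c_ge p q y z h.1)
  rw [← NN_eq] at h1
  -- the leak
  have hleak : ∑ p ∈ range L, ∑ q ∈ range L, Ey ρ (fun y z => i1 (w' p q y z) *
      lkr G' g t c w' p q y z) ≤ 1 / (2 * C) * NN w ρ := by
    rw [NN_eq, Finset.mul_sum]
    refine Finset.sum_le_sum (fun p _ => ?_)
    rw [Finset.mul_sum]
    refine Finset.sum_le_sum (fun q _ => ?_)
    unfold Ey
    rw [Finset.mul_sum]
    refine Finset.sum_le_sum (fun y _ => ?_)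
    rw [Finset.mul_sum]
    refine Finset.sum_le_sum (fun z _ => ?_)
    by_cases h : w' p q y z
    · have e1 : i1 (w' p q y z) = 1 := by unfold i1; rw [if_pos h]
      dsimp only
      rw [e1, one_mul, mul_one]
      have h2 := hs.leak p q h.2 y z h.1
      have h3 : lkr G' g t c w' p q y z ≤ 1 / (2 * C) := by
        refine le_trans ?_ h2
        unfold lkr
        refine add_le_add (Finset.sum_le_sum (fun i hi => ?_)) (le_of_eq ?_)
        · rw [Finset.mem_range] at hi
          have e3 : G' (p + i) y z = G (p + i) y z := by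
            simp only [hG']
            rw [if_pos (by have := h.2; omega)]
          rw [e3]
          calc i1 (w' p i y z) * |G (p + i) y z - g p (p + i) y z - t p q i y z| ≤
                1 * |G (p + i) y z - g p (p + i) y z - t p q i y z| :=
                mul_le_mul_of_nonneg_right (i1_le _) (abs_nonneg _)
            _ = _ := one_mul _
        · have e3 : G' (p + q) y z = G (p + q) y z := by
            simp only [hG']
            rw [if_pos h.2]
          rw [e3]
      calc ρ y z * lkr G' g t c w' p q y z ≤ ρ y z * (1 / (2 * C)) :=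
            mul_le_mul_of_nonneg_left h3 (hρ y z).le
        _ = 1 / (2 * C) * ρ y z := mul_comm _ _
    · have e1 : i1 (w' p q y z) = 0 := by unfold i1; rw [if_neg h]
      dsimp only
      rw [e1]
      simp
  -- the other terms
  have hpsi : ∑ j ∈ range (2 * L), Ey ρ (fun y z => psi (G' j y z / Real.sqrt L)) =
      ∑ j ∈ range L, ∑ y, ∑ z, ρ y z * min (G j y z ^ 2 / L) (|G j y z| / Real.sqrt L) := by
    have h2 : range L ⊆ range (2 * L) := Finset.range_subset_range.2 (by omega)
    rw [← Finset.sum_subset h2]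
    · refine Finset.sum_congr rfl (fun j hj => ?_)
      rw [Finset.mem_range] at hj
      unfold Ey
      refine Finset.sum_congr rfl (fun y _ => Finset.sum_congr rfl (fun z _ => ?_))
      simp only [hG']
      rw [if_pos hj]
      unfold psi
      rw [div_pow, Real.sq_sqrt hLr.le, abs_div, abs_of_pos hsq]
    · intro j _ hj
      rw [Finset.mem_range] at hj
      unfold Ey
      refine Finset.sum_eq_zero (fun y _ => Finset.sum_eq_zero (fun z _ => ?_))
      simp only [hG']
      rw [if_neg hj]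
      unfold psi
      simp
  have hkl : klr ρ = ∑ y, ∑ z, ρ y z * Real.log (4 ^ L * ρ y z) := rfl
  rw [hpsi, hkl] at h1
  have h2 : NN w ρ ≤ C * (L * RH G ρ) + C * (1 / (2 * C) * NN w ρ) := by
    refine h1.trans ?_
    rw [mul_add]
    refine add_le_add (le_of_eq rfl) ?_
    exact mul_le_mul_of_nonneg_left hleak hC.le
  have h3 : C * (1 / (2 * C) * NN w ρ) = NN w ρ / 2 := by field_simp
  rw [h3] at h2
  linarith

lemma cont_log (L : ℕ) : Continuous (fun x : ℝ => x * Real.log (4 ^ L * x)) := by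
  have h1 : (fun x : ℝ => x * Real.log (4 ^ L * x)) =
      fun x : ℝ => (1 / 4 ^ L) * ((4 ^ L * x) * Real.log (4 ^ L * x)) := by
    funext x
    have h4 : (4 : ℝ) ^ L ≠ 0 := by positivity
    field_simp
  rw [h1]
  exact continuous_const.mul (Real.continuous_mul_log.comp (continuous_const.mul continuous_id))

end SW95

open SW95 in
/-- Module SW30. -/
theorem sw30_95 (h : StWR) : SBT.StW := by
  classical
  obtain ⟨C, hC, hW⟩ := h
  refine ⟨1 / (2 * C), by positivity, 2 * C, by positivity, ?_⟩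
  intro L G g t c w ρ hL hs hρ hρ1
  -- positive laws close to `ρ`
  set e : ℕ → ℝ := fun n => 1 / ((n : ℝ) + 1) with he
  have he0 : ∀ n, 0 < e n := fun n => by simp only [he]; positivity
  have he1 : ∀ n, e n ≤ 1 := fun n => by
    simp only [he]
    rw [div_le_one (by positivity)]
    have : (0 : ℝ) ≤ n := Nat.cast_nonneg n
    linarith
  have het : Tendsto e atTop (𝓝 0) := tendsto_one_div_add_atTop_nhds_zero_nat
  set r : ℕ → Y L → Y L → ℝ := fun n y z => (1 - e n) * ρ y z + e n * (1 / 4 ^ L) with hr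
  have hrp : ∀ n y z, 0 < r n y z := by
    intro n y z
    have h1 : 0 ≤ (1 - e n) * ρ y z := mul_nonneg (by linarith [he1 n]) (hρ y z)
    have h2 : 0 < e n * (1 / 4 ^ L : ℝ) := mul_pos (he0 n) (by positivity)
    simp only [hr]
    linarith
  have hr1 : ∀ n, ∑ y, ∑ z, r n y z = 1 := by
    intro n
    simp only [hr, Finset.sum_add_distrib, ← Finset.mul_sum, hρ1, Finset.sum_const,
      Finset.card_univ, nsmul_eq_mul]
    have : (Fintype.card (Y L) : ℝ) = 2 ^ L := by
      rw [Fintype.card_fun, Fintype.card_bool, Fintype.card_fin]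
      push_cast
      rfl
    rw [this, show (4 : ℝ) = 2 * 2 by norm_num, mul_pow]
    have h2 : (2 : ℝ) ^ L ≠ 0 := by positivity
    field_simp
    ring
  have hrt : ∀ y z, Tendsto (fun n => r n y z) atTop (𝓝 (ρ y z)) := by
    intro y z
    have h1 : Tendsto (fun n => (1 - e n) * ρ y z + e n * (1 / 4 ^ L)) atTop
        (𝓝 ((1 - 0) * ρ y z + 0 * (1 / 4 ^ L))) :=
      ((tendsto_const_nhds.sub het).mul_const _).add (het.mul_const _)
    rw [sub_zero, one_mul, zero_mul, add_zero] at h1
    exact h1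
  have hmain : ∀ n, NN w (r n) ≤ 2 * C * L * RH G (r n) := fun n =>
    pos_case hC hW L G g t c w (r n) hL hs (hrp n) (hr1 n)
  have hleft : Tendsto (fun n => NN w (r n)) atTop (𝓝 (NN w ρ)) := by
    unfold NN
    refine tendsto_finsetSum _ (fun p _ => tendsto_finsetSum _ (fun q _ =>
      tendsto_finsetSum _ (fun y _ => tendsto_finsetSum _ (fun z _ => ?_))))
    split_ifs
    · exact hrt y z
    · exact tendsto_const_nhds
  have hright : Tendsto (fun n => 2 * C * L * RH G (r n)) atTop (𝓝 (2 * C * L * RH G ρ)) := by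
    refine Tendsto.const_mul _ ?_
    unfold RH
    refine Tendsto.add ?_ ?_
    · refine tendsto_finsetSum _ (fun y _ => tendsto_finsetSum _ (fun z _ => ?_))
      exact ((cont_log L).tendsto _).comp (hrt y z)
    · refine tendsto_finsetSum _ (fun j _ => tendsto_finsetSum _ (fun y _ =>
        tendsto_finsetSum _ (fun z _ => ?_)))
      exact (hrt y z).mul_const _
  exact le_of_tendsto_of_tendsto' hleft hright hmain

end Pool.Agent.SB3.W
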