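import Pool.Agent.Lib.SB3.SetW74

/-!
SB3, Theorem W with leaks, module WR: from integers to real functions.
-/

set_option autoImplicit false

namespace Pool.Agent.SB3.W

open Finset Filter Topology Pool.Agent.SB3

namespace WR95

lemma floor_err (x : ℝ) : |((⌊x⌋ : ℤ) : ℝ) - x| ≤ 1 := by
  rw [abs_le]
  constructor
  · linarith [Int.sub_one_lt_floor x]
  · linarith [Int.floor_le x]

lemma sgr_sgi (b : Bool) : ((sgi b : ℤ) : ℝ) = sgr b := by
  unfold sgi sgr
  split_ifs <;> simp

lemma abs_sgr (b : Bool) : |sgr b| = 1 := by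
  unfold sgr
  split_ifs <;> simp

lemma i1_nonneg (p : Prop) : 0 ≤ i1 p := by
  unfold i1
  split_ifs <;> norm_num

lemma i1_le (p : Prop) : i1 p ≤ 1 := by
  unfold i1
  split_ifs <;> norm_num

/-- rounding -/
noncomputable def rd (T : ℕ) (x : ℝ) : ℤ := ⌊(T : ℝ) * x⌋

lemma rd_err (T : ℕ) (x : ℝ) : |((rd T x : ℤ) : ℝ) - T * x| ≤ 1 := floor_err _

lemma rd_large (T : ℕ) (x : ℝ) (h : 1 ≤ |x|) : (T : ℤ) ≤ |rd T x| := by
  have hN : (0 : ℝ) ≤ T := Nat.cast_nonneg T
  rcases le_abs.1 h with h1 | h1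
  · refine le_trans ?_ (le_abs_self _)
    unfold rd
    rw [Int.le_floor]
    push_cast
    nlinarith
  · refine le_trans ?_ (neg_le_abs _)
    unfold rd
    have h2 : ⌊(T : ℝ) * x⌋ ≤ -(T : ℤ) := by
      have h3 : ((⌊(T : ℝ) * x⌋ : ℤ) : ℝ) ≤ ((-(T : ℤ) : ℤ) : ℝ) := by
        refine (Int.floor_le _).trans ?_
        push_cast
        nlinarith
      exact_mod_cast h3
    linarith

lemma psi_cont : Continuous psi := (continuous_pow 2).min continuous_abs

variable {K : ℕ} (G : ℕ → Y K → Y K → ℝ) (g : ℕ → ℕ → Y K → Y K → ℝ)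
    (t : ℕ → ℕ → ℕ → Y K → Y K → ℝ) (c : ℕ → ℕ → Y K → Y K → ℝ)
    (w : ℕ → ℕ → Y K → Y K → Prop)

lemma lk_le (T : ℕ) (hT : 1 ≤ T) (p q : ℕ) (hq : q ≤ K) (y z : Y K) :
    1 / (T : ℝ) * (lk1 (fun j y z => rd T (G j y z)) (fun p j y z => rd T (g p j y z))
        (fun p q i y z => rd T (t p q i y z)) w p q y z +
      lk0 (fun j y z => rd T (G j y z)) (fun p j y z => rd T (g p j y z))
        (fun p q i y z => rd T (t p q i y z)) (fun p q y z => rd T (c p q y z)) p q y z) ≤
      lkr G g t c w p q y z + (3 * K + 4) * (1 / T) := by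
  have hTr : (0 : ℝ) < T := by exact_mod_cast hT
  have h1 : ∀ i, |((rd T (G (p + i) y z) - rd T (g p (p + i) y z) -
      rd T (t p q i y z) : ℤ) : ℝ)| ≤
      T * |G (p + i) y z - g p (p + i) y z - t p q i y z| + 3 := by
    intro i
    have e1 := rd_err T (G (p + i) y z)
    have e2 := rd_err T (g p (p + i) y z)
    have e3 := rd_err T (t p q i y z)
    have e4 : ((rd T (G (p + i) y z) - rd T (g p (p + i) y z) - rd T (t p q i y z) : ℤ) : ℝ) =
        T * (G (p + i) y z - g p (p + i) y z - t p q i y z) +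
        ((((rd T (G (p + i) y z) : ℤ) : ℝ) - T * G (p + i) y z) -
        (((rd T (g p (p + i) y z) : ℤ) : ℝ) - T * g p (p + i) y z) -
        (((rd T (t p q i y z) : ℤ) : ℝ) - T * t p q i y z)) := by
      push_cast
      ring
    rw [e4]
    refine (abs_add_le _ _).trans ?_
    rw [abs_mul, abs_of_pos hTr]
    have e5 := abs_sub (((((rd T (G (p + i) y z) : ℤ) : ℝ) - T * G (p + i) y z) -
        (((rd T (g p (p + i) y z) : ℤ) : ℝ) - T * g p (p + i) y z)))
        (((rd T (t p q i y z) : ℤ) : ℝ) - T * t p q i y z)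
    have e6 := abs_sub ((((rd T (G (p + i) y z) : ℤ) : ℝ) - T * G (p + i) y z))
        ((((rd T (g p (p + i) y z) : ℤ) : ℝ) - T * g p (p + i) y z))
    linarith
  have h2 : |((rd T (G (p + q) y z) - rd T (g p (p + q) y z) - rd T (t p q q y z) -
        sgi (bit y p) * sgi (bit z q) * rd T (c p q y z) : ℤ) : ℝ)| ≤
      T * |G (p + q) y z - g p (p + q) y z - t p q q y z -
        sgr (bit y p) * sgr (bit z q) * c p q y z| + 4 := by
    have e1 := rd_err T (G (p + q) y z)
    have e2 := rd_err T (g p (p + q) y z)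
    have e3 := rd_err T (t p q q y z)
    have e0 := rd_err T (c p q y z)
    have e4 : ((rd T (G (p + q) y z) - rd T (g p (p + q) y z) - rd T (t p q q y z) -
        sgi (bit y p) * sgi (bit z q) * rd T (c p q y z) : ℤ) : ℝ) =
        T * (G (p + q) y z - g p (p + q) y z - t p q q y z -
          sgr (bit y p) * sgr (bit z q) * c p q y z) +
        ((((rd T (G (p + q) y z) : ℤ) : ℝ) - T * G (p + q) y z) -
        (((rd T (g p (p + q) y z) : ℤ) : ℝ) - T * g p (p + q) y z) -
        (((rd T (t p q q y z) : ℤ) : ℝ) - T * t p q q y z) -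
        sgr (bit y p) * sgr (bit z q) * (((rd T (c p q y z) : ℤ) : ℝ) - T * c p q y z)) := by
      push_cast
      rw [sgr_sgi, sgr_sgi]
      ring
    rw [e4]
    refine (abs_add_le _ _).trans ?_
    rw [abs_mul, abs_of_pos hTr]
    have e5 := abs_sub (((((rd T (G (p + q) y z) : ℤ) : ℝ) - T * G (p + q) y z) -
        (((rd T (g p (p + q) y z) : ℤ) : ℝ) - T * g p (p + q) y z)))
        (((rd T (t p q q y z) : ℤ) : ℝ) - T * t p q q y z)
    have e6 := abs_sub ((((rd T (G (p + q) y z) : ℤ) : ℝ) - T * G (p + q) y z))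
        ((((rd T (g p (p + q) y z) : ℤ) : ℝ) - T * g p (p + q) y z))
    have e7 := abs_sub (((((rd T (G (p + q) y z) : ℤ) : ℝ) - T * G (p + q) y z) -
        (((rd T (g p (p + q) y z) : ℤ) : ℝ) - T * g p (p + q) y z)) -
        (((rd T (t p q q y z) : ℤ) : ℝ) - T * t p q q y z))
        (sgr (bit y p) * sgr (bit z q) * (((rd T (c p q y z) : ℤ) : ℝ) - T * c p q y z))
    have e8 : |sgr (bit y p) * sgr (bit z q) * (((rd T (c p q y z) : ℤ) : ℝ) -
        T * c p q y z)| ≤ 1 := by
      rw [abs_mul, abs_mul, abs_sgr, abs_sgr, one_mul, one_mul]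
      exact e0
    linarith
  have h3 : lk1 (fun j y z => rd T (G j y z)) (fun p j y z => rd T (g p j y z))
        (fun p q i y z => rd T (t p q i y z)) w p q y z ≤
      T * (∑ i ∈ range q, i1 (w p i y z) * |G (p + i) y z - g p (p + i) y z - t p q i y z|) +
        3 * K := by
    unfold lk1
    calc ∑ i ∈ range q, i1 (w p i y z) * |((rd T (G (p + i) y z) - rd T (g p (p + i) y z) -
          rd T (t p q i y z) : ℤ) : ℝ)|
        ≤ ∑ i ∈ range q, (T * (i1 (w p i y z) *
            |G (p + i) y z - g p (p + i) y z - t p q i y z|) + 3) := by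
          refine Finset.sum_le_sum (fun i _ => ?_)
          have a1 := mul_le_mul_of_nonneg_left (h1 i) (i1_nonneg (w p i y z))
          have a2 := i1_le (w p i y z)
          linarith
      _ = T * (∑ i ∈ range q, i1 (w p i y z) *
            |G (p + i) y z - g p (p + i) y z - t p q i y z|) + 3 * q := by
          rw [Finset.sum_add_distrib, ← Finset.mul_sum, Finset.sum_const, Finset.card_range,
            nsmul_eq_mul]
          ring
      _ ≤ _ := by
          have : (q : ℝ) ≤ K := by exact_mod_cast hq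
          linarith
  have h4 : lk0 (fun j y z => rd T (G j y z)) (fun p j y z => rd T (g p j y z))
        (fun p q i y z => rd T (t p q i y z)) (fun p q y z => rd T (c p q y z)) p q y z ≤
      T * |G (p + q) y z - g p (p + q) y z - t p q q y z -
        sgr (bit y p) * sgr (bit z q) * c p q y z| + 4 := h2
  rw [div_mul_eq_mul_div, one_mul, div_le_iff₀ hTr]
  unfold lkr
  have h5 : (((∑ i ∈ range q, i1 (w p i y z) *
      |G (p + i) y z - g p (p + i) y z - t p q i y z|) +
      |G (p + q) y z - g p (p + q) y z - t p q q y z -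
        sgr (bit y p) * sgr (bit z q) * c p q y z|) + (3 * K + 4) * (1 / T)) * T =
      T * (∑ i ∈ range q, i1 (w p i y z) *
        |G (p + i) y z - g p (p + i) y z - t p q i y z|) +
      T * |G (p + q) y z - g p (p + q) y z - t p q q y z -
        sgr (bit y p) * sgr (bit z q) * c p q y z| + (3 * K + 4) := by
    field_simp
  rw [h5]
  linarith

end WR95

open WR95 in
/-- Module WR. -/
theorem wr_95 (h : StW) : StWR := by
  obtain ⟨C, hC, hW⟩ := h
  refine ⟨C, hC, ?_⟩
  intro K ρ G g t c w hK hρ hρ1 hdep hc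
  have hK' : (1 : ℝ) ≤ K := by exact_mod_cast hK
  have hsq : 1 ≤ Real.sqrt K := by
    rw [Real.one_le_sqrt]; exact hK'
  -- the bound for every `T`
  have hb : ∀ T : ℕ, 1 ≤ T → ∑ p ∈ range K, ∑ q ∈ range K, Ey ρ (fun y z => i1 (w p q y z)) ≤
      C * (K * (klr ρ + ∑ j ∈ range (2 * K), Ey ρ (fun y z =>
        psi (((rd T (G j y z) : ℤ) : ℝ) / (T * Real.sqrt K)))) +
        ∑ p ∈ range K, ∑ q ∈ range K, Ey ρ (fun y z => i1 (w p q y z) *
          (lkr G g t c w p q y z + (3 * K + 4) * (1 / T)))) := by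
    intro T hT
    have hTr : (0 : ℝ) < T := by exact_mod_cast hT
    have h1 := hW K T ρ (fun j y z => rd T (G j y z)) (fun p j y z => rd T (g p j y z))
      (fun p q i y z => rd T (t p q i y z)) (fun p q y z => rd T (c p q y z)) w hK
      (by exact_mod_cast hT) hρ hρ1
      ⟨fun p j y y' z h => by rw [hdep.g_dep p j y y' z h],
        fun p q i y z z' h => by rw [hdep.t_dep p q i y z z' h],
        fun p q y y' z z' h h' => by rw [hdep.c_dep p q y y' z z' h h'],
        hdep.w_dep⟩ (fun p q y z h => rd_large T _ (hc p q y z h))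
    refine h1.trans ?_
    refine mul_le_mul_of_nonneg_left ?_ hC.le
    refine add_le_add (le_of_eq ?_) ?_
    · simp only [Int.cast_natCast]
    · rw [Int.cast_natCast, Finset.mul_sum]
      refine Finset.sum_le_sum (fun p _ => ?_)
      rw [Finset.mul_sum]
      refine Finset.sum_le_sum (fun q hq => ?_)
      unfold Ey
      rw [Finset.mul_sum]
      refine Finset.sum_le_sum (fun y _ => ?_)
      rw [Finset.mul_sum]
      refine Finset.sum_le_sum (fun z _ => ?_)
      have h2 := lk_le G g t c w T hT p q (Finset.mem_range.1 hq).le y z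
      calc 1 / (T : ℝ) * (ρ y z * (i1 (w p q y z) * _)) =
            ρ y z * (i1 (w p q y z) * (1 / (T : ℝ) * _)) := by ring
        _ ≤ _ := mul_le_mul_of_nonneg_left
            (mul_le_mul_of_nonneg_left h2 (i1_nonneg _)) (hρ y z).le
  -- the limit
  have hlim : Tendsto (fun T : ℕ => C * (K * (klr ρ + ∑ j ∈ range (2 * K), Ey ρ (fun y z =>
        psi (((rd T (G j y z) : ℤ) : ℝ) / (T * Real.sqrt K)))) +
        ∑ p ∈ range K, ∑ q ∈ range K, Ey ρ (fun y z => i1 (w p q y z) *
          (lkr G g t c w p q y z + (3 * K + 4) * (1 / T))))) atTop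
      (𝓝 (C * (K * (klr ρ + ∑ j ∈ range (2 * K), Ey ρ (fun y z =>
        psi (G j y z / Real.sqrt K))) +
        ∑ p ∈ range K, ∑ q ∈ range K, Ey ρ (fun y z => i1 (w p q y z) *
          (lkr G g t c w p q y z + (3 * K + 4) * 0))))) := by
    refine Tendsto.const_mul _ (Tendsto.add (Tendsto.const_mul _ (Tendsto.add
      tendsto_const_nhds ?_)) ?_)
    · refine tendsto_finsetSum _ (fun j _ => ?_)
      unfold Ey
      refine tendsto_finsetSum _ (fun y _ => tendsto_finsetSum _ (fun z _ => ?_))
      refine Tendsto.const_mul _ ((psi_cont.tendsto _).comp ?_)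
      have h1 : Tendsto (fun T : ℕ => (1 / Real.sqrt K) * (1 / (T : ℝ)))
          atTop (𝓝 ((1 / Real.sqrt K) * 0)) :=
        tendsto_one_div_atTop_nhds_zero_nat.const_mul _
      rw [mul_zero] at h1
      rw [tendsto_iff_norm_sub_tendsto_zero]
      refine squeeze_zero' (Eventually.of_forall (fun _ => norm_nonneg _)) ?_ h1
      filter_upwards [eventually_ge_atTop 1] with T hT
      have hTr : (0 : ℝ) < T := by exact_mod_cast hT
      have h2 := rd_err T (G j y z)
      have h3 : ((rd T (G j y z) : ℤ) : ℝ) / (T * Real.sqrt K) - G j y z / Real.sqrt K =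
          (((rd T (G j y z) : ℤ) : ℝ) - T * G j y z) / (T * Real.sqrt K) := by
        field_simp
      rw [Real.norm_eq_abs, h3, abs_div, abs_of_pos (show 0 < (T : ℝ) * Real.sqrt K by positivity),
        div_mul_div_comm, mul_one, mul_comm (Real.sqrt K)]
      exact div_le_div_of_nonneg_right h2 (by positivity)
    · refine tendsto_finsetSum _ (fun p _ => tendsto_finsetSum _ (fun q _ => ?_))
      unfold Ey
      refine tendsto_finsetSum _ (fun y _ => tendsto_finsetSum _ (fun z _ => ?_))
      refine Tendsto.const_mul _ (Tendsto.const_mul _ (Tendsto.add tendsto_const_nhds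
        (Tendsto.const_mul _ tendsto_one_div_atTop_nhds_zero_nat)))
  have h1 := ge_of_tendsto hlim (by
    filter_upwards [eventually_ge_atTop 1] with T hT
    exact hb T hT)
  simpa only [mul_zero, add_zero] using h1

end Pool.Agent.SB3.W
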