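import Pool.Agent.Lib.SB3.QLW90

/-!
SB3, Theorem W with leaks, module ZBW: the labels `labP` and `labT` rarely differ on active pairs.
-/

set_option autoImplicit false

namespace Pool.Agent.SB3.W

open Finset Pool.Agent.SB3

theorem i1_nonneg90 (p : Prop) : 0 ≤ i1 p := by
  unfold i1
  split_ifs
  · exact zero_le_one
  · exact le_refl _

theorem i1_true90 {p : Prop} (h : p) : i1 p = 1 := by
  unfold i1
  rw [if_pos h]

theorem i1_false90 {p : Prop} (h : ¬ p) : i1 p = 0 := by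
  unfold i1
  rw [if_neg h]

/-- ZBW -/
theorem zbw_90 (hM : StMsW) : StZBW := by
  classical
  intro K M T R δ φ r ρ G g t w hM1 hN hρ p q hp hq
  obtain ⟨hP, -, hFj⟩ := hM K T φ ρ hN.phi_pos hN.phi_sum hρ
  -- the leak
  set e : ℕ → Y K → Y K → ℤ := fun i y z => G (p + i) y z - g p (p + i) y z - t p q i y z with he
  set f : ℕ → Y K → Y K → ℤ → ℝ := fun i y z x => i1 (w p q y z) * (i1 (w p i y z) *
    i1 ((g p (p + i) y z + x) / (M : ℤ) ≠ (g p (p + i) y z + x + e i y z) / (M : ℤ))) with hf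
  have hpt : ∀ ω ∈ SW K T,
      i1 (w p q ω.1 ω.2.1 ∧ labP M g w p q ω ≠ labT M G t w p q ω) ≤
        ∑ i ∈ range q, f i ω.1 ω.2.1 (nzw ω.2.2 (p + i)) := by
    intro ω _
    have hnn : ∀ i ∈ range q, 0 ≤ f i ω.1 ω.2.1 (nzw ω.2.2 (p + i)) := fun i _ =>
      mul_nonneg (i1_nonneg90 _) (mul_nonneg (i1_nonneg90 _) (i1_nonneg90 _))
    by_cases hW : w p q ω.1 ω.2.1 ∧ labP M g w p q ω ≠ labT M G t w p q ω
    · rw [i1_true90 hW]
      have hex : ∃ i ∈ range q, w p i ω.1 ω.2.1 ∧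
          (g p (p + i) ω.1 ω.2.1 + nzw ω.2.2 (p + i)) / (M : ℤ) ≠
          (g p (p + i) ω.1 ω.2.1 + nzw ω.2.2 (p + i) + e i ω.1 ω.2.1) / (M : ℤ) := by
        by_contra hcon
        push Not at hcon
        apply hW.2
        unfold labP labT
        refine Prod.ext rfl (Prod.ext rfl ?_)
        funext i
        show (if (i : ℕ) < q ∧ w p i ω.1 ω.2.1 then ObW g p ω (p + i) / (M : ℤ) else 0) =
          (if (i : ℕ) < q ∧ w p i ω.1 ω.2.1 then TtW G t p q i ω / (M : ℤ) else 0)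
        by_cases hi : (i : ℕ) < q ∧ w p i ω.1 ω.2.1
        · rw [if_pos hi, if_pos hi]
          have h3 := hcon i (mem_range.2 hi.1) hi.2
          have h4 : TtW G t p q i ω = g p (p + i) ω.1 ω.2.1 + nzw ω.2.2 (p + i) +
              e i ω.1 ω.2.1 := by
            unfold TtW GamW
            simp only [he]
            ring
          rw [h4, ← h3]
          rfl
        · rw [if_neg hi, if_neg hi]
      obtain ⟨i, hi, hwi, hne⟩ := hex
      refine le_trans ?_ (Finset.single_le_sum hnn hi)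
      simp only [hf]
      rw [i1_true90 hW.1, i1_true90 hwi, i1_true90 hne]
      norm_num
    · rw [i1_false90 hW]
      exact Finset.sum_nonneg hnn
  rw [ms_eq90]
  have h1 : ∑ ω ∈ SW K T, PW φ ρ ω *
      i1 (w p q ω.1 ω.2.1 ∧ labP M g w p q ω ≠ labT M G t w p q ω) ≤
      ∑ i ∈ range q, ∑ ω ∈ SW K T, PW φ ρ ω * f i ω.1 ω.2.1 (nzw ω.2.2 (p + i)) := by
    rw [Finset.sum_comm]
    refine Finset.sum_le_sum fun ω hω => ?_
    rw [← Finset.mul_sum]
    exact mul_le_mul_of_nonneg_left (hpt ω hω) (hP ω hω).le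
  refine h1.trans ?_
  have h2 : ∀ i ∈ range q, ∑ ω ∈ SW K T, PW φ ρ ω * f i ω.1 ω.2.1 (nzw ω.2.2 (p + i)) ≤
      10 / M * Ey ρ (fun y z => i1 (w p q y z) * (i1 (w p i y z) * |((e i y z : ℤ) : ℝ)|)) := by
    intro i hi
    have hi' := mem_range.1 hi
    have hj : p + i < 2 * K := by omega
    have e1 : ∀ ω : OmW K, nzw ω.2.2 (p + i) = ω.2.2 ⟨p + i, hj⟩ := by
      intro ω
      unfold nzw
      rw [dif_pos hj]
    simp only [e1]
    rw [hFj ⟨p + i, hj⟩ (f i)]
    have e2 : 10 / (M : ℝ) * Ey ρ (fun y z => i1 (w p q y z) *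
        (i1 (w p i y z) * |((e i y z : ℤ) : ℝ)|)) =
        Ey ρ (fun y z => i1 (w p q y z) * (i1 (w p i y z) * (10 * |((e i y z : ℤ) : ℝ)| / M))) := by
      unfold Ey
      simp only [Finset.mul_sum]
      refine Finset.sum_congr rfl fun y _ => Finset.sum_congr rfl fun z _ => ?_
      ring
    rw [e2]
    unfold Ey
    refine Finset.sum_le_sum fun y _ => Finset.sum_le_sum fun z _ => ?_
    refine mul_le_mul_of_nonneg_left ?_ (hρ y z).le
    have e3 : ∑ x ∈ Icc (-(T : ℤ)) T, φ x * f i y z x =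
        i1 (w p q y z) * (i1 (w p i y z) * ∑ x ∈ (Icc (-(T : ℤ)) T).filter
          (fun x => (g p (p + i) y z + x) / (M : ℤ) ≠
            (g p (p + i) y z + x + e i y z) / (M : ℤ)), φ x) := by
      rw [Finset.sum_filter, Finset.mul_sum, Finset.mul_sum]
      refine Finset.sum_congr rfl fun x _ => ?_
      simp only [hf]
      by_cases hx : (g p (p + i) y z + x) / (M : ℤ) ≠ (g p (p + i) y z + x + e i y z) / (M : ℤ)
      · rw [if_pos hx, i1_true90 hx]
        ring
      · rw [if_neg hx, i1_false90 hx]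
        ring
    beta_reduce
    rw [e3]
    refine mul_le_mul_of_nonneg_left (mul_le_mul_of_nonneg_left ?_ (i1_nonneg90 _))
      (i1_nonneg90 _)
    have h4 := hN.mis (g p (p + i) y z) (e i y z)
    convert h4
  refine (Finset.sum_le_sum h2).trans (le_of_eq ?_)
  rw [← Finset.mul_sum]
  congr 1
  unfold Ey lk1
  rw [Finset.sum_comm]
  refine Finset.sum_congr rfl fun y _ => ?_
  rw [Finset.sum_comm]
  refine Finset.sum_congr rfl fun z _ => ?_
  beta_reduce
  rw [Finset.mul_sum, Finset.mul_sum]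

end Pool.Agent.SB3.W
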