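import Pool.Agent.Lib.SB3.GMW74
import Pool.Agent.Lib.SB3.ChW74
import Pool.Agent.Lib.SB3.MsW39
import Pool.Agent.Lib.SB3.MeasW39
import Pool.Agent.Lib.SB3.ZBW90
import Pool.Agent.Lib.SB3.QLW39
import Pool.Agent.Lib.SB3.BudW90
import Pool.Agent.Lib.SB3.KeyW42
import Pool.Agent.Lib.SB3.Noi38
import Pool.Agent.Lib.SB3.WR95
import Pool.Agent.Lib.SB3.SW30x95

/-!
SB3: Theorem W with leaks, without hypotheses.
-/

set_option autoImplicit false

namespace Pool.Agent.SB3.W

/-- Theorem W with leaks, integers -/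
theorem w_74 : StW :=
  gmw_74 noi_38 msw_39 (zbw_90 msw_39) (keyw_42 measw_39) qlw_39 (chw_74 msw_39) (budw_90 msw_39)

/-- Theorem W with leaks, real functions -/
theorem wr_74 : StWR := wr_95 w_74

/-- Theorem W with leaks, the form used for the trigonometric inequality -/
theorem w30_74 : Pool.Agent.SBT.StW := sw30_95 wr_74

end Pool.Agent.SB3.W
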