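import Pool.Agent.Lib.SB3.Stmts74

/-!
SB3, module ENT: the entropy lemma.
-/

set_option autoImplicit false

namespace Pool.Agent.SB3

open Finset

namespace Ent3

lemma two_mul_le_log {x : ℝ} (h0 : 0 ≤ x) (h1 : x < 1) :
    2 * x ≤ Real.log (1 + x) - Real.log (1 - x) := by
  have h := Real.hasSum_log_sub_log_of_abs_lt_one (x := x) (by rw [abs_of_nonneg h0]; exact h1)
  have h2 := sum_le_hasSum {0} (fun k _ => by positivity) h
  simpa using h2

lemma sq_le_aux {x : ℝ} (h0 : 0 ≤ x) (h1 : x ≤ 1) :
    x ^ 2 ≤ (1 + x) * Real.log (1 + x) + (1 - x) * Real.log (1 - x) := by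
  set f : ℝ → ℝ := fun x => (1 + x) * Real.log (1 + x) + (1 - x) * Real.log (1 - x) - x ^ 2
    with hf
  have hcont : Continuous f := by
    have c1 : Continuous fun x : ℝ => (1 + x) * Real.log (1 + x) :=
      Real.continuous_mul_log.comp (continuous_const.add continuous_id)
    have c2 : Continuous fun x : ℝ => (1 - x) * Real.log (1 - x) :=
      Real.continuous_mul_log.comp (continuous_const.sub continuous_id)
    exact (c1.add c2).sub (continuous_pow 2)
  have hder : ∀ y : ℝ, 0 < y → y < 1 →
      HasDerivAt f (Real.log (1 + y) - Real.log (1 - y) - 2 * y) y := by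
    intro y hy0 hy1
    have a1 : HasDerivAt (fun x : ℝ => 1 + x) 1 y := (hasDerivAt_id y).const_add 1
    have a2 : HasDerivAt (fun x : ℝ => 1 - x) (-1) y := (hasDerivAt_id y).const_sub 1
    have b1 := a1.mul (a1.log (by linarith))
    have b2 := a2.mul (a2.log (by linarith))
    have b3 := (b1.add b2).sub (hasDerivAt_pow 2 y)
    refine b3.congr_deriv ?_
    have e1 : (1 + y) ≠ 0 := by linarith
    have e2 : (1 - y) ≠ 0 := by linarith
    field_simp
    push_cast
    ring
  have hmono : MonotoneOn f (Set.Icc 0 1) := by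
    refine monotoneOn_of_deriv_nonneg (convex_Icc 0 1) hcont.continuousOn ?_ ?_
    · rw [interior_Icc]
      intro y hy
      exact (hder y hy.1 hy.2).differentiableAt.differentiableWithinAt
    · rw [interior_Icc]
      intro y hy
      rw [(hder y hy.1 hy.2).deriv]
      linarith [two_mul_le_log hy.1.le hy.2]
  have h2 := hmono ⟨le_refl 0, zero_le_one⟩ ⟨h0, h1⟩ h0
  simp only [hf] at h2
  norm_num at h2
  linarith

lemma sq_le {x : ℝ} (h1 : |x| ≤ 1) :
    x ^ 2 ≤ (1 + x) * Real.log (1 + x) + (1 - x) * Real.log (1 - x) := by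
  rcases le_total 0 x with h | h
  · exact sq_le_aux h (by rwa [abs_of_nonneg h] at h1)
  · have h2 := sq_le_aux (x := -x) (by linarith) (by rwa [abs_of_nonpos h] at h1)
    rw [neg_sq] at h2
    have e1 : 1 + -x = 1 - x := by ring
    have e2 : 1 - -x = 1 + x := by ring
    rw [e1, e2] at h2
    linarith

lemma sgr_cases (b : Bool) : sgr b = 1 ∨ sgr b = -1 := by
  cases b <;> simp [sgr]

section

variable {α κ : Type}

lemma mem_fib {S : Finset α} {f : α → κ} {s s' : α} : s' ∈ fib S f s ↔ s' ∈ S ∧ f s' = f s := by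
  classical
  unfold fib
  rw [Finset.mem_filter]

lemma fib_congr {S : Finset α} {f : α → κ} {s s' : α} (h : f s = f s') : fib S f s = fib S f s' := by
  ext x
  rw [mem_fib, mem_fib, h]

lemma card_fib_pos {S : Finset α} {f : α → κ} {s : α} (hs : s ∈ S) : 0 < (fib S f s).card :=
  Finset.card_pos.mpr ⟨s, mem_fib.mpr ⟨hs, rfl⟩⟩

lemma cav_congr {S : Finset α} {f : α → κ} {X : α → ℝ} {s s' : α} (h : f s = f s') :
    cav S f X s = cav S f X s' := by
  unfold cav
  rw [fib_congr h]

/-- Orthogonality. -/
lemma sum_sub_cav (S : Finset α) (f : α → κ) (X h : α → ℝ) (hh : Mb S f h) :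
    ∑ s ∈ S, h s * (X s - cav S f X s) = 0 := by
  classical
  rw [← Finset.sum_fiberwise_of_maps_to (t := S.image f) (g := f)
    (fun s hs => Finset.mem_image_of_mem f hs)]
  refine Finset.sum_eq_zero fun k hk => ?_
  obtain ⟨s₀, hs₀, rfl⟩ := Finset.mem_image.mp hk
  have e1 : S.filter (fun s => f s = f s₀) = fib S f s₀ := by
    ext x
    rw [mem_fib, Finset.mem_filter]
  rw [e1]
  have e2 : ∀ s ∈ fib S f s₀, h s * (X s - cav S f X s) = h s₀ * (X s - cav S f X s₀) := by
    intro s hs
    obtain ⟨h1, h2⟩ := mem_fib.mp hs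
    rw [hh s h1 s₀ hs₀ h2, cav_congr h2]
  rw [Finset.sum_congr rfl e2, ← Finset.mul_sum, Finset.sum_sub_distrib, Finset.sum_const,
    nsmul_eq_mul]
  have h3 : ((fib S f s₀).card : ℝ) ≠ 0 := by
    have := card_fib_pos (f := f) hs₀
    positivity
  unfold cav
  field_simp
  ring

end

lemma pre_zero {L : ℕ} (y y' : Y L) : pre 0 y = pre 0 y' := by
  funext i
  simp [pre]

lemma pre_self {L : ℕ} (y : Y L) : pre L y = y := by
  funext i
  simp [pre, i.2]

lemma pre_succ_iff {L : ℕ} {q : ℕ} (hq : q < L) (y y' : Y L) :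
    pre (q + 1) y = pre (q + 1) y' ↔ pre q y = pre q y' ∧ bit y q = bit y' q := by
  constructor
  · intro h
    constructor
    · funext i
      by_cases hi : (i : ℕ) < q
      · have := congrFun h i
        simp only [pre, if_pos hi, if_pos (show (i : ℕ) < q + 1 by omega)] at this ⊢
        exact this
      · simp only [pre, if_neg hi]
    · have := congrFun h ⟨q, hq⟩
      simp only [pre, if_pos (show q < q + 1 by omega)] at this
      simp only [bit, dif_pos hq]
      exact this
  · rintro ⟨h1, h2⟩
    funext i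
    by_cases hi : (i : ℕ) < q
    · have := congrFun h1 i
      simp only [pre, if_pos hi, if_pos (show (i : ℕ) < q + 1 by omega)] at this ⊢
      exact this
    · by_cases hi2 : (i : ℕ) = q
      · simp only [bit, dif_pos hq] at h2
        have e : i = ⟨q, hq⟩ := Fin.ext hi2
        rw [e]
        simp only [pre, if_pos (show q < q + 1 by omega)]
        exact h2
      · simp only [pre, if_neg (show ¬ (i : ℕ) < q + 1 by omega)]

section

variable {L : ℕ} {α κ : Type} (S : Finset α) (a : α → κ) (b : α → Y L)

/-- The number of points with the same label and the same first `q` coordinates. -/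
noncomputable def cn (q : ℕ) (s : α) : ℕ := (fib S (fun s => (a s, pre q (b s))) s).card

/-- The average of the sign. -/
noncomputable def be (q : ℕ) (s : α) : ℝ :=
  cav S (fun s => (a s, pre q (b s))) (fun s => sgr (bit (b s) q)) s

variable {S}

lemma cn_pos {q : ℕ} {s : α} (hs : s ∈ S) : (0 : ℝ) < cn S a b q s := by
  have := card_fib_pos (f := fun s => (a s, pre q (b s))) hs
  unfold cn
  exact_mod_cast this

lemma one_add {q : ℕ} (hq : q < L) {s : α} (hs : s ∈ S) :
    1 + be S a b q s * sgr (bit (b s) q) = 2 * cn S a b (q + 1) s / cn S a b q s := by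
  classical
  have h0 := cn_pos (S := S) a b (q := q) hs
  set T := fib S (fun s => (a s, pre q (b s))) s with hT
  have h1 : T.filter (fun s' => bit (b s') q = bit (b s) q) =
      fib S (fun s => (a s, pre (q + 1) (b s))) s := by
    ext x
    rw [Finset.mem_filter, hT, mem_fib, mem_fib, Prod.mk.injEq, Prod.mk.injEq,
      pre_succ_iff hq]
    tauto
  have h2 : ∑ s' ∈ T, sgr (bit (b s') q) =
      sgr (bit (b s) q) * (2 * cn S a b (q + 1) s - cn S a b q s) := by
    have h3 : ∀ s' ∈ T, sgr (bit (b s') q) = sgr (bit (b s) q) *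
        (2 * (if bit (b s') q = bit (b s) q then (1 : ℝ) else 0) - 1) := by
      intro s' _
      cases bit (b s') q <;> cases bit (b s) q <;> simp [sgr] <;> norm_num
    rw [Finset.sum_congr rfl h3, ← Finset.mul_sum, Finset.sum_sub_distrib, ← Finset.mul_sum,
      Finset.sum_ite, Finset.sum_const_zero, Finset.sum_const, Finset.sum_const, h1]
    simp only [nsmul_eq_mul, mul_one, add_zero]
    rfl
  have h4 : be S a b q s = sgr (bit (b s) q) * (2 * cn S a b (q + 1) s - cn S a b q s) /
      cn S a b q s := by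
    unfold be cav
    rw [h2]
    rfl
  rw [h4]
  have h5 : sgr (bit (b s) q) * sgr (bit (b s) q) = 1 := by
    rcases sgr_cases (bit (b s) q) with h | h <;> rw [h] <;> norm_num
  field_simp
  linear_combination (2 * (cn S a b (q + 1) s : ℝ) - cn S a b q s) * h5

lemma abs_be_le {q : ℕ} {s : α} (hs : s ∈ S) : |be S a b q s| ≤ 1 := by
  unfold be cav
  have h0 := card_fib_pos (f := fun s => (a s, pre q (b s))) hs
  have h0' : (0 : ℝ) < (fib S (fun s => (a s, pre q (b s))) s).card := by exact_mod_cast h0
  rw [abs_div, abs_of_pos h0', div_le_one h0']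
  refine (Finset.abs_sum_le_sum_abs _ _).trans ?_
  have : ∀ s' ∈ fib S (fun s => (a s, pre q (b s))) s, |sgr (bit (b s') q)| ≤ 1 := by
    intro s' _
    rcases sgr_cases (bit (b s') q) with h | h <;> rw [h] <;> norm_num
  refine (Finset.sum_le_sum this).trans ?_
  simp

/-- One coordinate. -/
lemma sum_log {q : ℕ} (hq : q < L) :
    ∑ s ∈ S, be S a b q s ^ 2 ≤
      2 * ∑ s ∈ S, Real.log (2 * cn S a b (q + 1) s / cn S a b q s) := by
  set V : α → ℝ := fun s => (Real.log (1 + be S a b q s) - Real.log (1 - be S a b q s)) / 2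
    with hV
  have h1 : ∀ s ∈ S, Real.log (2 * cn S a b (q + 1) s / cn S a b q s) =
      ((1 + be S a b q s) * Real.log (1 + be S a b q s) +
        (1 - be S a b q s) * Real.log (1 - be S a b q s)) / 2 +
      V s * (sgr (bit (b s) q) - be S a b q s) := by
    intro s hs
    rw [← one_add a b hq hs, hV]
    rcases sgr_cases (bit (b s) q) with h | h <;> rw [h]
    · rw [mul_one]; ring
    · rw [mul_neg_one, ← sub_eq_add_neg]; ring
  have h2 : ∑ s ∈ S, V s * (sgr (bit (b s) q) - be S a b q s) = 0 := by
    refine sum_sub_cav S (fun s => (a s, pre q (b s))) (fun s => sgr (bit (b s) q)) V ?_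
    intro s _ s' _ hss
    have : be S a b q s = be S a b q s' := cav_congr hss
    simp only [hV, this]
  rw [Finset.sum_congr rfl h1, Finset.sum_add_distrib, h2, add_zero, Finset.mul_sum]
  refine Finset.sum_le_sum fun s hs => ?_
  have := sq_le (abs_be_le a b (q := q) hs)
  linarith

end

end Ent3

open Ent3 in
/-- ENT. -/
theorem stEnt : StEnt := by
  classical
  intro L α κ S A a b hS hA hinj
  have h1 : ∀ q ∈ range L, ∑ s ∈ S,
      (cav S (fun s => (a s, pre q (b s))) (fun s => sgr (bit (b s) q)) s) ^ 2 ≤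
      2 * ∑ s ∈ S, Real.log (2 * cn S a b (q + 1) s / cn S a b q s) := by
    intro q hq
    exact sum_log a b (Finset.mem_range.mp hq)
  refine (Finset.sum_le_sum h1).trans ?_
  rw [← Finset.mul_sum, Finset.sum_comm]
  -- telescoping
  have hcL : ∀ s ∈ S, cn S a b L s = 1 := by
    intro s hs
    unfold cn
    rw [Finset.card_eq_one]
    refine ⟨s, ?_⟩
    ext x
    rw [mem_fib, Finset.mem_singleton, Prod.mk.injEq, pre_self, pre_self]
    constructor
    · rintro ⟨h2, h3, h4⟩
      exact hinj x h2 s hs h3 h4
    · rintro rfl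
      exact ⟨hs, rfl, rfl⟩
  have htel : ∀ s ∈ S, ∑ q ∈ range L, Real.log (2 * cn S a b (q + 1) s / cn S a b q s) =
      L * Real.log 2 - Real.log (cn S a b 0 s) := by
    intro s hs
    have h2 : ∀ q, Real.log (2 * cn S a b (q + 1) s / cn S a b q s) =
        Real.log 2 + (Real.log (cn S a b (q + 1) s) - Real.log (cn S a b q s)) := by
      intro q
      have h3 := cn_pos (S := S) a b (q := q) hs
      have h4 := cn_pos (S := S) a b (q := q + 1) hs
      rw [Real.log_div (by positivity) h3.ne', Real.log_mul (by norm_num) h4.ne']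
      ring
    rw [Finset.sum_congr rfl fun q _ => h2 q, Finset.sum_add_distrib, Finset.sum_const,
      Finset.card_range, nsmul_eq_mul, Finset.sum_range_sub (fun q => Real.log (cn S a b q s)),
      hcL s hs]
    simp
    ring
  rw [Finset.sum_congr rfl htel, Finset.sum_sub_distrib, Finset.sum_const, nsmul_eq_mul]
  -- the distribution of `a`
  have hSc : (0 : ℝ) < S.card := by exact_mod_cast hS.card_pos
  have hAne : A.Nonempty := by
    obtain ⟨s, hs⟩ := hS
    exact ⟨a s, hA s hs⟩
  have hAc : (0 : ℝ) < A.card := by exact_mod_cast hAne.card_pos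
  have hcn0 : ∀ s, cn S a b 0 s = (S.filter fun s' => a s' = a s).card := by
    intro s
    unfold cn
    congr 1
    ext x
    rw [mem_fib, Finset.mem_filter, Prod.mk.injEq]
    have := pre_zero (b x) (b s)
    tauto
  have hsum : ∑ s ∈ S, (1 : ℝ) / cn S a b 0 s ≤ A.card := by
    rw [← Finset.sum_fiberwise_of_maps_to (t := A) (g := a) hA]
    calc ∑ k ∈ A, ∑ s ∈ S.filter (fun s => a s = k), (1 : ℝ) / cn S a b 0 s
        ≤ ∑ k ∈ A, (1 : ℝ) := by
          refine Finset.sum_le_sum fun k _ => ?_
          have h2 : ∀ s ∈ S.filter (fun s => a s = k), (1 : ℝ) / cn S a b 0 s =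
              1 / (S.filter (fun s => a s = k)).card := by
            intro s hs
            rw [hcn0, (Finset.mem_filter.mp hs).2]
          rw [Finset.sum_congr rfl h2, Finset.sum_const, nsmul_eq_mul]
          rcases Nat.eq_zero_or_pos (S.filter (fun s => a s = k)).card with h3 | h3
          · rw [h3]; simp
          · have : (0 : ℝ) < (S.filter (fun s => a s = k)).card := by exact_mod_cast h3
            rw [mul_one_div, div_self this.ne']
      _ = A.card := by simp
  have hlog : ∀ s ∈ S, Real.log (S.card / (A.card * cn S a b 0 s)) ≤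
      S.card / A.card * (1 / cn S a b 0 s) - 1 := by
    intro s hs
    have h3 := cn_pos (S := S) a b (q := 0) hs
    refine (Real.log_le_sub_one_of_pos (by positivity)).trans (le_of_eq ?_)
    field_simp
  have hlog' : ∑ s ∈ S, Real.log (S.card / (A.card * cn S a b 0 s)) ≤ 0 := by
    refine (Finset.sum_le_sum hlog).trans ?_
    rw [Finset.sum_sub_distrib, ← Finset.mul_sum, Finset.sum_const, nsmul_eq_mul, mul_one]
    have h4 : (S.card : ℝ) / A.card * ∑ s ∈ S, (1 : ℝ) / cn S a b 0 s ≤
        S.card / A.card * A.card := mul_le_mul_of_nonneg_left hsum (by positivity)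
    have h5 : (S.card : ℝ) / A.card * A.card = S.card := by field_simp
    linarith
  have hexp : ∑ s ∈ S, Real.log (S.card / (A.card * cn S a b 0 s)) =
      S.card * (Real.log S.card - Real.log A.card) - ∑ s ∈ S, Real.log (cn S a b 0 s) := by
    have h2 : ∀ s ∈ S, Real.log (S.card / (A.card * cn S a b 0 s)) =
        (Real.log S.card - Real.log A.card) - Real.log (cn S a b 0 s) := by
      intro s hs
      have h3 := cn_pos (S := S) a b (q := 0) hs
      rw [Real.log_div hSc.ne' (by positivity), Real.log_mul hAc.ne' h3.ne']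
      ring
    rw [Finset.sum_congr rfl h2, Finset.sum_sub_distrib, Finset.sum_const, nsmul_eq_mul]
  have hfin : Real.log (2 ^ L * A.card / S.card) =
      L * Real.log 2 + Real.log A.card - Real.log S.card := by
    rw [Real.log_div (by positivity) hSc.ne', Real.log_mul (by positivity) hAc.ne', Real.log_pow]
  rw [hfin]
  rw [hexp] at hlog'
  nlinarith

end Pool.Agent.SB3
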