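import Pool.Agent.Lib.SB3.GenW74

/-!
SB3: weighted form of ENT, and the comparison of two conditional entropies of a sign.
-/

set_option autoImplicit false

namespace Pool.Agent.SB3.W

open Finset Pool.Agent.SB3 Pool.Agent.SB3.Ent3

section

variable {α κ κ' : Type} {P : α → ℝ} {S : Finset α}

/-- mass of the class of `s` -/
noncomputable def mas (P : α → ℝ) (S : Finset α) (f : α → κ) (s : α) : ℝ :=
  ∑ s' ∈ fib S f s, P s'

theorem mas_pos74 (hP : ∀ s ∈ S, 0 < P s) (f : α → κ) {s : α} (hs : s ∈ S) :
    0 < mas P S f s := fib_pos74 hP f hs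

/-- the conditional probability of the sign of `s` given its label -/
theorem one_add74 (hP : ∀ s ∈ S, 0 < P s) (f : α → κ) (X : α → ℝ)
    (hX : ∀ s ∈ S, X s = 1 ∨ X s = -1) {s : α} (hs : s ∈ S) :
    1 + cavw P S f X s * X s = 2 * mas P S (fun s => (f s, X s)) s / mas P S f s := by
  classical
  have h0 := mas_pos74 hP f hs
  set T := fib S f s with hT
  have h1 : T.filter (fun s' => X s' = X s) = fib S (fun s => (f s, X s)) s := by
    ext x
    rw [Finset.mem_filter, hT, CE33_mem_fib, CE33_mem_fib, Prod.mk.injEq]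
    tauto
  have h2 : ∑ s' ∈ T, P s' * X s' =
      X s * (2 * mas P S (fun s => (f s, X s)) s - mas P S f s) := by
    have h3 : ∀ s' ∈ T, P s' * X s' = X s *
        (2 * (if X s' = X s then P s' else 0) - P s') := by
      intro s' hs'
      rcases hX s hs with h | h <;> rcases hX s' (CE33_mem_fib.1 hs').1 with h' | h' <;>
        rw [h, h'] <;> norm_num
      all_goals ring
    rw [Finset.sum_congr rfl h3, ← Finset.mul_sum, Finset.sum_sub_distrib, ← Finset.mul_sum,
      ← sum_filter, h1]
    rfl
  have h4 : cavw P S f X s = X s * (2 * mas P S (fun s => (f s, X s)) s - mas P S f s) /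
      mas P S f s := by
    unfold cavw
    rw [h2]
    rfl
  rw [h4]
  have h5 : X s * X s = 1 := by
    rcases hX s hs with h | h <;> rw [h] <;> norm_num
  field_simp
  linear_combination (2 * mas P S (fun s => (f s, X s)) s - mas P S f s) * h5

theorem one_add_pos74 (hP : ∀ s ∈ S, 0 < P s) (f : α → κ) (X : α → ℝ)
    (hX : ∀ s ∈ S, X s = 1 ∨ X s = -1) {s : α} (hs : s ∈ S) :
    0 < 1 + cavw P S f X s * X s := by
  rw [one_add74 hP f X hX hs]
  have h0 := mas_pos74 hP f hs
  have h1 := mas_pos74 hP (fun s => (f s, X s)) hs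
  positivity

theorem abs_le_of_sign74 {X : α → ℝ} (hX : ∀ s ∈ S, X s = 1 ∨ X s = -1) :
    ∀ s ∈ S, |X s| ≤ 1 := by
  intro s hs
  rcases hX s hs with h | h <;> rw [h] <;> norm_num

/-- comparison of the conditional entropies of a sign with respect to a label `f` and a finer
label `f'` -/
theorem ent_le74 (hP : ∀ s ∈ S, 0 < P s) (f : α → κ) (f' : α → κ') (X h : α → ℝ)
    (hX : ∀ s ∈ S, X s = 1 ∨ X s = -1) (hff : Mb S f' f) (hh : Mb S f' h)
    (h0 : ∀ s ∈ S, 0 ≤ h s) :
    ∑ s ∈ S, P s * (h s * Real.log ((1 + cavw P S f X s * X s) / 2)) ≤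
      ∑ s ∈ S, P s * (h s * (cavw P S f' X s ^ 2 - Real.log 2)) := by
  set m := cavw P S f X with hm
  set b := cavw P S f' X with hb
  have hmm : Mb S f' m := fun s hs s' hs' e => cavw_congr74 P S f X (hff s hs s' hs' e)
  have hbm : Mb S f' b := cavw_mb74 P S f' X
  have hb1 := cavw_abs74 hP f' X (abs_le_of_sign74 hX)
  have hm1 := cavw_abs74 hP f X (abs_le_of_sign74 hX)
  have hmp : ∀ s ∈ S, 0 < 1 + m s * X s := fun s hs => one_add_pos74 hP f X hX hs
  -- pointwise: `log (1 + m X) ≤ log (1 + b X) + (1 + m X)/(1 + b X) - 1` and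
  -- `(1 + m X)/(1 + b X)` has average at most one
  have hbp : ∀ s ∈ S, 0 < 1 + b s * X s := fun s hs => one_add_pos74 hP f' X hX hs
  have hlog : ∀ s ∈ S, Real.log ((1 + m s * X s) / 2) ≤ (b s * X s - Real.log 2) +
      ((1 + m s * X s) / (1 + b s * X s) - 1) := by
    intro s hs
    have e1 := Real.log_div (hmp s hs).ne' (two_ne_zero (α := ℝ))
    have e2 : Real.log (1 + m s * X s) = Real.log (1 + b s * X s) +
        Real.log ((1 + m s * X s) / (1 + b s * X s)) := by
      rw [Real.log_div (hmp s hs).ne' (hbp s hs).ne']; ring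
    have e3 := Real.log_le_sub_one_of_pos (div_pos (hmp s hs) (hbp s hs))
    have e4 := Real.log_le_sub_one_of_pos (hbp s hs)
    rw [e1, e2]
    linarith
  -- the ratio
  have hrat : ∀ s ∈ S, (1 + m s * X s) / (1 + b s * X s) - 1 ≤
      (if b s ^ 2 = 1 then 0 else (m s - b s) / (1 - b s ^ 2) * (X s - b s)) := by
    intro s hs
    have hp := hbp s hs
    have hx : X s ^ 2 = 1 := by rcases hX s hs with h | h <;> rw [h] <;> norm_num
    have hb2 := abs_le.1 (hb1 s hs)
    have hm2 := abs_le.1 (hm1 s hs)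
    split_ifs with hc
    · -- `b = ± 1`, and `X = b`
      have hbx : b s * X s = 1 := by
        have h2 : (b s * X s) ^ 2 = 1 := by rw [mul_pow, hc, hx, one_mul]
        have h3 : (b s * X s - 1) * (1 + b s * X s) = 0 := by nlinarith
        rcases mul_eq_zero.1 h3 with h4 | h4
        · linarith
        · exact absurd h4 hp.ne'
      rw [hbx]
      rcases hX s hs with h | h
      · rw [h]; linarith
      · rw [h]; linarith
    · have hc' : (1 : ℝ) - b s ^ 2 ≠ 0 := fun h => hc (by linarith)
      apply le_of_eq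
      have h5 : (m s - b s) / (1 - b s ^ 2) * (X s - b s) =
          (m s - b s) * (X s - b s) / (1 - b s ^ 2) := by ring
      have h6 : (1 + m s * X s) / (1 + b s * X s) - 1 = (m s - b s) * X s / (1 + b s * X s) := by
        rw [div_sub_one hp.ne']
        ring
      rw [h5, h6, div_eq_div_iff hp.ne' hc']
      linear_combination (-(m s - b s) * b s) * hx
  have horth : ∑ s ∈ S, P s * ((h s * (if b s ^ 2 = 1 then 0 else (m s - b s) / (1 - b s ^ 2))) *
      (X s - b s)) = 0 := by
    apply orth74 hP f' X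
    intro s hs s' hs' e
    dsimp only
    rw [hh s hs s' hs' e, hbm s hs s' hs' e, hmm s hs s' hs' e]
  have horth2 : ∑ s ∈ S, P s * ((h s * b s) * (X s - b s)) = 0 := by
    apply orth74 hP f' X
    intro s hs s' hs' e
    dsimp only
    rw [hh s hs s' hs' e, hbm s hs s' hs' e]
  calc ∑ s ∈ S, P s * (h s * Real.log ((1 + m s * X s) / 2))
      ≤ ∑ s ∈ S, (P s * (h s * (b s ^ 2 - Real.log 2)) + P s * ((h s * b s) * (X s - b s)) +
          P s * ((h s * (if b s ^ 2 = 1 then 0 else (m s - b s) / (1 - b s ^ 2))) *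
            (X s - b s))) := by
        apply sum_le_sum
        intro s hs
        have h1 := (hlog s hs).trans (add_le_add_right (hrat s hs) _)
        have h2 := mul_le_mul_of_nonneg_left h1 (mul_nonneg (hP s hs).le (h0 s hs))
        refine (le_of_eq (by ring)).trans (h2.trans (le_of_eq ?_))
        split_ifs <;> ring
    _ = ∑ s ∈ S, P s * (h s * (b s ^ 2 - Real.log 2)) := by
        rw [sum_add_distrib, sum_add_distrib, horth, horth2]; ring

end

section

variable {L : ℕ} {α κ : Type} {P : α → ℝ} {S : Finset α} (a : α → κ) (b : α → Y L)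

theorem mas_congr_iff74 {κ₁ κ₂ : Type} (f : α → κ₁) (g : α → κ₂) (s : α)
    (h : ∀ x, f x = f s ↔ g x = g s) : mas P S f s = mas P S g s := by
  unfold mas
  congr 1
  ext x
  rw [CE33_mem_fib, CE33_mem_fib, h]

/-- the conditional probability of coordinate `q` given `a` and the earlier coordinates -/
theorem one_add_bit74 (hP : ∀ s ∈ S, 0 < P s) {q : ℕ} (hq : q < L) {s : α} (hs : s ∈ S) :
    1 + cavw P S (fun s => (a s, pre q (b s))) (fun s => sgr (bit (b s) q)) s *
      sgr (bit (b s) q) = 2 * mas P S (fun s => (a s, pre (q + 1) (b s))) s /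
        mas P S (fun s => (a s, pre q (b s))) s := by
  rw [one_add74 hP _ _ (fun s _ => sgr_cases _) hs]
  congr 2
  apply mas_congr_iff74
  intro x
  simp only [Prod.mk.injEq, pre_succ_iff hq]
  have : sgr (bit (b x) q) = sgr (bit (b s) q) ↔ bit (b x) q = bit (b s) q := by
    constructor
    · intro h
      cases h1 : bit (b x) q <;> cases h2 : bit (b s) q <;> rw [h1, h2] at h <;>
        simp [sgr] at h <;> norm_num at h
    · intro h
      rw [h]
  rw [this]
  tauto

/-- ENTW -/
theorem entw74 (hP : ∀ s ∈ S, 0 < P s) (A : Finset κ) (r : κ → ℝ) (h1 : ∑ s ∈ S, P s = 1)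
    (hr : ∀ x ∈ A, 0 < r x) (hr1 : ∑ x ∈ A, r x ≤ 1) (hA : ∀ s ∈ S, a s ∈ A)
    (hinj : ∀ s ∈ S, ∀ s' ∈ S, a s = a s' → b s = b s' → s = s') :
    ∑ q ∈ range L, ∑ s ∈ S,
      P s * (cavw P S (fun s => (a s, pre q (b s))) (fun s => sgr (bit (b s) q)) s) ^ 2
      ≤ 2 * ∑ s ∈ S, P s * Real.log (2 ^ L * P s / r (a s)) := by
  classical
  set M : ℕ → α → ℝ := fun q s => mas P S (fun s => (a s, pre q (b s))) s with hM
  have hMp : ∀ q, ∀ s ∈ S, 0 < M q s := fun q s hs => mas_pos74 hP _ hs
  -- one coordinate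
  have hone : ∀ q ∈ range L, ∑ s ∈ S,
      P s * (cavw P S (fun s => (a s, pre q (b s))) (fun s => sgr (bit (b s) q)) s) ^ 2 ≤
      2 * ∑ s ∈ S, P s * Real.log (2 * M (q + 1) s / M q s) := by
    intro q hq
    set c := cavw P S (fun s => (a s, pre q (b s))) (fun s => sgr (bit (b s) q)) with hc
    set V : α → ℝ := fun s => (Real.log (1 + c s) - Real.log (1 - c s)) / 2 with hV
    have h2 : ∀ s ∈ S, P s * Real.log (2 * M (q + 1) s / M q s) =
        P s * (((1 + c s) * Real.log (1 + c s) + (1 - c s) * Real.log (1 - c s)) / 2) +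
        P s * (V s * (sgr (bit (b s) q) - c s)) := by
      intro s hs
      simp only [hM]
      rw [← one_add_bit74 a b hP (mem_range.1 hq) hs, hV]
      change P s * Real.log (1 + c s * sgr (bit (b s) q)) = _
      rcases sgr_cases (bit (b s) q) with h | h <;> rw [h]
      · rw [mul_one]; ring
      · rw [mul_neg_one, ← sub_eq_add_neg]; ring
    have h3 : ∑ s ∈ S, P s * (V s * (sgr (bit (b s) q) - c s)) = 0 := by
      refine orth74 hP (fun s => (a s, pre q (b s))) (fun s => sgr (bit (b s) q)) V ?_
      intro s _ s' _ hss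
      have : c s = c s' := cavw_congr74 P S _ _ hss
      simp only [hV, this]
    rw [Finset.sum_congr rfl h2, Finset.sum_add_distrib, h3, add_zero, Finset.mul_sum]
    refine Finset.sum_le_sum fun s hs => ?_
    have h4 := sq_le (cavw_abs74 hP (fun s => (a s, pre q (b s))) (fun s => sgr (bit (b s) q))
      (abs_le_of_sign74 (fun s _ => sgr_cases _)) s hs)
    have h5 := mul_le_mul_of_nonneg_left h4 (hP s hs).le
    refine h5.trans (le_of_eq ?_)
    ring
  refine (Finset.sum_le_sum hone).trans ?_
  rw [← Finset.mul_sum, Finset.sum_comm]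
  -- telescoping
  have hcL : ∀ s ∈ S, M L s = P s := by
    intro s hs
    simp only [hM]
    unfold mas
    have : fib S (fun s => (a s, pre L (b s))) s = {s} := by
      ext x
      rw [CE33_mem_fib, Finset.mem_singleton, Prod.mk.injEq, pre_self, pre_self]
      constructor
      · rintro ⟨h2, h3, h4⟩
        exact hinj x h2 s hs h3 h4
      · rintro rfl
        exact ⟨hs, rfl, rfl⟩
    rw [this, sum_singleton]
  have htel : ∀ s ∈ S, ∑ q ∈ range L, P s * Real.log (2 * M (q + 1) s / M q s) =
      P s * (L * Real.log 2 + Real.log (P s) - Real.log (M 0 s)) := by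
    intro s hs
    have h2 : ∀ q, Real.log (2 * M (q + 1) s / M q s) =
        Real.log 2 + (Real.log (M (q + 1) s) - Real.log (M q s)) := by
      intro q
      have h3 := hMp q s hs
      have h4 := hMp (q + 1) s hs
      rw [Real.log_div (by positivity) h3.ne', Real.log_mul (by norm_num) h4.ne']
      ring
    rw [← mul_sum, Finset.sum_congr rfl fun q _ => h2 q, Finset.sum_add_distrib,
      Finset.sum_const, Finset.card_range, nsmul_eq_mul,
      Finset.sum_range_sub (fun q => Real.log (M q s)), hcL s hs]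
    ring
  rw [Finset.sum_congr rfl htel]
  -- the distribution of `a`
  have hM0 : ∀ s, M 0 s = mas P S a s := by
    intro s
    simp only [hM]
    apply mas_congr_iff74
    intro x
    rw [Prod.mk.injEq]
    have := pre_zero (b x) (b s)
    tauto
  have hsum : ∑ s ∈ S, P s * (r (a s) / M 0 s) ≤ 1 := by
    refine le_trans ?_ hr1
    rw [← Finset.sum_fiberwise_of_maps_to (t := A) (g := a) hA]
    refine Finset.sum_le_sum fun k hk => ?_
    have h2 : ∀ s ∈ S.filter (fun s => a s = k), P s * (r (a s) / M 0 s) =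
        P s * (r k / ∑ x ∈ S.filter (fun s => a s = k), P x) := by
      intro s hs
      have h3 := (Finset.mem_filter.mp hs).2
      rw [hM0, h3]
      congr 2
      unfold mas
      congr 1
      ext x
      rw [CE33_mem_fib, mem_filter, h3]
    rw [Finset.sum_congr rfl h2, ← sum_mul]
    set w := ∑ x ∈ S.filter (fun s => a s = k), P x with hw
    have hw0 : 0 ≤ w := sum_nonneg fun x hx => (hP x (mem_filter.1 hx).1).le
    rcases hw0.eq_or_lt with h3 | h3
    · rw [← h3, zero_mul]
      exact (hr k hk).le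
    · apply le_of_eq
      field_simp
  have hlog : ∑ s ∈ S, P s * Real.log (r (a s) / M 0 s) ≤ 0 := by
    calc ∑ s ∈ S, P s * Real.log (r (a s) / M 0 s)
        ≤ ∑ s ∈ S, (P s * (r (a s) / M 0 s) - P s) := by
          refine Finset.sum_le_sum fun s hs => ?_
          have h3 := Real.log_le_sub_one_of_pos (div_pos (hr _ (hA s hs)) (hMp 0 s hs))
          have h4 := mul_le_mul_of_nonneg_left h3 (hP s hs).le
          linarith
      _ ≤ 0 := by
          rw [sum_sub_distrib, h1]
          linarith
  have hexp : ∀ s ∈ S, P s * (L * Real.log 2 + Real.log (P s) - Real.log (M 0 s)) =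
      P s * Real.log (2 ^ L * P s / r (a s)) + P s * Real.log (r (a s) / M 0 s) := by
    intro s hs
    have h3 := hP s hs
    have h4 := hr _ (hA s hs)
    have h5 := hMp 0 s hs
    rw [Real.log_div h4.ne' h5.ne', Real.log_div (by positivity) h4.ne',
      Real.log_mul (by positivity) h3.ne', Real.log_pow]
    ring
  rw [Finset.sum_congr rfl hexp, sum_add_distrib]
  linarith

end

end Pool.Agent.SB3.W
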