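import Pool.Agent.Lib.SB3.SetW74
import Pool.Agent.Lib.SB3.EntH74

/-!
SB3, module GMW: assembly of Theorem W with leaks (integers).
-/

set_option autoImplicit false

namespace Pool.Agent.SB3.W

open Finset Pool.Agent.SB3

theorem bound74 {ι : Type} (s : Finset ι) (f : ι → ℤ) : ∃ R : ℕ, ∀ i ∈ s, f i ≤ R := by
  refine ⟨∑ i ∈ s, (f i).natAbs, fun i hi => ?_⟩
  have h : (f i).natAbs ≤ ∑ i ∈ s, (f i).natAbs :=
    single_le_sum (f := fun i => (f i).natAbs) (fun _ _ => Nat.zero_le _) hi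
  have h2 : f i ≤ ((f i).natAbs : ℤ) := Int.le_natAbs
  have h3 : ((f i).natAbs : ℤ) ≤ ((∑ i ∈ s, (f i).natAbs : ℕ) : ℤ) := by exact_mod_cast h
  exact h2.trans h3

theorem logge74 {x : ℝ} (hx : 0 < x) (a : ℝ) : a + 1 - Real.exp a * x ≤ Real.log (1 / x) := by
  have h1 : Real.log (Real.exp a * x) ≤ Real.exp a * x - 1 :=
    Real.log_le_sub_one_of_pos (by positivity)
  rw [Real.log_mul (Real.exp_pos a).ne' hx.ne', Real.log_exp] at h1
  rw [one_div, Real.log_inv]
  linarith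

theorem psi_nonneg74 (x : ℝ) : 0 ≤ psi x := le_min (sq_nonneg _) (abs_nonneg _)

theorem abs_le_psi74 (x : ℝ) : |x| ≤ 1 + psi x := by
  unfold psi
  rcases le_total |x| 1 with h | h
  · have : 0 ≤ min (x ^ 2) |x| := le_min (sq_nonneg _) (abs_nonneg _)
    linarith
  · have h1 : |x| ≤ x ^ 2 := by
      rw [← sq_abs]; nlinarith
    rw [min_eq_right h1]
    linarith

theorem psi_mono74 {x y : ℝ} (h : |x| ≤ |y|) : psi x ≤ psi y := by
  unfold psi
  apply min_le_min _ h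
  rw [← sq_abs x, ← sq_abs y]
  exact pow_le_pow_left₀ (abs_nonneg _) h 2

theorem i1_nonneg74 (p : Prop) : 0 ≤ i1 p := by unfold i1; split_ifs <;> norm_num

theorem i1_le_one74 (p : Prop) : i1 p ≤ 1 := by unfold i1; split_ifs <;> norm_num

theorem i1_sq74 (p : Prop) : i1 p ^ 2 = i1 p := by unfold i1; split_ifs <;> norm_num

theorem Ey_mono74 {K : ℕ} {ρ f f' : Y K → Y K → ℝ} (hρ : ∀ y z, 0 < ρ y z)
    (h : ∀ y z, f y z ≤ f' y z) : Ey ρ f ≤ Ey ρ f' := by
  unfold Ey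
  apply sum_le_sum
  intro y _
  apply sum_le_sum
  intro z _
  exact mul_le_mul_of_nonneg_left (h y z) (hρ y z).le

theorem Ey_add74 {K : ℕ} (ρ f f' : Y K → Y K → ℝ) :
    Ey ρ (fun y z => f y z + f' y z) = Ey ρ f + Ey ρ f' := by
  unfold Ey
  rw [← sum_add_distrib]
  apply sum_congr rfl
  intro y _
  rw [← sum_add_distrib]
  apply sum_congr rfl
  intro z _
  ring

theorem Ey_smul74 {K : ℕ} (ρ f : Y K → Y K → ℝ) (a : ℝ) :
    Ey ρ (fun y z => a * f y z) = a * Ey ρ f := by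
  unfold Ey
  rw [mul_sum]
  apply sum_congr rfl
  intro y _
  rw [mul_sum]
  apply sum_congr rfl
  intro z _
  ring

theorem Ey_nonneg74 {K : ℕ} {ρ f : Y K → Y K → ℝ} (hρ : ∀ y z, 0 < ρ y z)
    (h : ∀ y z, 0 ≤ f y z) : 0 ≤ Ey ρ f := by
  unfold Ey
  exact sum_nonneg fun y _ => sum_nonneg fun z _ => mul_nonneg (hρ y z).le (h y z)

theorem ms_pos74 {K T : ℕ} {φ : ℤ → ℝ} {ρ : Y K → Y K → ℝ}
    (hP : ∀ ω ∈ SW K T, 0 < PW φ ρ ω) (W : OmW K → Prop) {ω : OmW K} (hω : ω ∈ SW K T)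
    (hW : W ω) : 0 < ms T φ ρ W := by
  classical
  unfold ms
  exact sum_pos (fun x hx => hP x (mem_filter.1 hx).1) ⟨ω, mem_filter.2 ⟨hω, hW⟩⟩

/-- `∑ √x √y ≤ √(∑ x) √(∑ y)` -/
theorem sqrt_cs74 {ι : Type} (s : Finset ι) (x y : ι → ℝ) (hx : ∀ i ∈ s, 0 ≤ x i)
    (hy : ∀ i ∈ s, 0 ≤ y i) :
    ∑ i ∈ s, Real.sqrt (x i) * Real.sqrt (y i) ≤
      Real.sqrt (∑ i ∈ s, x i) * Real.sqrt (∑ i ∈ s, y i) := by
  rw [← Real.sqrt_mul (sum_nonneg hx)]
  apply Real.le_sqrt_of_sq_le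
  have h := sum_mul_sq_le_sq_mul_sq s (fun i => Real.sqrt (x i)) (fun i => Real.sqrt (y i))
  have e1 : ∑ i ∈ s, Real.sqrt (x i) ^ 2 = ∑ i ∈ s, x i :=
    sum_congr rfl fun i hi => Real.sq_sqrt (hx i hi)
  have e2 : ∑ i ∈ s, Real.sqrt (y i) ^ 2 = ∑ i ∈ s, y i :=
    sum_congr rfl fun i hi => Real.sq_sqrt (hy i hi)
  rw [e1, e2] at h
  exact h

section bess

variable {K : ℕ} {P : OmW K → ℝ} {S : Finset (OmW K)}

/-- sum of the first error terms -/
theorem sumX1w74 (hP : ∀ ω ∈ S, 0 < P ω) (bt : ℕ → OmW K → ℝ) (f u : ℕ → ℕ → OmW K → ℝ)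
    (hf : ∀ p q, p < K → q < K → Mb S (labR p) (f p q))
    (hf1 : ∀ p q, p < K → q < K → ∀ ω ∈ S, |f p q ω| ≤ u p q ω) (hu : ∀ p q ω, u p q ω ^ 2 = u p q ω) :
    ∑ p ∈ range K, ∑ q ∈ range K, |∑ ω ∈ S, P ω * (bt q ω *
      ((sgr (bit ω.1 p) - cavw P S (labR p) (fun ω => sgr (bit ω.1 p)) ω) * f p q ω))| ≤
      Real.sqrt (∑ q ∈ range K, ∑ ω ∈ S, P ω * bt q ω ^ 2) *
        Real.sqrt (∑ p ∈ range K, ∑ q ∈ range K, ∑ ω ∈ S, P ω * u p q ω) := by
  classical
  rw [sum_comm]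
  have hu0 : ∀ p q ω, 0 ≤ u p q ω := fun p q ω => by rw [← hu]; exact sq_nonneg _
  have key : ∀ q ∈ range K, ∑ p ∈ range K, |∑ ω ∈ S, P ω * (bt q ω *
      ((sgr (bit ω.1 p) - cavw P S (labR p) (fun ω => sgr (bit ω.1 p)) ω) * f p q ω))| ≤
      Real.sqrt (∑ ω ∈ S, P ω * bt q ω ^ 2) *
        Real.sqrt (∑ p ∈ range K, ∑ ω ∈ S, P ω * u p q ω) := by
    intro q hq
    have h := besw74 (P := P) (S := S) hP K (fun p => labR p) (fun p ω => sgr (bit ω.1 p))
      (fun p ω => if p < K then f p q ω else 0) (bt q)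
      (fun p p' hpp s _ s' _ hs => by
        simp only [labR, Prod.mk.injEq] at hs ⊢
        refine ⟨hs.1, ?_⟩
        funext i
        by_cases hi : (i : ℕ) < p
        · have := congrFun hs.2 i
          simp only [pre, if_pos hi, if_pos (lt_of_lt_of_le hi hpp)] at this ⊢
          exact this
        · simp only [pre, if_neg hi])
      (fun p p' hpp s _ s' _ hs => by
        simp only [labR, Prod.mk.injEq] at hs
        change sgr (bit s.1 p) = sgr (bit s'.1 p)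
        congr 1
        unfold bit
        split_ifs with hp
        · have := congrFun hs.2 ⟨p, hp⟩
          simp only [pre, if_pos hpp] at this
          exact this
        · rfl)
      (fun p s hs s' hs' h => by
        by_cases hp : p < K
        · simp only [if_pos hp]; exact hf p q hp (mem_range.mp hq) s hs s' hs' h
        · simp only [if_neg hp])
      (fun p s _ => by cases bit s.1 p <;> simp [sgr])
    have e1 : ∑ p ∈ range K, |∑ ω ∈ S, P ω * (bt q ω *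
        ((sgr (bit ω.1 p) - cavw P S (labR p) (fun ω => sgr (bit ω.1 p)) ω) *
          (if p < K then f p q ω else 0)))| = ∑ p ∈ range K, |∑ ω ∈ S, P ω * (bt q ω *
      ((sgr (bit ω.1 p) - cavw P S (labR p) (fun ω => sgr (bit ω.1 p)) ω) * f p q ω))| := by
      refine Finset.sum_congr rfl fun p hp => ?_
      simp only [if_pos (mem_range.mp hp)]
    rw [e1] at h
    refine h.trans ?_
    apply mul_le_mul_of_nonneg_left _ (Real.sqrt_nonneg _)
    apply Real.sqrt_le_sqrt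
    apply sum_le_sum
    intro p hp
    apply sum_le_sum
    intro ω hω
    simp only [if_pos (mem_range.mp hp)]
    apply mul_le_mul_of_nonneg_left _ (hP ω hω).le
    rw [← sq_abs, ← hu p q ω]
    exact pow_le_pow_left₀ (abs_nonneg _) (hf1 p q (mem_range.mp hp) (mem_range.mp hq) ω hω) 2
  refine (sum_le_sum key).trans ?_
  refine (sqrt_cs74 (range K) _ _ ?_ ?_).trans (le_of_eq ?_)
  · intro q _
    exact sum_nonneg fun ω hω => mul_nonneg (hP ω hω).le (sq_nonneg _)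
  · intro q _
    exact sum_nonneg fun p _ => sum_nonneg fun ω hω => mul_nonneg (hP ω hω).le (hu0 _ _ _)
  · congr 2
    rw [sum_comm]

/-- sum of the second error terms -/
theorem sumX2w74 (hP : ∀ ω ∈ S, 0 < P ω) (G : ℕ → Y K → Y K → ℤ) (al : ℕ → OmW K → ℝ)
    (f u : ℕ → ℕ → OmW K → ℝ)
    (hf : ∀ p q, p < K → q < K → Mb S (labC G q) (f p q))
    (hf1 : ∀ p q, p < K → q < K → ∀ ω ∈ S, |f p q ω| ≤ u p q ω) (hu : ∀ p q ω, u p q ω ^ 2 = u p q ω) :
    ∑ p ∈ range K, ∑ q ∈ range K, |∑ ω ∈ S, P ω * (al p ω *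
      ((sgr (bit ω.2.1 q) - cavw P S (labC G q) (fun ω => sgr (bit ω.2.1 q)) ω) * f p q ω))| ≤
      Real.sqrt (∑ p ∈ range K, ∑ ω ∈ S, P ω * al p ω ^ 2) *
        Real.sqrt (∑ p ∈ range K, ∑ q ∈ range K, ∑ ω ∈ S, P ω * u p q ω) := by
  classical
  have hu0 : ∀ p q ω, 0 ≤ u p q ω := fun p q ω => by rw [← hu]; exact sq_nonneg _
  have key : ∀ p ∈ range K, ∑ q ∈ range K, |∑ ω ∈ S, P ω * (al p ω *
      ((sgr (bit ω.2.1 q) - cavw P S (labC G q) (fun ω => sgr (bit ω.2.1 q)) ω) * f p q ω))| ≤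
      Real.sqrt (∑ ω ∈ S, P ω * al p ω ^ 2) *
        Real.sqrt (∑ q ∈ range K, ∑ ω ∈ S, P ω * u p q ω) := by
    intro p hp
    have h := besw74 (P := P) (S := S) hP K (fun q => labC G q) (fun q ω => sgr (bit ω.2.1 q))
      (fun q ω => if q < K then f p q ω else 0) (al p)
      (fun q q' hqq s _ s' _ hs => by
        simp only [labC, Prod.mk.injEq] at hs ⊢
        refine ⟨hs.1, ?_⟩
        funext i
        by_cases hi : (i : ℕ) < q
        · have := congrFun hs.2 i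
          simp only [pre, if_pos hi, if_pos (lt_of_lt_of_le hi hqq)] at this ⊢
          exact this
        · simp only [pre, if_neg hi])
      (fun q q' hqq s _ s' _ hs => by
        simp only [labC, Prod.mk.injEq] at hs
        change sgr (bit s.2.1 q) = sgr (bit s'.2.1 q)
        congr 1
        unfold bit
        split_ifs with hq
        · have := congrFun hs.2 ⟨q, hq⟩
          simp only [pre, if_pos hqq] at this
          exact this
        · rfl)
      (fun q s hs s' hs' h => by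
        by_cases hq : q < K
        · simp only [if_pos hq]; exact hf p q (mem_range.mp hp) hq s hs s' hs' h
        · simp only [if_neg hq])
      (fun q s _ => by cases bit s.2.1 q <;> simp [sgr])
    have e1 : ∑ q ∈ range K, |∑ ω ∈ S, P ω * (al p ω *
        ((sgr (bit ω.2.1 q) - cavw P S (labC G q) (fun ω => sgr (bit ω.2.1 q)) ω) *
          (if q < K then f p q ω else 0)))| = ∑ q ∈ range K, |∑ ω ∈ S, P ω * (al p ω *
      ((sgr (bit ω.2.1 q) - cavw P S (labC G q) (fun ω => sgr (bit ω.2.1 q)) ω) *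
        f p q ω))| := by
      refine Finset.sum_congr rfl fun q hq => ?_
      simp only [if_pos (mem_range.mp hq)]
    rw [e1] at h
    refine h.trans ?_
    apply mul_le_mul_of_nonneg_left _ (Real.sqrt_nonneg _)
    apply Real.sqrt_le_sqrt
    apply sum_le_sum
    intro q hq
    apply sum_le_sum
    intro ω hω
    simp only [if_pos (mem_range.mp hq)]
    apply mul_le_mul_of_nonneg_left _ (hP ω hω).le
    rw [← sq_abs, ← hu p q ω]
    exact pow_le_pow_left₀ (abs_nonneg _) (hf1 p q (mem_range.mp hp) (mem_range.mp hq) ω hω) 2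
  refine (sum_le_sum key).trans ?_
  refine sqrt_cs74 (range K) _ _ ?_ ?_
  · intro q _
    exact sum_nonneg fun ω hω => mul_nonneg (hP ω hω).le (sq_nonneg _)
  · intro q _
    exact sum_nonneg fun p _ => sum_nonneg fun ω hω => mul_nonneg (hP ω hω).le (hu0 _ _ _)

/-- Cauchy-Schwarz for the sum of `u |x|` -/
theorem sumAw74 (hP : ∀ ω ∈ S, 0 < P ω) (x : ℕ → ℕ → OmW K → ℝ) (u : ℕ → ℕ → OmW K → ℝ)
    (hu : ∀ p q ω, u p q ω ^ 2 = u p q ω) :
    ∑ p ∈ range K, ∑ q ∈ range K, ∑ ω ∈ S, P ω * (u p q ω * |x p q ω|) ≤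
      Real.sqrt (∑ p ∈ range K, ∑ q ∈ range K, ∑ ω ∈ S, P ω * u p q ω) *
        Real.sqrt (∑ p ∈ range K, ∑ q ∈ range K, ∑ ω ∈ S, P ω * x p q ω ^ 2) := by
  have hu0 : ∀ p q ω, 0 ≤ u p q ω := fun p q ω => by rw [← hu]; exact sq_nonneg _
  have h1 : ∀ p ∈ range K, ∑ q ∈ range K, ∑ ω ∈ S, P ω * (u p q ω * |x p q ω|) ≤
      Real.sqrt (∑ q ∈ range K, ∑ ω ∈ S, P ω * u p q ω) *
        Real.sqrt (∑ q ∈ range K, ∑ ω ∈ S, P ω * x p q ω ^ 2) := by
    intro p _
    have h2 : ∀ q ∈ range K, ∑ ω ∈ S, P ω * (u p q ω * |x p q ω|) ≤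
        Real.sqrt (∑ ω ∈ S, P ω * u p q ω) * Real.sqrt (∑ ω ∈ S, P ω * x p q ω ^ 2) := by
      intro q _
      have h := csw74 hP (u p q) (fun ω => |x p q ω|)
      simp only [hu, sq_abs] at h
      exact h
    refine (sum_le_sum h2).trans (sqrt_cs74 (range K) _ _ ?_ ?_)
    · intro q _
      exact sum_nonneg fun ω hω => mul_nonneg (hP ω hω).le (hu0 _ _ _)
    · intro q _
      exact sum_nonneg fun ω hω => mul_nonneg (hP ω hω).le (sq_nonneg _)
  refine (sum_le_sum h1).trans (sqrt_cs74 (range K) _ _ ?_ ?_)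
  · intro q _
    exact sum_nonneg fun p _ => sum_nonneg fun ω hω => mul_nonneg (hP ω hω).le (hu0 _ _ _)
  · intro q _
    exact sum_nonneg fun p _ => sum_nonneg fun ω hω => mul_nonneg (hP ω hω).le (sq_nonneg _)

end bess

/-- final arithmetic -/
theorem numw74 {e N Kr k En Lk D δ Kc Qs : ℝ} (he : 1 ≤ e) (hN : 0 ≤ N) (hK : 1 ≤ Kr)
    (hk : 0 ≤ k) (hEn : 0 ≤ En) (hLk : 0 ≤ Lk) (hD : 0 < D) (hδ : 0 ≤ δ)
    (hKc : Kc = k + 6 * En + 2 * Kr * δ)
    (h1 : 3 * N ≤ e * Qs + Kr * (k + En) + Lk / D)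
    (h2 : Qs ≤ 18 * (Real.sqrt N * Real.sqrt (2 * (Kr * Kc))) + 350 * (Lk / D)) :
    N ≤ 2000 * e ^ 2 * (Kr * (k + En) + 1 / D * Lk) + 200 * e ^ 2 * Kr ^ 2 * δ := by
  have hKc0 : 0 ≤ Kc := by rw [hKc]; positivity
  have hx : 0 ≤ Lk / D := by positivity
  have hs1 := Real.sq_sqrt hN
  have hs2 := Real.sq_sqrt (show 0 ≤ 2 * (Kr * Kc) by positivity)
  set x := Real.sqrt N
  set y := Real.sqrt (2 * (Kr * Kc))
  have h3 : e * (18 * (x * y)) ≤ N + 162 * e ^ 2 * (Kr * Kc) := by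
    have : 0 ≤ (x - 9 * e * y) ^ 2 := sq_nonneg _
    nlinarith
  have h4 : e * Qs ≤ e * (18 * (x * y)) + 350 * e * (Lk / D) := by
    have := mul_le_mul_of_nonneg_left h2 (by linarith : 0 ≤ e)
    linarith
  have h5 : 2 * N ≤ 162 * e ^ 2 * (Kr * Kc) + 350 * e * (Lk / D) + Kr * (k + En) + Lk / D := by
    linarith
  have h6 : Kr * Kc ≤ 6 * (Kr * (k + En)) + 2 * Kr ^ 2 * δ := by
    rw [hKc]
    have : 0 ≤ Kr * k := by positivity
    nlinarith
  have he2 : e ≤ e ^ 2 := by nlinarith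
  have he3 : 1 ≤ e ^ 2 := by nlinarith
  have hz : 0 ≤ Kr * (k + En) := by positivity
  have h7 : 162 * e ^ 2 * (Kr * Kc) ≤ 162 * e ^ 2 * (6 * (Kr * (k + En)) + 2 * Kr ^ 2 * δ) :=
    mul_le_mul_of_nonneg_left h6 (by positivity)
  have h8 : 350 * e * (Lk / D) ≤ 350 * e ^ 2 * (Lk / D) := by
    apply mul_le_mul_of_nonneg_right _ hx
    linarith
  have h9 : Kr * (k + En) ≤ e ^ 2 * (Kr * (k + En)) := le_mul_of_one_le_left hz he3
  have h10 : Lk / D ≤ e ^ 2 * (Lk / D) := le_mul_of_one_le_left hx he3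
  have h11 : 0 ≤ e ^ 2 * (Kr * (k + En)) := by positivity
  have h12 : 0 ≤ e ^ 2 * (Lk / D) := by positivity
  have h13 : 0 ≤ e ^ 2 * (Kr ^ 2 * δ) := by positivity
  have e1 : 1 / D * Lk = Lk / D := by ring
  rw [e1]
  nlinarith

/-- GMW -/
theorem gmw_74 (hnoi : StNoi) (hms : StMsW) (hzb : StZBW) (hkey : StKeyW) (hql : StQLW)
    (hch : StChW) (hbud : StBudW) : StW := by
  classical
  refine ⟨2000 * Real.exp 24 ^ 2, by positivity, ?_⟩
  intro K D ρ G g t c w hK hD hρ hρ1 hdep hc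
  set e : ℝ := Real.exp 24 with he
  have he1 : 1 ≤ e := Real.one_le_exp (by norm_num)
  have hKr : (1 : ℝ) ≤ K := by exact_mod_cast hK
  have hK0 : (0 : ℝ) < K := by linarith
  have hDr : (1 : ℝ) ≤ D := by exact_mod_cast hD
  have hD0 : (0 : ℝ) < D := by linarith
  have hsK : 1 ≤ Real.sqrt K := by rw [Real.one_le_sqrt]; exact hKr
  have hsK0 : 0 < Real.sqrt K := by linarith
  set En : ℝ := ∑ j ∈ range (2 * K), Ey ρ (fun y z => psi ((G j y z : ℝ) / (D * Real.sqrt K)))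
    with hEn
  set Lk : ℝ := ∑ p ∈ range K, ∑ q ∈ range K, Ey ρ (fun y z => i1 (w p q y z) *
          (lk1 G g t w p q y z + lk0 G g t c p q y z)) with hLk
  set N : ℝ := ∑ p ∈ range K, ∑ q ∈ range K, Ey ρ (fun y z => i1 (w p q y z)) with hN
  apply le_of_forall_pos_le_add
  intro η hη
  -- the noise
  set δ : ℝ := η / (200 * e ^ 2 * K ^ 2) with hδ
  have hδ0 : 0 < δ := by positivity
  obtain ⟨M, hMdef⟩ : ∃ M : ℕ, M = ⌈(D : ℝ) * Real.sqrt K⌉₊ := ⟨_, rfl⟩
  have hDs : 1 ≤ (D : ℝ) * Real.sqrt K := by nlinarith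
  have hMlow : (D : ℝ) * Real.sqrt K ≤ M := by rw [hMdef]; exact Nat.le_ceil _
  have hMup : (M : ℝ) ≤ 2 * (D * Real.sqrt K) := by
    have h := (Nat.ceil_lt_add_one (show 0 ≤ (D : ℝ) * Real.sqrt K by positivity)).le
    rw [← hMdef] at h
    linarith
  have hMr : (1 : ℝ) ≤ M := hDs.trans hMlow
  have hM : 1 ≤ M := by exact_mod_cast hMr
  have hM0 : (0 : ℝ) < M := by linarith
  have hDM : (D : ℝ) ≤ M := by nlinarith
  obtain ⟨R1, hR1⟩ := bound74 (range (2 * K) ×ˢ (univ : Finset (Y K × Y K)))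
    (fun x => |G x.1 x.2.1 x.2.2|)
  obtain ⟨R2, hR2⟩ := bound74 ((range K ×ˢ range K) ×ˢ (univ : Finset (Y K × Y K)))
    (fun x => |g x.1.1 (x.1.1 + x.1.2) x.2.1 x.2.2| + |t x.1.1 x.1.2 x.1.2 x.2.1 x.2.2| +
      |c x.1.1 x.1.2 x.2.1 x.2.2| + M)
  set R : ℕ := R1 + R2 with hR
  obtain ⟨T, φ, r, hNoi⟩ := hnoi M R δ hM hδ0
  obtain ⟨hP, hE, -⟩ := hms K T φ ρ hNoi.phi_pos hNoi.phi_sum hρ
  set S := SW K T with hS
  set P := PW (K := K) φ ρ with hPd
  -- budgets
  obtain ⟨b1, b2⟩ := hbud K M T R δ φ r ρ G hM hδ0 hNoi hρ hρ1 (by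
    intro j hj y z
    have h := hR1 (j, (y, z)) (mem_product.2 ⟨mem_range.2 hj, mem_univ _⟩)
    simp only at h
    rw [hR]
    push_cast
    linarith [h, (Int.natCast_nonneg R2)])
  have hpsi : ∑ j ∈ range (2 * K), Ey ρ (fun y z => psi ((G j y z : ℝ) / M)) ≤ En := by
    apply sum_le_sum
    intro j _
    apply Ey_mono74 hρ
    intro y z
    apply psi_mono74
    rw [abs_div, abs_div, abs_of_pos hM0, abs_of_pos (show 0 < (D : ℝ) * Real.sqrt K by positivity)]
    exact div_le_div_of_nonneg_left (abs_nonneg _) (by positivity) hMlow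
  have hEn0 : 0 ≤ En := sum_nonneg fun j _ => Ey_nonneg74 hρ fun y z => psi_nonneg74 _
  set k := klr ρ with hk
  set a2 : ℝ := ∑ p ∈ range K, ∑ ω ∈ S, P ω * alp T φ ρ p ω ^ 2 with ha2
  set b3 : ℝ := ∑ q ∈ range K, ∑ ω ∈ S, P ω * bet T φ ρ G q ω ^ 2 with hb3
  have ha20 : 0 ≤ a2 := sum_nonneg fun p _ => sum_nonneg fun ω hω =>
    mul_nonneg (hP ω hω).le (sq_nonneg _)
  have hk0 : 0 ≤ k := by linarith
  set Kc : ℝ := k + 6 * En + 2 * K * δ with hKc
  have hKd : 0 ≤ 2 * (K : ℝ) * δ := mul_nonneg (mul_nonneg (by norm_num) hK0.le) hδ0.le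
  have hKc0 : 0 ≤ Kc := by rw [hKc]; linarith
  have hA : a2 ≤ 2 * Kc := by
    have : 0 ≤ 6 * En + 2 * K * δ := by linarith
    linarith
  have hB : b3 ≤ 2 * Kc := by
    have h1 : k + 6 * ∑ j ∈ range (2 * K), Ey ρ (fun y z => psi ((G j y z : ℝ) / M)) +
        2 * K * δ ≤ Kc := by
      rw [hKc]; linarith
    linarith
  -- the leaks
  set L0 : ℝ := ∑ p ∈ range K, ∑ q ∈ range K, Ey ρ (fun y z => i1 (w p q y z) *
          lk0 G g t c p q y z) with hL0
  set L1 : ℝ := ∑ p ∈ range K, ∑ q ∈ range K, Ey ρ (fun y z => i1 (w p q y z) *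
          lk1 G g t w p q y z) with hL1
  have hLk01 : Lk = L1 + L0 := by
    rw [hLk, hL1, hL0, ← sum_add_distrib]
    apply sum_congr rfl
    intro p _
    rw [← sum_add_distrib]
    apply sum_congr rfl
    intro q _
    rw [← Ey_add74]
    congr 1
    funext y z
    ring
  have hlk0 : ∀ p q y z, 0 ≤ lk0 G g t c p q y z := fun p q y z => abs_nonneg _
  have hlk1 : ∀ p q y z, 0 ≤ lk1 G g t w p q y z := fun p q y z =>
    sum_nonneg fun i _ => mul_nonneg (i1_nonneg74 _) (abs_nonneg _)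
  have hL00 : 0 ≤ L0 := sum_nonneg fun p _ => sum_nonneg fun q _ => Ey_nonneg74 hρ fun y z =>
    mul_nonneg (i1_nonneg74 _) (hlk0 p q y z)
  have hL10 : 0 ≤ L1 := sum_nonneg fun p _ => sum_nonneg fun q _ => Ey_nonneg74 hρ fun y z =>
    mul_nonneg (i1_nonneg74 _) (hlk1 p q y z)
  have hN0 : 0 ≤ N := sum_nonneg fun p _ => sum_nonneg fun q _ => Ey_nonneg74 hρ fun y z =>
    i1_nonneg74 _
  -- `N` as a sum over the sample space
  have hNS : ∑ p ∈ range K, ∑ q ∈ range K, ∑ ω ∈ S, P ω * i1 (w p q ω.1 ω.2.1) = N := by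
    rw [hN]
    apply sum_congr rfl
    intro p _
    apply sum_congr rfl
    intro q _
    exact hE (fun y z => i1 (w p q y z))
  -- KEY
  set ka : ℝ := (D : ℝ) / (M + 6 * D) with hka
  have hka0 : 0 < ka := by rw [hka]; positivity
  have hka1 : 1 ≤ 8 * Real.sqrt K * ka := by
    rw [hka, mul_div_assoc', le_div_iff₀ (by positivity)]
    nlinarith [mul_pos hD0 hsK0]
  have hka2 : 1 ≤ 7 * M / D * ka := by
    rw [hka, div_mul_div_comm, le_div_iff₀ (by positivity)]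
    nlinarith [mul_pos hD0 hM0]
  have hk1 : ∀ p q, ∃ f₁ f₂ : OmW K → ℝ, p < K → q < K →
        Mb S (labR p) f₁ ∧ Mb S (labC G q) f₂ ∧
        (∀ ω ∈ S, |f₁ ω| ≤ i1 (w p q ω.1 ω.2.1)) ∧
        (∀ ω ∈ S, |f₂ ω| ≤ i1 (w p q ω.1 ω.2.1)) ∧
        ka * ms T φ ρ (fun ω => w p q ω.1 ω.2.1 ∧
            ObW g p ω (p + q) / (M : ℤ) = mo M T φ ρ g w p q (labP M g w p q ω)) ≤
          ka * ∑ ω ∈ S, P ω * (i1 (w p q ω.1 ω.2.1) *
            (|alp T φ ρ p ω| + |bet T φ ρ G q ω|)) +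
          |∑ ω ∈ S, P ω * (bet T φ ρ G q ω * ((sgr (bit ω.1 p) - alp T φ ρ p ω) * f₁ ω))| +
          |∑ ω ∈ S, P ω * (alp T φ ρ p ω * ((sgr (bit ω.2.1 q) - bet T φ ρ G q ω) * f₂ ω))| +
          5 * ka / D * ∑ ω ∈ S, P ω * (i1 (w p q ω.1 ω.2.1) *
            lk0 G g t c p q ω.1 ω.2.1) +
          5 * ms T φ ρ (fun ω => w p q ω.1 ω.2.1 ∧ labP M g w p q ω ≠ labT M G t w p q ω) := by
    intro p q
    by_cases h : p < K ∧ q < K
    · obtain ⟨f₁, f₂, h'⟩ := hkey K M T D φ ρ G g t c w hD hM hP hdep hc p q h.1 h.2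
      exact ⟨f₁, f₂, fun _ _ => h'⟩
    · exact ⟨0, 0, fun h1 h2 => absurd ⟨h1, h2⟩ h⟩
  choose f₁ f₂ hf using hk1
  set u : ℕ → ℕ → OmW K → ℝ := fun p q ω => i1 (w p q ω.1 ω.2.1) with hu
  have hu2 : ∀ p q ω, u p q ω ^ 2 = u p q ω := fun p q ω => i1_sq74 _
  set X1 : ℕ → ℕ → ℝ := fun p q => |∑ ω ∈ S, P ω * (bet T φ ρ G q ω *
    ((sgr (bit ω.1 p) - alp T φ ρ p ω) * f₁ p q ω))| with hX1
  set X2 : ℕ → ℕ → ℝ := fun p q => |∑ ω ∈ S, P ω * (alp T φ ρ p ω *
    ((sgr (bit ω.2.1 q) - bet T φ ρ G q ω) * f₂ p q ω))| with hX2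
  set Tm : ℕ → ℕ → ℝ := fun p q => ∑ ω ∈ S, P ω * (i1 (w p q ω.1 ω.2.1) *
    Qf M T φ ρ g w p q ω) with hTm
  have hwmeas : ∀ p q, p < K → q < K → Mb S (labP M g w p q) (fun ω => w p q ω.1 ω.2.1) := by
    intro p q _ _ ω _ ω' _ h
    have h1 := (Prod.mk.inj h).1
    have h2 := (Prod.mk.inj (Prod.mk.inj h).2).1
    exact propext (hdep.w_dep p q _ _ _ _ h1 h2)
  have hTmms : ∀ p q, p < K → q < K → Tm p q = ms T φ ρ (fun ω => w p q ω.1 ω.2.1 ∧
            ObW g p ω (p + q) / (M : ℤ) = mo M T φ ρ g w p q (labP M g w p q ω)) := by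
    intro p q hp hq
    exact (hql K M T φ ρ g w p q hP).2.2 (fun ω => w p q ω.1 ω.2.1) (hwmeas p q hp hq)
  have hpt : ∀ p ∈ range K, ∀ q ∈ range K, ka * Tm p q ≤
      ka * ∑ ω ∈ S, P ω * (u p q ω * |alp T φ ρ p ω|) +
      ka * ∑ ω ∈ S, P ω * (u p q ω * |bet T φ ρ G q ω|) + X1 p q + X2 p q +
        (5 * ka / D * Ey ρ (fun y z => i1 (w p q y z) * lk0 G g t c p q y z) +
         50 / M * Ey ρ (fun y z => i1 (w p q y z) * lk1 G g t w p q y z)) := by
    intro p hp q hq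
    have hp' := mem_range.1 hp
    have hq' := mem_range.1 hq
    have h := (hf p q hp' hq').2.2.2.2
    have hz := hzb K M T R δ φ r ρ G g t w hM hNoi hρ p q hp' hq'
    rw [hTmms p q hp' hq']
    have e1 : ∑ ω ∈ S, P ω * (i1 (w p q ω.1 ω.2.1) * (|alp T φ ρ p ω| + |bet T φ ρ G q ω|)) =
        ∑ ω ∈ S, P ω * (u p q ω * |alp T φ ρ p ω|) +
          ∑ ω ∈ S, P ω * (u p q ω * |bet T φ ρ G q ω|) := by
      rw [← sum_add_distrib]
      apply sum_congr rfl
      intro ω _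
      simp only [hu]
      ring
    have e2 : ∑ ω ∈ S, P ω * (i1 (w p q ω.1 ω.2.1) * lk0 G g t c p q ω.1 ω.2.1) =
        Ey ρ (fun y z => i1 (w p q y z) * lk0 G g t c p q y z) :=
      hE (fun y z => i1 (w p q y z) * lk0 G g t c p q y z)
    rw [e1, e2, mul_add] at h
    have e3 : 5 * (10 / (M : ℝ) * Ey ρ (fun y z => i1 (w p q y z) * lk1 G g t w p q y z)) =
        50 / M * Ey ρ (fun y z => i1 (w p q y z) * lk1 G g t w p q y z) := by ring
    simp only [hX1, hX2]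
    linarith
  have hsum := Finset.sum_le_sum fun p hp => Finset.sum_le_sum (hpt p hp)
  -- the four sums
  have sN : Real.sqrt (∑ p ∈ range K, ∑ q ∈ range K, ∑ ω ∈ S, P ω * u p q ω) = Real.sqrt N := by
    rw [← hNS]
  have sA : ∑ p ∈ range K, ∑ q ∈ range K, ∑ ω ∈ S, P ω * (u p q ω * |alp T φ ρ p ω|) ≤
      Real.sqrt N * Real.sqrt (2 * (K * Kc)) := by
    refine (sumAw74 hP (fun p _ ω => alp T φ ρ p ω) u hu2).trans ?_
    rw [sN]
    apply mul_le_mul_of_nonneg_left _ (Real.sqrt_nonneg _)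
    apply Real.sqrt_le_sqrt
    have e1 : ∑ p ∈ range K, ∑ _q ∈ range K, ∑ ω ∈ S, P ω * alp T φ ρ p ω ^ 2 = K * a2 := by
      rw [ha2, mul_sum]
      apply sum_congr rfl
      intro p _
      rw [sum_const, card_range, nsmul_eq_mul]
    rw [e1]
    nlinarith
  have sB : ∑ p ∈ range K, ∑ q ∈ range K, ∑ ω ∈ S, P ω * (u p q ω * |bet T φ ρ G q ω|) ≤
      Real.sqrt N * Real.sqrt (2 * (K * Kc)) := by
    refine (sumAw74 hP (fun _ q ω => bet T φ ρ G q ω) u hu2).trans ?_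
    rw [sN]
    apply mul_le_mul_of_nonneg_left _ (Real.sqrt_nonneg _)
    apply Real.sqrt_le_sqrt
    have e1 : ∑ _p ∈ range K, ∑ q ∈ range K, ∑ ω ∈ S, P ω * bet T φ ρ G q ω ^ 2 = K * b3 := by
      rw [hb3, sum_const, card_range, nsmul_eq_mul]
    rw [e1]
    nlinarith
  have sX : Real.sqrt (2 * Kc) ≤ 8 * Real.sqrt (2 * (K * Kc)) * ka := by
    have e1 : Real.sqrt (2 * (K * Kc)) = Real.sqrt K * Real.sqrt (2 * Kc) := by
      rw [← Real.sqrt_mul hK0.le]; congr 1; ring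
    rw [e1]
    have h1 := mul_le_mul_of_nonneg_left hka1 (Real.sqrt_nonneg (2 * Kc))
    linarith
  have sX1 : ∑ p ∈ range K, ∑ q ∈ range K, X1 p q ≤
      8 * (Real.sqrt N * Real.sqrt (2 * (K * Kc))) * ka := by
    have h := sumX1w74 (K := K) hP (fun q ω => bet T φ ρ G q ω) f₁ u
      (fun p q hp hq => (hf p q hp hq).1) (fun p q hp hq => (hf p q hp hq).2.2.1) hu2
    rw [sN] at h
    have h2 : Real.sqrt b3 * Real.sqrt N ≤ 8 * (Real.sqrt N * Real.sqrt (2 * (K * Kc))) * ka := by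
      have h3 : Real.sqrt b3 ≤ 8 * Real.sqrt (2 * (K * Kc)) * ka :=
        (Real.sqrt_le_sqrt hB).trans sX
      have h4 := mul_le_mul_of_nonneg_right h3 (Real.sqrt_nonneg N)
      linarith
    exact h.trans h2
  have sX2 : ∑ p ∈ range K, ∑ q ∈ range K, X2 p q ≤
      8 * (Real.sqrt N * Real.sqrt (2 * (K * Kc))) * ka := by
    have h := sumX2w74 (K := K) hP G (fun p ω => alp T φ ρ p ω) f₂ u
      (fun p q hp hq => (hf p q hp hq).2.1) (fun p q hp hq => (hf p q hp hq).2.2.2.1) hu2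
    rw [sN] at h
    have h2 : Real.sqrt a2 * Real.sqrt N ≤ 8 * (Real.sqrt N * Real.sqrt (2 * (K * Kc))) * ka := by
      have h3 : Real.sqrt a2 ≤ 8 * Real.sqrt (2 * (K * Kc)) * ka :=
        (Real.sqrt_le_sqrt hA).trans sX
      have h4 := mul_le_mul_of_nonneg_right h3 (Real.sqrt_nonneg N)
      linarith
    exact h.trans h2
  set Qs : ℝ := ∑ p ∈ range K, ∑ q ∈ range K, Tm p q with hQs
  have hQ : Qs ≤ 18 * (Real.sqrt N * Real.sqrt (2 * (K * Kc))) + 350 * (Lk / D) := by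
    have h1 : ∑ p ∈ range K, ∑ q ∈ range K, ka * Tm p q = ka * Qs := by
      simp only [hQs, Finset.mul_sum]
    have h2 : ∑ p ∈ range K, ∑ q ∈ range K, (ka * ∑ ω ∈ S, P ω * (u p q ω * |alp T φ ρ p ω|) +
      ka * ∑ ω ∈ S, P ω * (u p q ω * |bet T φ ρ G q ω|) + X1 p q + X2 p q +
        (5 * ka / D * Ey ρ (fun y z => i1 (w p q y z) * lk0 G g t c p q y z) +
         50 / M * Ey ρ (fun y z => i1 (w p q y z) * lk1 G g t w p q y z))) =
        ka * ∑ p ∈ range K, ∑ q ∈ range K, ∑ ω ∈ S, P ω * (u p q ω * |alp T φ ρ p ω|) +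
        ka * ∑ p ∈ range K, ∑ q ∈ range K, ∑ ω ∈ S, P ω * (u p q ω * |bet T φ ρ G q ω|) +
        ∑ p ∈ range K, ∑ q ∈ range K, X1 p q + ∑ p ∈ range K, ∑ q ∈ range K, X2 p q +
        (5 * ka / D * L0 + 50 / M * L1) := by
      simp only [sum_add_distrib]
      simp only [← mul_sum]
      rfl
    rw [h1, h2] at hsum
    have h3 : 50 / (M : ℝ) * L1 ≤ 350 * (L1 / D) * ka := by
      have h4 := mul_le_mul_of_nonneg_left hka2 (show 0 ≤ 50 / (M : ℝ) * L1 from mul_nonneg (div_nonneg (by norm_num) hM0.le) hL10)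
      have h5 : 50 / (M : ℝ) * L1 * (7 * M / D * ka) = 350 * (L1 / D) * ka := by
        field_simp
        ring
      linarith
    have h6 : 5 * ka / D * L0 = 5 * (L0 / D) * ka := by ring
    have hLD0 : 0 ≤ L0 / D := div_nonneg hL00 hD0.le
    have h7 : ka * Qs ≤ ka * (18 * (Real.sqrt N * Real.sqrt (2 * (K * Kc))) + 350 * (Lk / D)) := by
      have h8 := mul_le_mul_of_nonneg_left sA hka0.le
      have h9 := mul_le_mul_of_nonneg_left sB hka0.le
      have h10 : Lk / D = L1 / D + L0 / D := by rw [hLk01, add_div]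
      rw [h10]
      nlinarith [mul_nonneg hka0.le hLD0]
    exact le_of_mul_le_mul_left h7 hka0
  -- the lower bound
  have hlow : 3 * N ≤ e * Qs + K * (k + En) + Lk / D := by
    have h1 : ∀ p ∈ range K, 25 * ∑ q ∈ range K, ∑ ω ∈ S, P ω * i1 (w p q ω.1 ω.2.1) -
        e * ∑ q ∈ range K, Tm p q ≤ k + (22 * ∑ q ∈ range K, Ey ρ (fun y z => i1 (w p q y z)) +
          En + 1 / D * ∑ q ∈ range K, Ey ρ (fun y z => i1 (w p q y z) * lk0 G g t c p q y z)) := by
      intro p hp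
      have hp' := mem_range.1 hp
      have hchp := hch K M T R δ φ r ρ g t c w hM hNoi hρ hρ1 hdep (by
        intro p q hp hq y z
        have h := hR2 ((p, q), (y, z)) (mem_product.2 ⟨mem_product.2 ⟨mem_range.2 hp,
          mem_range.2 hq⟩, mem_univ _⟩)
        simp only at h
        rw [hR]
        push_cast
        linarith [h, (Int.natCast_nonneg R1)]) p hp'
      have hl : 25 * ∑ q ∈ range K, ∑ ω ∈ S, P ω * i1 (w p q ω.1 ω.2.1) -
          e * ∑ q ∈ range K, Tm p q ≤ ∑ q ∈ range K, ∑ ω ∈ S, P ω *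
          (i1 (w p q ω.1 ω.2.1) * Real.log (1 / piW M T φ ρ g w p q ω)) := by
        rw [mul_sum, mul_sum, ← sum_sub_distrib]
        apply sum_le_sum
        intro q hq
        have hq' := mem_range.1 hq
        simp only [hTm]
        rw [mul_sum, mul_sum, ← sum_sub_distrib]
        apply sum_le_sum
        intro ω hω
        have hQp := (hql K M T φ ρ g w p q hP).1 ω hω
        have hmo := (hql K M T φ ρ g w p q hP).2.1 (labP M g w p q ω)
          (ObW g p ω (p + q) / (M : ℤ))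
        -- positivity of `piW`
        have hden : 0 < ms T φ ρ (fun ω' => labP M g w p q ω' = labP M g w p q ω) :=
          ms_pos74 hP _ hω rfl
        have hnum : 0 < mlr M T φ ρ g w p q (labP M g w p q ω) (ObW g p ω (p + q) / (M : ℤ)) :=
          ms_pos74 hP _ hω ⟨rfl, rfl⟩
        have hpi0 : 0 < piW M T φ ρ g w p q ω := div_pos hnum hden
        have hpiQ : piW M T φ ρ g w p q ω ≤ Qf M T φ ρ g w p q ω :=
          div_le_div_of_nonneg_right hmo hden.le
        have hlog : 25 - e * Qf M T φ ρ g w p q ω ≤ Real.log (1 / piW M T φ ρ g w p q ω) := by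
          have h2 := logge74 hQp.1 24
          have h3 : Real.log (1 / Qf M T φ ρ g w p q ω) ≤ Real.log (1 / piW M T φ ρ g w p q ω) :=
            Real.log_le_log (one_div_pos.2 hQp.1) (one_div_le_one_div_of_le hpi0 hpiQ)
          rw [he]
          linarith
        have h4 := mul_le_mul_of_nonneg_left hlog (i1_nonneg74 (w p q ω.1 ω.2.1))
        have h5 := mul_le_mul_of_nonneg_left h4 (hP ω hω).le
        linarith
      refine hl.trans (hchp.trans ?_)
      apply add_le_add_right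
      -- the right hand side of CHW
      have h2 : ∑ q ∈ range K, Ey ρ (fun y z => i1 (w p q y z) *
          (21 + |((g p (p + q) y z + t p q q y z +
            sgi (bit y p) * sgi (bit z q) * c p q y z : ℤ) : ℝ)| / M)) ≤
          ∑ q ∈ range K, (22 * Ey ρ (fun y z => i1 (w p q y z)) +
            Ey ρ (fun y z => psi ((G (p + q) y z : ℝ) / M)) +
            1 / D * Ey ρ (fun y z => i1 (w p q y z) * lk0 G g t c p q y z)) := by
        apply sum_le_sum
        intro q _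
        rw [← Ey_smul74, ← Ey_smul74, ← Ey_add74, ← Ey_add74]
        apply Ey_mono74 hρ
        intro y z
        have h3 : |((g p (p + q) y z + t p q q y z +
            sgi (bit y p) * sgi (bit z q) * c p q y z : ℤ) : ℝ)| ≤
            |(G (p + q) y z : ℝ)| + lk0 G g t c p q y z := by
          unfold lk0
          have h4 : ((g p (p + q) y z + t p q q y z +
              sgi (bit y p) * sgi (bit z q) * c p q y z : ℤ) : ℝ) = (G (p + q) y z : ℝ) -
              ((G (p + q) y z - g p (p + q) y z - t p q q y z -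
                sgi (bit y p) * sgi (bit z q) * c p q y z : ℤ) : ℝ) := by
            push_cast; ring
          rw [h4]
          exact abs_sub _ _
        have h5 : |((g p (p + q) y z + t p q q y z +
            sgi (bit y p) * sgi (bit z q) * c p q y z : ℤ) : ℝ)| / M ≤
            |(G (p + q) y z : ℝ) / M| + 1 / D * lk0 G g t c p q y z := by
          have h6 := div_le_div_of_nonneg_right h3 hM0.le
          rw [add_div] at h6
          have h7 : lk0 G g t c p q y z / M ≤ 1 / D * lk0 G g t c p q y z := by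
            rw [one_div_mul_eq_div]
            exact div_le_div_of_nonneg_left (hlk0 p q y z) hD0 hDM
          rw [abs_div, abs_of_pos hM0]
          linarith
        have h8 := abs_le_psi74 ((G (p + q) y z : ℝ) / M)
        have hi0 := i1_nonneg74 (w p q y z)
        have hi1 := i1_le_one74 (w p q y z)
        have h9 : 21 + |((g p (p + q) y z + t p q q y z +
            sgi (bit y p) * sgi (bit z q) * c p q y z : ℤ) : ℝ)| / M ≤
            22 + psi ((G (p + q) y z : ℝ) / M) + 1 / D * lk0 G g t c p q y z := by linarith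
        have h10 := mul_le_mul_of_nonneg_left h9 hi0
        have h11 : i1 (w p q y z) * psi ((G (p + q) y z : ℝ) / M) ≤
            psi ((G (p + q) y z : ℝ) / M) := mul_le_of_le_one_left (psi_nonneg74 _) hi1
        linarith
      refine h2.trans ?_
      rw [sum_add_distrib, sum_add_distrib, ← mul_sum, ← mul_sum]
      have h3 : ∑ q ∈ range K, Ey ρ (fun y z => psi ((G (p + q) y z : ℝ) / M)) ≤ En := by
        refine le_trans ?_ hpsi
        have h4 : ∑ q ∈ range K, Ey ρ (fun y z => psi ((G (p + q) y z : ℝ) / M)) =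
            ∑ j ∈ (range K).image (fun q => p + q), Ey ρ (fun y z => psi ((G j y z : ℝ) / M)) := by
          rw [sum_image]
          intro a _ b _ h
          exact Nat.add_left_cancel h
        rw [h4]
        apply sum_le_sum_of_subset_of_nonneg
        · intro j hj
          obtain ⟨q, hq, rfl⟩ := mem_image.1 hj
          rw [mem_range] at hq ⊢
          omega
        · intro j _ _
          exact Ey_nonneg74 hρ fun y z => psi_nonneg74 _
      linarith
    have h2 := sum_le_sum h1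
    have e1 : ∑ p ∈ range K, (25 * ∑ q ∈ range K, ∑ ω ∈ S, P ω * i1 (w p q ω.1 ω.2.1) -
        e * ∑ q ∈ range K, Tm p q) = 25 * N - e * Qs := by
      rw [sum_sub_distrib, ← mul_sum, ← mul_sum, hNS]
    have e2 : ∑ p ∈ range K, (k + (22 * ∑ q ∈ range K, Ey ρ (fun y z => i1 (w p q y z)) +
          En + 1 / D * ∑ q ∈ range K, Ey ρ (fun y z => i1 (w p q y z) * lk0 G g t c p q y z))) =
        K * k + (22 * N + K * En + 1 / D * L0) := by
      rw [sum_add_distrib, sum_add_distrib, sum_add_distrib, ← mul_sum, ← mul_sum, sum_const,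
        sum_const, card_range, nsmul_eq_mul, nsmul_eq_mul]
    rw [e1, e2] at h2
    have h3 : 1 / (D : ℝ) * L0 ≤ Lk / D := by
      rw [one_div_mul_eq_div, hLk01]
      apply div_le_div_of_nonneg_right _ hD0.le
      linarith
    linarith
  have hfin := numw74 he1 hN0 hKr hk0 hEn0 (by rw [hLk01]; linarith : 0 ≤ Lk) hD0 hδ0.le hKc
    hlow hQ
  have e3 : 200 * e ^ 2 * (K : ℝ) ^ 2 * δ = η := by
    rw [hδ]
    field_simp
  rw [e3] at hfin
  exact hfin

end Pool.Agent.SB3.W
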