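import Pool.Agent.Lib.SB3.CE33
import Pool.Agent.Lib.SB3.Ent3

/-!
SB3: weighted forms of the general finite part (CE, BES, ENT, STAR and the comparison of two
conditional entropies). `P` is a positive weight on the finite set `S`.
-/

set_option autoImplicit false

namespace Pool.Agent.SB3.W

open Finset Pool.Agent.SB3

/-- weighted average over the points of `S` with the same label -/
noncomputable def cavw {α κ : Type} (P : α → ℝ) (S : Finset α) (f : α → κ) (X : α → ℝ) (s : α) :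
    ℝ := (∑ s' ∈ fib S f s, P s' * X s') / (∑ s' ∈ fib S f s, P s')

section

variable {α κ κ' : Type} {P : α → ℝ} {S : Finset α}

theorem fib_pos74 (hP : ∀ s ∈ S, 0 < P s) (f : α → κ) {s : α} (hs : s ∈ S) :
    0 < ∑ s' ∈ fib S f s, P s' := by
  apply sum_pos
  · intro x hx
    exact hP x (CE33_mem_fib.1 hx).1
  · exact ⟨s, CE33_mem_fib.2 ⟨hs, rfl⟩⟩

theorem cavw_congr74 (P : α → ℝ) (S : Finset α) (f : α → κ) (X : α → ℝ) {s s' : α}
    (h : f s = f s') : cavw P S f X s = cavw P S f X s' := by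
  unfold cavw
  rw [CE33_fib_congr S f h]

theorem cavw_mb74 (P : α → ℝ) (S : Finset α) (f : α → κ) (X : α → ℝ) :
    Mb S f (cavw P S f X) :=
  fun _ _ _ _ h => cavw_congr74 P S f X h

theorem sum_cavw74 (hP : ∀ s ∈ S, 0 < P s) (f : α → κ) (X h : α → ℝ) (hh : Mb S f h) :
    ∑ s ∈ S, P s * (h s * cavw P S f X s) = ∑ s ∈ S, P s * (h s * X s) := by
  classical
  have e1 : ∀ s ∈ S, P s * (h s * cavw P S f X s) =
      ∑ s' ∈ S, if f s' = f s then P s * (h s' * (P s' * X s') / (∑ x ∈ fib S f s', P x))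
        else 0 := by
    intro s hs
    unfold cavw
    rw [← mul_div_assoc, mul_sum, sum_div, mul_sum, ← sum_filter]
    apply sum_congr rfl
    intro s' hs'
    rw [CE33_mem_fib] at hs'
    rw [hh s hs s' hs'.1 hs'.2.symm, CE33_fib_congr S f hs'.2]
  rw [sum_congr rfl e1, sum_comm]
  apply sum_congr rfl
  intro s' hs'
  rw [← sum_filter, ← sum_mul]
  have e2 : S.filter (fun s => f s' = f s) = fib S f s' := by
    ext x
    rw [mem_filter, CE33_mem_fib, eq_comm]
  rw [e2]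
  have := (fib_pos74 hP f hs').ne'
  field_simp

theorem orth74 (hP : ∀ s ∈ S, 0 < P s) (f : α → κ) (X h : α → ℝ) (hh : Mb S f h) :
    ∑ s ∈ S, P s * (h s * (X s - cavw P S f X s)) = 0 := by
  have e : ∀ s ∈ S, P s * (h s * (X s - cavw P S f X s)) =
      P s * (h s * X s) - P s * (h s * cavw P S f X s) := by
    intro s _; ring
  rw [sum_congr rfl e, sum_sub_distrib, sum_cavw74 hP f X h hh, sub_self]

theorem cavw_abs74 (hP : ∀ s ∈ S, 0 < P s) (f : α → κ) (X : α → ℝ) (hX : ∀ s ∈ S, |X s| ≤ 1) :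
    ∀ s ∈ S, |cavw P S f X s| ≤ 1 := by
  intro s hs
  have h0 := fib_pos74 hP f hs
  unfold cavw
  rw [abs_div, abs_of_pos h0, div_le_one h0]
  calc |∑ s' ∈ fib S f s, P s' * X s'| ≤ ∑ s' ∈ fib S f s, |P s' * X s'| :=
        abs_sum_le_sum_abs _ _
    _ ≤ ∑ s' ∈ fib S f s, P s' := by
        apply sum_le_sum
        intro s' hs'
        have h1 := (CE33_mem_fib.1 hs').1
        rw [abs_mul, abs_of_pos (hP s' h1)]
        exact mul_le_of_le_one_right (hP s' h1).le (hX s' h1)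

theorem var74 (hP : ∀ s ∈ S, 0 < P s) (f : α → κ) (X h : α → ℝ) (hh : Mb S f h)
    (hX : ∀ s ∈ S, |X s| ≤ 1) :
    ∑ s ∈ S, P s * ((X s - cavw P S f X s) * h s) ^ 2 ≤ ∑ s ∈ S, P s * h s ^ 2 := by
  have hm : Mb S f (fun s => h s ^ 2 * cavw P S f X s) := by
    intro s hs s' hs' e
    dsimp only
    rw [hh s hs s' hs' e, cavw_congr74 P S f X e]
  have a1 := orth74 hP f X (fun s => h s ^ 2 * cavw P S f X s) hm
  calc ∑ s ∈ S, P s * ((X s - cavw P S f X s) * h s) ^ 2
      ≤ ∑ s ∈ S, (P s * h s ^ 2 -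
          2 * (P s * (h s ^ 2 * cavw P S f X s * (X s - cavw P S f X s)))) := by
        apply sum_le_sum
        intro s hs
        have h1 : X s ^ 2 ≤ 1 := by rw [sq_le_one_iff_abs_le_one]; exact hX s hs
        have h2 : 0 ≤ P s * h s ^ 2 := mul_nonneg (hP s hs).le (sq_nonneg _)
        have h3 := mul_le_mul_of_nonneg_left h1 h2
        have h4 : 0 ≤ P s * h s ^ 2 * cavw P S f X s ^ 2 := mul_nonneg h2 (sq_nonneg _)
        nlinarith
    _ = ∑ s ∈ S, P s * h s ^ 2 := by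
        rw [sum_sub_distrib, ← mul_sum, a1]; ring

/-! ### Bessel -/

theorem bessel74 (P : α → ℝ) (S : Finset α) (n : ℕ) (W : ℕ → α → ℝ)
    (orth : ∀ p p', p < p' → ∑ s ∈ S, P s * (W p s * W p' s) = 0) :
    ∑ s ∈ S, P s * (∑ p ∈ range n, W p s) ^ 2 = ∑ p ∈ range n, ∑ s ∈ S, P s * W p s ^ 2 := by
  induction n with
  | zero => simp
  | succ n ih =>
    rw [sum_range_succ, ← ih]
    have e : ∀ s ∈ S, P s * (∑ p ∈ range (n + 1), W p s) ^ 2 =
        P s * (∑ p ∈ range n, W p s) ^ 2 + P s * W n s ^ 2 +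
          2 * ∑ p ∈ range n, P s * (W p s * W n s) := by
      intro s _
      rw [sum_range_succ, ← mul_sum, ← sum_mul]
      ring
    rw [sum_congr rfl e, sum_add_distrib, sum_add_distrib, ← mul_sum, sum_comm]
    have e2 : ∑ p ∈ range n, ∑ s ∈ S, P s * (W p s * W n s) = 0 :=
      sum_eq_zero fun p hp => orth p n (mem_range.1 hp)
    rw [e2]; ring

/-- Cauchy-Schwarz for the weight `P` -/
theorem csw74 (hP : ∀ s ∈ S, 0 < P s) (f g : α → ℝ) :
    ∑ s ∈ S, P s * (f s * g s) ≤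
      Real.sqrt (∑ s ∈ S, P s * f s ^ 2) * Real.sqrt (∑ s ∈ S, P s * g s ^ 2) := by
  rw [← Real.sqrt_mul (sum_nonneg fun s hs => mul_nonneg (hP s hs).le (sq_nonneg _))]
  apply Real.le_sqrt_of_sq_le
  have h := sum_mul_sq_le_sq_mul_sq S (fun s => Real.sqrt (P s) * f s)
    (fun s => Real.sqrt (P s) * g s)
  have e1 : ∀ s ∈ S, Real.sqrt (P s) * f s * (Real.sqrt (P s) * g s) = P s * (f s * g s) := by
    intro s hs
    have := Real.mul_self_sqrt (hP s hs).le
    linear_combination (f s * g s) * this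
  have e2 : ∀ (k : α → ℝ), ∀ s ∈ S, (Real.sqrt (P s) * k s) ^ 2 = P s * k s ^ 2 := by
    intro k s hs
    rw [mul_pow, Real.sq_sqrt (hP s hs).le]
  rw [sum_congr rfl e1, sum_congr rfl (e2 f), sum_congr rfl (e2 g)] at h
  exact h

/-- BESW -/
theorem besw74 (hP : ∀ s ∈ S, 0 < P s) (n : ℕ) (R : ℕ → α → κ) (X f : ℕ → α → ℝ) (β : α → ℝ)
    (hR : ∀ p p', p ≤ p' → Mb S (R p') (R p)) (hX : ∀ p p', p < p' → Mb S (R p') (X p))
    (hf : ∀ p, Mb S (R p) (f p)) (hX1 : ∀ p, ∀ s ∈ S, |X p s| ≤ 1) :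
    ∑ p ∈ range n, |∑ s ∈ S, P s * (β s * ((X p s - cavw P S (R p) (X p) s) * f p s))| ≤
      Real.sqrt (∑ s ∈ S, P s * β s ^ 2) *
        Real.sqrt (∑ p ∈ range n, ∑ s ∈ S, P s * f p s ^ 2) := by
  -- signs
  set A : ℕ → ℝ := fun p => ∑ s ∈ S, P s * (β s * ((X p s - cavw P S (R p) (X p) s) * f p s))
    with hA
  set ε : ℕ → ℝ := fun p => if 0 ≤ A p then 1 else -1 with hε
  have hε1 : ∀ p, ε p * A p = |A p| := by
    intro p
    rw [hε]
    dsimp only
    split_ifs with h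
    · rw [one_mul, abs_of_nonneg h]
    · rw [neg_one_mul, abs_of_neg (not_le.1 h)]
  have hε2 : ∀ p, ε p ^ 2 = 1 := by
    intro p
    rw [hε]
    dsimp only
    split_ifs <;> norm_num
  set V : ℕ → α → ℝ := fun p s => (X p s - cavw P S (R p) (X p) s) * (ε p * f p s) with hV
  have orth : ∀ p p', p < p' → ∑ s ∈ S, P s * (V p s * V p' s) = 0 := by
    intro p p' hpp
    have hm : Mb S (R p') (fun s => V p s * (ε p' * f p' s)) := by
      intro s hs s' hs' e
      have h1 := hR p p' hpp.le s hs s' hs' e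
      simp only [hV]
      rw [hX p p' hpp s hs s' hs' e, cavw_congr74 P S (R p) (X p) h1, hf p s hs s' hs' h1,
        hf p' s hs s' hs' e]
    have h := orth74 hP (R p') (X p') _ hm
    rw [← h]
    apply sum_congr rfl
    intro s _
    simp only [hV]
    ring
  have h1 : ∑ p ∈ range n, |A p| = ∑ s ∈ S, P s * (β s * ∑ p ∈ range n, V p s) := by
    have e1 : ∀ s ∈ S, P s * (β s * ∑ p ∈ range n, V p s) =
        ∑ p ∈ range n, P s * (β s * V p s) := by
      intro s _
      rw [mul_sum, mul_sum]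
    rw [sum_congr rfl e1, sum_comm]
    apply sum_congr rfl
    intro p _
    rw [← hε1 p, hA]
    dsimp only
    rw [mul_sum]
    apply sum_congr rfl
    intro s _
    simp only [hV]
    ring
  change ∑ p ∈ range n, |A p| ≤ _
  rw [h1]
  refine (csw74 hP β (fun s => ∑ p ∈ range n, V p s)).trans ?_
  apply mul_le_mul_of_nonneg_left _ (Real.sqrt_nonneg _)
  apply Real.sqrt_le_sqrt
  rw [bessel74 P S n V orth]
  apply sum_le_sum
  intro p _
  have hm : Mb S (R p) (fun s => ε p * f p s) := by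
    intro s hs s' hs' e
    dsimp only
    rw [hf p s hs s' hs' e]
  have h2 := var74 hP (R p) (X p) (fun s => ε p * f p s) hm (hX1 p)
  refine h2.trans (le_of_eq ?_)
  apply sum_congr rfl
  intro s _
  rw [mul_pow, hε2 p, one_mul]

/-! ### the identity -/

/-- STARW with an error term -/
theorem starw74 (hP : ∀ s ∈ S, 0 < P s) (R : α → κ) (C : α → κ')
    (η ζ u F A B : α → ℝ) (hη : ∀ s ∈ S, η s = 1 ∨ η s = -1) (hζ : ∀ s ∈ S, ζ s = 1 ∨ ζ s = -1)
    (hRζ : Mb S R ζ) (hCη : Mb S C η) (hRu : Mb S R u)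
    (hCu : Mb S C u) (hRF : Mb S R F) (hCA : Mb S C A)
    (hF : ∀ s ∈ S, F s = A s - η s * ζ s * u s * B s) :
    ∑ s ∈ S, P s * ((1 - cavw P S R η s * η s) * (1 - cavw P S C ζ s * ζ s) * (u s ^ 2 * B s)) =
      ∑ s ∈ S, P s * (cavw P S C ζ s * ((η s - cavw P S R η s) * (u s * F s))) -
      ∑ s ∈ S, P s * (cavw P S R η s * ((ζ s - cavw P S C ζ s) * (u s * A s))) := by
  set a := cavw P S R η with ha
  set b := cavw P S C ζ with hb
  have h1 : ∑ s ∈ S, P s * ((ζ s * u s * F s) * (η s - a s)) = 0 := by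
    apply orth74 hP R η (fun s => ζ s * u s * F s)
    intro s hs s' hs' e
    dsimp only
    rw [hRζ s hs s' hs' e, hRu s hs s' hs' e, hRF s hs s' hs' e]
  have h2 : ∑ s ∈ S, P s * ((η s * u s * A s) * (ζ s - b s)) = 0 := by
    apply orth74 hP C ζ (fun s => η s * u s * A s)
    intro s hs s' hs' e
    dsimp only
    rw [hCη s hs s' hs' e, hCu s hs s' hs' e, hCA s hs s' hs' e]
  have key : ∑ s ∈ S, (P s * ((1 - a s * η s) * (1 - b s * ζ s) * (u s ^ 2 * B s)) -
      P s * (b s * ((η s - a s) * (u s * F s))) + P s * (a s * ((ζ s - b s) * (u s * A s)))) =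
      ∑ s ∈ S, (P s * ((η s * u s * A s) * (ζ s - b s)) -
        P s * ((ζ s * u s * F s) * (η s - a s))) := by
    apply sum_congr rfl
    intro s hs
    have e1 : η s ^ 2 = 1 := by rcases hη s hs with h | h <;> rw [h] <;> norm_num
    have e2 : ζ s ^ 2 = 1 := by rcases hζ s hs with h | h <;> rw [h] <;> norm_num
    rw [hF s hs]
    linear_combination (P s * (ζ s * u s ^ 2 * B s * b s - ζ s ^ 2 * u s ^ 2 * B s)) * e1 +
      (P s * (a s * η s * u s ^ 2 * B s - u s ^ 2 * B s)) * e2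
  rw [sum_sub_distrib, h1, h2, sub_zero, sum_add_distrib, sum_sub_distrib] at key
  linarith

end

end Pool.Agent.SB3.W
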