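import Pool.Agent.Lib.SB3.Set74

/-! SB3, module MEAS: measurability. -/

set_option autoImplicit false

namespace Pool.Agent.SB3

open Finset

namespace Meas7

lemma labR_eq {K M : ℕ} {p : ℕ} {ω ω' : Om K M} (h : labR p ω = labR p ω') :
    ω.2.1 = ω'.2.1 ∧ ω.2.2 = ω'.2.2 ∧ pre p ω.1 = pre p ω'.1 := by
  unfold labR at h
  simp only [Prod.mk.injEq] at h
  exact ⟨h.1.1, h.1.2, h.2⟩

lemma labC_eq {K M : ℕ} {G : ℕ → Y K → Y K → ℤ} {q : ℕ} {ω ω' : Om K M}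
    (h : labC G q ω = labC G q ω') :
    ω.1 = ω'.1 ∧ (∀ j < 2 * K, Gam G ω j = Gam G ω' j) ∧ pre q ω.2.1 = pre q ω'.2.1 := by
  unfold labC at h
  simp only [Prod.mk.injEq] at h
  refine ⟨h.1.1, fun j hj => ?_, h.2⟩
  exact congrFun h.1.2 ⟨j, hj⟩

end Meas7

theorem meas_7 : StMeas := by
  intro K M D lam E G g t c w hS p q hp hq
  have hOb : ∀ {ω ω' : Om K M}, labR p ω = labR p ω' → ∀ j, Ob g p ω j = Ob g p ω' j := by
    intro ω ω' h j
    obtain ⟨h1, h2, h3⟩ := Meas7.labR_eq h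
    unfold Ob
    rw [h1, h2, hS.g_dep p j _ _ _ h3]
  have hTt : ∀ {ω ω' : Om K M}, labC G q ω = labC G q ω' → ∀ i, p + i < 2 * K →
      Tt G t p q i ω = Tt G t p q i ω' := by
    intro ω ω' h i hi
    obtain ⟨h1, h2, h3⟩ := Meas7.labC_eq h
    unfold Tt
    rw [h2 _ hi, h1, hS.t_dep p q i _ _ _ h3]
  refine ⟨?_, ?_, ?_, ?_, ?_, ?_, ?_, ?_, ?_⟩
  · intro ω _ ω' _ h
    obtain ⟨h1, h2, h3⟩ := Meas7.labR_eq h
    unfold labP
    simp only [Prod.mk.injEq]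
    refine ⟨h3, by rw [h1], ?_⟩
    funext i
    rw [hOb h]
  · intro ω _ ω' _ h
    obtain ⟨h1, h2, h3⟩ := Meas7.labC_eq h
    unfold labT
    simp only [Prod.mk.injEq]
    refine ⟨by rw [h1], h3, ?_⟩
    funext i
    by_cases hi : (i : ℕ) < q
    · rw [if_pos hi, if_pos hi, hTt h _ (by omega)]
    · rw [if_neg hi, if_neg hi]
  · intro ω _ ω' _ h
    exact hOb h _
  · intro ω _ ω' _ h
    exact hTt h _ (by omega)
  · intro ω _ ω' _ h
    obtain ⟨h1, h2, h3⟩ := Meas7.labR_eq h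
    exact hS.c_dep p q _ _ _ _ h3 (by rw [h1])
  · intro ω _ ω' _ h
    obtain ⟨h1, h2, h3⟩ := Meas7.labR_eq h
    exact propext (hS.w_dep p q _ _ _ _ h3 (by rw [h1]))
  · intro ω _ ω' _ h
    obtain ⟨h1, h2, h3⟩ := Meas7.labC_eq h
    exact hS.c_dep p q _ _ _ _ (by rw [h1]) h3
  · intro ω _ ω' _ h
    obtain ⟨h1, h2, h3⟩ := Meas7.labC_eq h
    exact propext (hS.w_dep p q _ _ _ _ (by rw [h1]) h3)
  · intro ω _ ω' _ h
    unfold labP at h
    simp only [Prod.mk.injEq] at h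
    exact propext (hS.w_dep p q _ _ _ _ h.1 h.2.1)

end Pool.Agent.SB3
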