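import Pool.Agent.Lib.SB3.SetW74

/-!
SB3, Theorem W with leaks, module QLW: basic properties of the largest conditional probability of a
cell.
-/

set_option autoImplicit false

namespace Pool.Agent.SB3.W

open Finset Pool.Agent.SB3

theorem amaxr90 (f : ℤ → ℝ) (I : Finset ℤ) (h0 : ∀ o, 0 ≤ f o) (hI : ∀ o, o ∉ I → f o = 0)
    (o : ℤ) : f o ≤ f (amaxr f) := by
  classical
  have h : ∃ o, ∀ o', f o' ≤ f o := by
    obtain ⟨o₁, _, ho₁⟩ := Finset.exists_max_image (insert 0 I) f ⟨0, Finset.mem_insert_self 0 I⟩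
    refine ⟨o₁, fun o' => ?_⟩
    by_cases ho : o' ∈ insert 0 I
    · exact ho₁ o' ho
    · rw [hI o' (fun h => ho (Finset.mem_insert_of_mem h))]
      exact h0 _
  unfold amaxr
  rw [dif_pos h]
  exact h.choose_spec o

section

variable {K M T : ℕ} {φ : ℤ → ℝ} {ρ : Y K → Y K → ℝ} {g : ℕ → ℕ → Y K → Y K → ℤ}
  {w : ℕ → ℕ → Y K → Y K → Prop} {p q : ℕ}

theorem ms_nonneg90 (hP : ∀ ω ∈ SW K T, 0 < PW φ ρ ω) (W : OmW K → Prop) : 0 ≤ ms T φ ρ W := by
  classical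
  unfold ms
  exact Finset.sum_nonneg fun ω hω => (hP ω (Finset.mem_filter.1 hω).1).le

theorem ms_mono90 (hP : ∀ ω ∈ SW K T, 0 < PW φ ρ ω) {W W' : OmW K → Prop}
    (h : ∀ ω ∈ SW K T, W ω → W' ω) : ms T φ ρ W ≤ ms T φ ρ W' := by
  classical
  unfold ms
  refine Finset.sum_le_sum_of_subset_of_nonneg ?_ fun ω hω _ => (hP ω (Finset.mem_filter.1 hω).1).le
  intro ω hω
  rw [Finset.mem_filter] at hω ⊢
  exact ⟨hω.1, h ω hω.1 hω.2⟩

theorem ms_pos90 (hP : ∀ ω ∈ SW K T, 0 < PW φ ρ ω) {W : OmW K → Prop} {ω : OmW K}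
    (hω : ω ∈ SW K T) (hW : W ω) : 0 < ms T φ ρ W := by
  classical
  unfold ms
  exact Finset.sum_pos (fun x hx => hP x (Finset.mem_filter.1 hx).1)
    ⟨ω, Finset.mem_filter.2 ⟨hω, hW⟩⟩

theorem ms_eq90 (W : OmW K → Prop) : ms T φ ρ W = ∑ ω ∈ SW K T, PW φ ρ ω * i1 (W ω) := by
  classical
  unfold ms i1
  rw [Finset.sum_filter]
  refine Finset.sum_congr rfl fun ω _ => ?_
  split_ifs
  · rw [mul_one]
  · rw [mul_zero]

theorem mlr_le90 (hP : ∀ ω ∈ SW K T, 0 < PW φ ρ ω) (l : Y K × Y K × (Fin K → ℤ)) (r : ℤ) :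
    mlr M T φ ρ g w p q l r ≤ mlr M T φ ρ g w p q l (mo M T φ ρ g w p q l) := by
  classical
  refine amaxr90 (mlr M T φ ρ g w p q l)
    ((SW K T).image fun ω => ObW g p ω (p + q) / (M : ℤ)) (fun o => ms_nonneg90 hP _) ?_ r
  intro o ho
  unfold mlr
  rw [ms_eq90]
  refine Finset.sum_eq_zero fun ω hω => ?_
  have : ¬ (labP M g w p q ω = l ∧ ObW g p ω (p + q) / (M : ℤ) = o) := fun h =>
    ho (Finset.mem_image.2 ⟨ω, hω, h.2⟩)
  unfold i1
  rw [if_neg this, mul_zero]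

theorem Qf_pos90 (hP : ∀ ω ∈ SW K T, 0 < PW φ ρ ω) {ω : OmW K} (hω : ω ∈ SW K T) :
    0 < Qf M T φ ρ g w p q ω := by
  unfold Qf
  refine div_pos ?_ (ms_pos90 hP hω rfl)
  refine lt_of_lt_of_le ?_ (mlr_le90 hP (labP M g w p q ω) (ObW g p ω (p + q) / (M : ℤ)))
  exact ms_pos90 hP hω ⟨rfl, rfl⟩

theorem Qf_le_one90 (hP : ∀ ω ∈ SW K T, 0 < PW φ ρ ω) {ω : OmW K} (_hω : ω ∈ SW K T) :
    Qf M T φ ρ g w p q ω ≤ 1 := by
  unfold Qf
  refine div_le_one_of_le₀ ?_ (ms_nonneg90 hP _)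
  exact ms_mono90 hP fun _ _ h => h.1

/-- the largest conditional probability as a conditional average -/
theorem Qf_cavw90 (ω : OmW K) : Qf M T φ ρ g w p q ω =
    cavw (PW φ ρ) (SW K T) (labP M g w p q)
      (fun ω => i1 (ObW g p ω (p + q) / (M : ℤ) = mo M T φ ρ g w p q (labP M g w p q ω))) ω := by
  classical
  unfold Qf cavw
  have e1 : mlr M T φ ρ g w p q (labP M g w p q ω) (mo M T φ ρ g w p q (labP M g w p q ω)) =
      ∑ s' ∈ fib (SW K T) (labP M g w p q) ω, PW φ ρ s' *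
        i1 (ObW g p s' (p + q) / (M : ℤ) = mo M T φ ρ g w p q (labP M g w p q s')) := by
    unfold mlr
    rw [ms_eq90]
    unfold fib
    rw [Finset.sum_filter]
    refine Finset.sum_congr rfl fun s _ => ?_
    by_cases h : labP M g w p q s = labP M g w p q ω
    · rw [if_pos h, h]
      congr 2
      simp only [true_and]
    · rw [if_neg h]
      have : ¬ (labP M g w p q s = labP M g w p q ω ∧ ObW g p s (p + q) / (M : ℤ) =
        mo M T φ ρ g w p q (labP M g w p q ω)) := fun h' => h h'.1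
      unfold i1
      rw [if_neg this, mul_zero]
  have e2 : ms T φ ρ (fun ω' => labP M g w p q ω' = labP M g w p q ω) =
      ∑ s' ∈ fib (SW K T) (labP M g w p q) ω, PW φ ρ s' := by
    unfold ms fib
    refine Finset.sum_congr ?_ fun _ _ => rfl
    ext x
    simp only [Finset.mem_filter]
  rw [e1, e2]

end

/-- QLW -/
theorem qlw_90 : StQLW := by
  classical
  intro K M T φ ρ g w p q hP
  refine ⟨fun ω hω => ⟨Qf_pos90 hP hω, Qf_le_one90 hP hω⟩, fun l r => mlr_le90 hP l r, ?_⟩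
  intro W hW
  have hmb : Mb (SW K T) (labP M g w p q) (fun ω => i1 (W ω)) := by
    intro s hs s' hs' e
    dsimp only
    rw [hW s hs s' hs' e]
  have h := sum_cavw74 hP (labP M g w p q)
    (fun ω => i1 (ObW g p ω (p + q) / (M : ℤ) = mo M T φ ρ g w p q (labP M g w p q ω)))
    (fun ω => i1 (W ω)) hmb
  rw [ms_eq90]
  have e1 : ∑ ω ∈ SW K T, PW φ ρ ω * (i1 (W ω) * Qf M T φ ρ g w p q ω) =
      ∑ ω ∈ SW K T, PW φ ρ ω * (i1 (W ω) * cavw (PW φ ρ) (SW K T) (labP M g w p q)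
        (fun ω => i1 (ObW g p ω (p + q) / (M : ℤ) =
          mo M T φ ρ g w p q (labP M g w p q ω))) ω) := by
    refine Finset.sum_congr rfl fun ω _ => ?_
    rw [Qf_cavw90]
  rw [e1, h]
  refine Finset.sum_congr rfl fun ω _ => ?_
  congr 1
  unfold i1
  by_cases h1 : W ω <;>
    by_cases h2 : ObW g p ω (p + q) / (M : ℤ) = mo M T φ ρ g w p q (labP M g w p q ω) <;>
    simp [h1, h2]

end Pool.Agent.SB3.W
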