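import Pool.Agent.Lib.SB3.Stmts74

/-!
SB3: the set-up of Theorem G (version with leaks) and the statements of its modules.

`y`, `z` are sign vectors of length `K`, the noise `ν` has `2 K` coordinates with values
`0, ..., M - 1`, `ω = (y, z, ν)`. `Sm` = the sample points with `(y, z) ∈ E`.
-/

set_option autoImplicit false

namespace Pool.Agent.SB3

open Finset

/-- structure of the sums `G j`, `j < 2 K`: `g p j` is the part which depends on `(y_{<p}, z)`,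
`t p q i` the part of `G (p + i)` which depends on `(y, z_{<q})`, the rest is at most `lam (q - i)`
for `i < q`; for `i = q` and good pairs the rest is `η_p ζ_q c` up to `lam 0`, `c` a function of
`(y_{<p}, z_{<q})` with `|c| ≥ D`. -/
structure Str (K : ℕ) (D : ℤ) (lam : ℕ → ℤ) (G : ℕ → Y K → Y K → ℤ)
    (g : ℕ → ℕ → Y K → Y K → ℤ) (t : ℕ → ℕ → ℕ → Y K → Y K → ℤ) (c : ℕ → ℕ → Y K → Y K → ℤ)
    (w : ℕ → ℕ → Y K → Y K → Prop) : Prop where
  lam_nonneg : ∀ d, 0 ≤ lam d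
  g_dep : ∀ p j y y' z, pre p y = pre p y' → g p j y z = g p j y' z
  t_dep : ∀ p q i y z z', pre q z = pre q z' → t p q i y z = t p q i y z'
  leak : ∀ p q i, p < K → q < K → i < q → ∀ y z,
    |G (p + i) y z - g p (p + i) y z - t p q i y z| ≤ lam (q - i)
  main : ∀ p q, p < K → q < K → ∀ y z, w p q y z →
    |G (p + q) y z - g p (p + q) y z - t p q q y z - sgi (bit y p) * sgi (bit z q) * c p q y z|
      ≤ lam 0
  c_dep : ∀ p q y y' z z', pre p y = pre p y' → pre q z = pre q z' → c p q y z = c p q y' z'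
  w_dep : ∀ p q y y' z z', pre p y = pre p y' → pre q z = pre q z' → (w p q y z ↔ w p q y' z')
  c_ge : ∀ p q y z, w p q y z → D ≤ |c p q y z|

/-- sample points -/
abbrev Om (K M : ℕ) : Type := Y K × Y K × (Fin (2 * K) → Fin M)

/-- value of the noise -/
def nz {K M : ℕ} (ν : Fin (2 * K) → Fin M) (j : ℕ) : ℤ :=
  if h : j < 2 * K then ((ν ⟨j, h⟩ : ℕ) : ℤ) else 0

/-- the sample set -/
noncomputable def Sm {K : ℕ} (M : ℕ) (E : Finset (Y K × Y K)) : Finset (Om K M) :=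
  univ.filter (fun ω => (ω.1, ω.2.1) ∈ E)

/-- noisy observation of `G j` -/
def Gam {K M : ℕ} (G : ℕ → Y K → Y K → ℤ) (ω : Om K M) (j : ℕ) : ℤ := G j ω.1 ω.2.1 + nz ω.2.2 j

/-- noisy observation of the first part -/
def Ob {K M : ℕ} (g : ℕ → ℕ → Y K → Y K → ℤ) (p : ℕ) (ω : Om K M) (j : ℕ) : ℤ :=
  g p j ω.1 ω.2.1 + nz ω.2.2 j

/-- what `z_{<q}`, `y` and `Gam` tell about `Ob p (p + i)` -/
def Tt {K M : ℕ} (G : ℕ → Y K → Y K → ℤ) (t : ℕ → ℕ → ℕ → Y K → Y K → ℤ) (p q i : ℕ)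
    (ω : Om K M) : ℤ := Gam G ω (p + i) - t p q i ω.1 ω.2.1

/-- label: `z`, the noise, the first `p` coordinates of `y` -/
def labR {K M : ℕ} (p : ℕ) (ω : Om K M) : (Y K × (Fin (2 * K) → Fin M)) × Y K :=
  ((ω.2.1, ω.2.2), pre p ω.1)

/-- label: `y`, all noisy observations of the `G j`, the first `q` coordinates of `z` -/
def labC {K M : ℕ} (G : ℕ → Y K → Y K → ℤ) (q : ℕ) (ω : Om K M) :
    (Y K × (Fin (2 * K) → ℤ)) × Y K :=
  ((ω.1, fun j : Fin (2 * K) => Gam G ω j), pre q ω.2.1)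

/-- label: first `p` coordinates of `y`, first `q` coordinates of `z`, the cells (of length `M`) of
the observations `Ob p (p + i)`, `i < q` -/
def labP {K M : ℕ} (g : ℕ → ℕ → Y K → Y K → ℤ) (p q : ℕ) (ω : Om K M) :
    Y K × Y K × (Fin K → ℤ) :=
  (pre p ω.1, pre q ω.2.1, fun i : Fin K => if (i : ℕ) < q then Ob g p ω (p + i) / (M : ℤ) else 0)

/-- the same label computed from `Tt` -/
def labT {K M : ℕ} (G : ℕ → Y K → Y K → ℤ) (t : ℕ → ℕ → ℕ → Y K → Y K → ℤ) (p q : ℕ)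
    (ω : Om K M) : Y K × Y K × (Fin K → ℤ) :=
  (pre p ω.1, pre q ω.2.1, fun i : Fin K => if (i : ℕ) < q then Tt G t p q i ω / (M : ℤ) else 0)

noncomputable def alp {K : ℕ} (M : ℕ) (E : Finset (Y K × Y K)) (p : ℕ) (ω : Om K M) : ℝ :=
  cav (Sm M E) (labR p) (fun ω => sgr (bit ω.1 p)) ω

noncomputable def bet {K : ℕ} (M : ℕ) (E : Finset (Y K × Y K)) (G : ℕ → Y K → Y K → ℤ) (q : ℕ)
    (ω : Om K M) : ℝ :=
  cav (Sm M E) (labC G q) (fun ω => sgr (bit ω.2.1 q)) ω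

open Classical in
/-- number of sample points with label `l` and `Ob p (p + q)` in cell `r` -/
noncomputable def cnt {K : ℕ} (M : ℕ) (E : Finset (Y K × Y K)) (g : ℕ → ℕ → Y K → Y K → ℤ)
    (p q : ℕ) (l : Y K × Y K × (Fin K → ℤ)) (r : ℤ) : ℕ :=
  ((Sm M E).filter (fun ω => labP g p q ω = l ∧ Ob g p ω (p + q) / (M : ℤ) = r)).card

open Classical in
/-- a point where `f` is maximal (if there is one) -/
noncomputable def amax (f : ℤ → ℕ) : ℤ := if h : ∃ o, ∀ o', f o' ≤ f o then h.choose else 0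

/-- a most likely cell of `Ob p (p + q)` given the label `l` -/
noncomputable def mo {K : ℕ} (M : ℕ) (E : Finset (Y K × Y K)) (g : ℕ → ℕ → Y K → Y K → ℤ)
    (p q : ℕ) (l : Y K × Y K × (Fin K → ℤ)) : ℤ := amax (cnt M E g p q l)

/-- the largest conditional probability of a cell of `Ob p (p + q)` given the label `labP` -/
noncomputable def Qf {K M : ℕ} (E : Finset (Y K × Y K)) (g : ℕ → ℕ → Y K → Y K → ℤ) (p q : ℕ)
    (ω : Om K M) : ℝ :=
  (cnt M E g p q (labP g p q ω) (mo M E g p q (labP g p q ω)) : ℝ) /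
    (fib (Sm M E) (labP g p q) ω).card

/-- MEAS: measurability of everything in sight -/
def StMeas : Prop :=
  ∀ (K M : ℕ) (D : ℤ) (lam : ℕ → ℤ) (E : Finset (Y K × Y K)) (G : ℕ → Y K → Y K → ℤ)
    (g : ℕ → ℕ → Y K → Y K → ℤ) (t : ℕ → ℕ → ℕ → Y K → Y K → ℤ) (c : ℕ → ℕ → Y K → Y K → ℤ)
    (w : ℕ → ℕ → Y K → Y K → Prop),
    Str K D lam G g t c w → ∀ p q, p < K → q < K →
      Mb (Sm M E) (labR (K := K) (M := M) p) (labP g p q) ∧
      Mb (Sm M E) (labC (K := K) (M := M) G q) (labT G t p q) ∧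
      Mb (Sm M E) (labR (K := K) (M := M) p) (fun ω => Ob g p ω (p + q)) ∧
      Mb (Sm M E) (labC (K := K) (M := M) G q) (Tt G t p q q) ∧
      Mb (Sm M E) (labR (K := K) (M := M) p) (fun ω => c p q ω.1 ω.2.1) ∧
      Mb (Sm M E) (labR (K := K) (M := M) p) (fun ω => w p q ω.1 ω.2.1) ∧
      Mb (Sm M E) (labC (K := K) (M := M) G q) (fun ω => c p q ω.1 ω.2.1) ∧
      Mb (Sm M E) (labC (K := K) (M := M) G q) (fun ω => w p q ω.1 ω.2.1) ∧
      Mb (Sm M E) (labP (K := K) (M := M) g p q) (fun ω => w p q ω.1 ω.2.1)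

open Classical in
/-- ZB: the two labels rarely differ (the noise is uniform) -/
def StZB : Prop :=
  ∀ (K M : ℕ) (D : ℤ) (lam : ℕ → ℤ) (E : Finset (Y K × Y K)) (G : ℕ → Y K → Y K → ℤ)
    (g : ℕ → ℕ → Y K → Y K → ℤ) (t : ℕ → ℕ → ℕ → Y K → Y K → ℤ) (c : ℕ → ℕ → Y K → Y K → ℤ)
    (w : ℕ → ℕ → Y K → Y K → Prop), 1 ≤ M →
    Str K D lam G g t c w → ∀ p q, p < K → q < K →
      (((Sm M E).filter (fun ω => labP g p q ω ≠ labT G t p q ω)).card : ℝ) * M ≤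
        (∑ d ∈ range (K + 1), (lam d : ℝ)) * (Sm M E).card

open Classical in
/-- KEY: the main inequality for one pair (from STAR, CE and MEAS, with a clamp function) -/
def StKey : Prop :=
  ∀ (K M : ℕ) (D : ℤ) (lam : ℕ → ℤ) (E : Finset (Y K × Y K)) (G : ℕ → Y K → Y K → ℤ)
    (g : ℕ → ℕ → Y K → Y K → ℤ) (t : ℕ → ℕ → ℕ → Y K → Y K → ℤ) (c : ℕ → ℕ → Y K → Y K → ℤ)
    (w : ℕ → ℕ → Y K → Y K → Prop), 1 ≤ D → 1 ≤ M → lam 0 ≤ D →
    Str K D lam G g t c w → ∀ p q, p < K → q < K →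
      ∃ f₁ f₂ : Om K M → ℝ, Mb (Sm M E) (labR p) f₁ ∧ Mb (Sm M E) (labC G q) f₂ ∧
        (∀ ω ∈ Sm M E, |f₁ ω| ≤ 1) ∧ (∀ ω ∈ Sm M E, |f₂ ω| ≤ 1) ∧
        (D / (M + 6 * D) : ℝ) * ((Sm M E).filter (fun ω => w p q ω.1 ω.2.1 ∧
            Ob g p ω (p + q) / (M : ℤ) = mo M E g p q (labP g p q ω))).card ≤
          (D / (M + 6 * D) : ℝ) * ∑ ω ∈ Sm M E, (|alp M E p ω| + |bet M E G q ω|) +
          |∑ ω ∈ Sm M E, bet M E G q ω * ((sgr (bit ω.1 p) - alp M E p ω) * f₁ ω)| +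
          |∑ ω ∈ Sm M E, alp M E p ω * ((sgr (bit ω.2.1 q) - bet M E G q ω) * f₂ ω)| +
          4 * (D / (M + 6 * D) : ℝ) * (lam 0 / D : ℝ) * (Sm M E).card +
          5 * ((Sm M E).filter (fun ω => labP g p q ω ≠ labT G t p q ω)).card

open Classical in
/-- QL: basic properties of `Qf` and the mode -/
def StQL : Prop :=
  ∀ (K M : ℕ) (E : Finset (Y K × Y K)) (g : ℕ → ℕ → Y K → Y K → ℤ) (p q : ℕ),
    (∀ ω ∈ Sm M E, 0 < Qf E g p q ω ∧ Qf E g p q ω ≤ 1) ∧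
    (∀ l r, cnt M E g p q l r ≤ cnt M E g p q l (mo M E g p q l)) ∧
    ∀ W : Om K M → Prop, Mb (Sm M E) (labP g p q) W →
      ∑ ω ∈ (Sm M E).filter W, Qf E g p q ω =
        ((Sm M E).filter (fun ω => W ω ∧
          Ob g p ω (p + q) / (M : ℤ) = mo M E g p q (labP g p q ω))).card

/-- CHAIN: the pointwise chain rule, averaged. Telescoping:
`∏ Qf ≥ #fib (labP p K) / #fib (labP p 0)`, and a class of `labP p 0` contains at most `4 ^ K`
classes of `labP p K` (the vector `z`, and two possible cells for every `Ob p (p + i)`). -/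
def StChain : Prop :=
  ∀ (K M : ℕ) (E : Finset (Y K × Y K)) (g : ℕ → ℕ → Y K → Y K → ℤ) (p : ℕ),
    1 ≤ M → (∀ p j y y' z, pre p y = pre p y' → g p j y z = g p j y' z) →
    ∑ q ∈ range K, ∑ ω ∈ Sm M E, Real.log (1 / Qf E g p q ω) ≤
      (Sm M E).card * (2 * K * Real.log 2)

/-- BUD: the entropy budgets of `alp` and `bet` -/
def StBud : Prop :=
  ∀ (K M R : ℕ) (E : Finset (Y K × Y K)) (G : ℕ → Y K → Y K → ℤ), 1 ≤ M → E.Nonempty →
    (∀ e ∈ E, ∀ j < 2 * K, |G j e.1 e.2| ≤ R) →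
    (∑ p ∈ range K, ∑ ω ∈ Sm M E, alp M E p ω ^ 2 ≤
      2 * (Sm M E).card * Real.log (4 ^ K / E.card)) ∧
    (∑ q ∈ range K, ∑ ω ∈ Sm M E, bet M E G q ω ^ 2 ≤
      2 * (Sm M E).card * (Real.log (4 ^ K / E.card) + 2 * K * (2 * R / M)))

open Classical in
/-- GM: Theorem G, main form -/
def StGM : Prop :=
  ∀ ε : ℝ, 0 < ε → ∃ r > (0 : ℝ), ∃ δ > (0 : ℝ), ∃ κ > (0 : ℝ), ∀ (K R : ℕ) (D : ℤ)
    (lam : ℕ → ℤ) (E : Finset (Y K × Y K)) (G : ℕ → Y K → Y K → ℤ)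
    (g : ℕ → ℕ → Y K → Y K → ℤ) (t : ℕ → ℕ → ℕ → Y K → Y K → ℤ) (c : ℕ → ℕ → Y K → Y K → ℤ)
    (w : ℕ → ℕ → Y K → Y K → Prop), 1 ≤ K → 1 ≤ D →
    Str K D lam G g t c w → (∑ d ∈ range (K + 1), (lam d : ℝ)) ≤ δ * D →
    (∀ e ∈ E, ∀ j < 2 * K, |G j e.1 e.2| ≤ R) → (R : ℝ) ≤ r * D * Real.sqrt K →
    ε * K ^ 2 * E.card ≤ ∑ p ∈ range K, ∑ q ∈ range K,
      ((E.filter (fun e => w p q e.1 e.2)).card : ℝ) →
    (E.card : ℝ) ≤ 4 ^ K * Real.exp (-κ * K)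

/-! ### real functions, exceptional indices -/

/-- the same structure for real functions, `c` of modulus at least `1` on good pairs -/
structure StrR (K : ℕ) (lam : ℕ → ℝ) (G : ℕ → Y K → Y K → ℝ)
    (g : ℕ → ℕ → Y K → Y K → ℝ) (t : ℕ → ℕ → ℕ → Y K → Y K → ℝ) (c : ℕ → ℕ → Y K → Y K → ℝ)
    (w : ℕ → ℕ → Y K → Y K → Prop) : Prop where
  lam_nonneg : ∀ d, 0 ≤ lam d
  g_dep : ∀ p j y y' z, pre p y = pre p y' → g p j y z = g p j y' z
  t_dep : ∀ p q i y z z', pre q z = pre q z' → t p q i y z = t p q i y z'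
  leak : ∀ p q i, p < K → q < K → i < q → ∀ y z,
    |G (p + i) y z - g p (p + i) y z - t p q i y z| ≤ lam (q - i)
  main : ∀ p q, p < K → q < K → ∀ y z, w p q y z →
    |G (p + q) y z - g p (p + q) y z - t p q q y z - sgr (bit y p) * sgr (bit z q) * c p q y z|
      ≤ lam 0
  c_dep : ∀ p q y y' z z', pre p y = pre p y' → pre q z = pre q z' → c p q y z = c p q y' z'
  w_dep : ∀ p q y y' z z', pre p y = pre p y' → pre q z = pre q z' → (w p q y z ↔ w p q y' z')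
  c_ge : ∀ p q y z, w p q y z → 1 ≤ |c p q y z|

open Classical in
/-- GF: Theorem G for real functions with a small proportion of exceptional indices (rounding of
`T` times the functions, `T` large; union over the exceptional sets) -/
def StGF : Prop :=
  ∀ ε : ℝ, 0 < ε → ∃ r > (0 : ℝ), ∃ δ > (0 : ℝ), ∃ κ > (0 : ℝ), ∃ ε₂ > (0 : ℝ), ∃ K₀ : ℕ,
    ∀ (K : ℕ) (lam : ℕ → ℝ) (E : Finset (Y K × Y K)) (G : ℕ → Y K → Y K → ℝ)
    (g : ℕ → ℕ → Y K → Y K → ℝ) (t : ℕ → ℕ → ℕ → Y K → Y K → ℝ) (c : ℕ → ℕ → Y K → Y K → ℝ)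
    (w : ℕ → ℕ → Y K → Y K → Prop), K₀ ≤ K → StrR K lam G g t c w →
    (∑ d ∈ range (K + 1), lam d) ≤ δ →
    (∀ e ∈ E, ((((range (2 * K)).filter (fun j => r * Real.sqrt K < |G j e.1 e.2|)).card : ℕ) : ℝ)
      ≤ ε₂ * K) →
    ε * K ^ 2 * E.card ≤ ∑ p ∈ range K, ∑ q ∈ range K,
      ((E.filter (fun e => w p q e.1 e.2)).card : ℝ) →
    (E.card : ℝ) ≤ 4 ^ K * Real.exp (-κ * K)

end Pool.Agent.SB3
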