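import Pool.Agent.Lib.SB3.GenW74
import Pool.Agent.Lib.SB3.EntW74

/-!
SB3, abstract Theorem W WITH LEAKS (weighted form): definitions and statements of all modules.
Text: SBW_74.md.

`y`, `z` in `Y K` with positive law `ρ`, noise `ν j` (`j < 2 K`) independent with law `φ` on
`-T, ..., T`, `ω = (y, z, ν)`. All labels are as in `Set74.lean`, but the label `labP` contains only
the cells of the ACTIVE past observations (`w p i`).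
-/

set_option autoImplicit false

namespace Pool.Agent.SB3.W

open Finset Pool.Agent.SB3

/-! ### the noise -/

/-- `min (x^2) |x|` -/
noncomputable def psi (x : ℝ) : ℝ := min (x ^ 2) |x|

/-- the cell with number `k` -/
noncomputable def cell (M : ℕ) (k : ℤ) : Finset ℤ := Ico (k * M) (k * M + M)

/-- a good noise law `φ` on `[-T, T]` with reference law `r` on `[-(T+R), T+R]` -/
structure Noi (M T R : ℕ) (δ : ℝ) (φ r : ℤ → ℝ) : Prop where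
  phi_pos : ∀ x ∈ Icc (-(T : ℤ)) T, 0 < φ x
  phi_sum : ∑ x ∈ Icc (-(T : ℤ)) T, φ x = 1
  r_pos : ∀ x, 0 < r x
  r_sum : ∑ x ∈ Icc (-((T : ℤ) + R)) (T + R), r x ≤ 1
  kl : ∀ g : ℤ, |g| ≤ R → ∑ x ∈ Icc (-(T : ℤ)) T, φ x * Real.log (φ x / r (x + g)) ≤
    6 * psi ((g : ℝ) / M) + δ
  rc : ∀ g t : ℤ, |g + t| ≤ R → ∑ x ∈ Icc (-(T : ℤ)) T, φ x * Real.log
    (1 / ∑ o ∈ cell M ((g + x) / (M : ℤ)), r (o + t)) ≤ 20 + |((g + t : ℤ) : ℝ)| / M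
  mis : ∀ a e : ℤ, ∑ x ∈ (Icc (-(T : ℤ)) T).filter
    (fun x => (a + x) / (M : ℤ) ≠ (a + x + e) / (M : ℤ)), φ x ≤ 10 * |(e : ℝ)| / M

/-- NOI: such noise exists (two-sided geometric, `φ x = exp (-|x| / M) / Z M T`, `T` large,
`r x = exp (-|x| / M) / Z M (T + R)`; see `Noise38.lean`) -/
def StNoi : Prop := ∀ (M R : ℕ) (δ : ℝ), 1 ≤ M → 0 < δ → ∃ (T : ℕ) (φ r : ℤ → ℝ), Noi M T R δ φ r

/-! ### the set-up -/

/-- dependencies: `g p j` is a function of `(y_{<p}, z)`, `t p q i` of `(y, z_{<q})`,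
`c p q`, `w p q` of `(y_{<p}, z_{<q})` -/
structure Dep {K : ℕ} {τ : Type} (g : ℕ → ℕ → Y K → Y K → τ) (t : ℕ → ℕ → ℕ → Y K → Y K → τ)
    (c : ℕ → ℕ → Y K → Y K → τ) (w : ℕ → ℕ → Y K → Y K → Prop) : Prop where
  g_dep : ∀ p j y y' z, pre p y = pre p y' → g p j y z = g p j y' z
  t_dep : ∀ p q i y z z', pre q z = pre q z' → t p q i y z = t p q i y z'
  c_dep : ∀ p q y y' z z', pre p y = pre p y' → pre q z = pre q z' → c p q y z = c p q y' z'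
  w_dep : ∀ p q y y' z z', pre p y = pre p y' → pre q z = pre q z' → (w p q y z ↔ w p q y' z')

/-- expectation of a function of `(y, z)` -/
noncomputable def Ey {K : ℕ} (ρ f : Y K → Y K → ℝ) : ℝ := ∑ y, ∑ z, ρ y z * f y z

open Classical in
/-- indicator -/
noncomputable def i1 (p : Prop) : ℝ := if p then 1 else 0

/-- relative entropy with respect to the uniform law -/
noncomputable def klr {K : ℕ} (ρ : Y K → Y K → ℝ) : ℝ :=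
  Ey ρ (fun y z => Real.log (4 ^ K * ρ y z))

/-- main leak of the pair `(p, q)` -/
noncomputable def lk0 {K : ℕ} (G : ℕ → Y K → Y K → ℤ) (g : ℕ → ℕ → Y K → Y K → ℤ)
    (t : ℕ → ℕ → ℕ → Y K → Y K → ℤ) (c : ℕ → ℕ → Y K → Y K → ℤ) (p q : ℕ) (y z : Y K) : ℝ :=
  |((G (p + q) y z - g p (p + q) y z - t p q q y z -
    sgi (bit y p) * sgi (bit z q) * c p q y z : ℤ) : ℝ)|

/-- leaks of the pair `(p, q)` at the earlier active pairs of the row -/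
noncomputable def lk1 {K : ℕ} (G : ℕ → Y K → Y K → ℤ) (g : ℕ → ℕ → Y K → Y K → ℤ)
    (t : ℕ → ℕ → ℕ → Y K → Y K → ℤ) (w : ℕ → ℕ → Y K → Y K → Prop) (p q : ℕ) (y z : Y K) : ℝ :=
  ∑ i ∈ range q, i1 (w p i y z) * |((G (p + i) y z - g p (p + i) y z - t p q i y z : ℤ) : ℝ)|

abbrev OmW (K : ℕ) : Type := Y K × Y K × (Fin (2 * K) → ℤ)

noncomputable def SW (K T : ℕ) : Finset (OmW K) :=
  univ ×ˢ (univ ×ˢ Fintype.piFinset (fun _ => Icc (-(T : ℤ)) T))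

noncomputable def PW {K : ℕ} (φ : ℤ → ℝ) (ρ : Y K → Y K → ℝ) (ω : OmW K) : ℝ :=
  ρ ω.1 ω.2.1 * ∏ j, φ (ω.2.2 j)

def nzw {K : ℕ} (ν : Fin (2 * K) → ℤ) (j : ℕ) : ℤ := if h : j < 2 * K then ν ⟨j, h⟩ else 0

def GamW {K : ℕ} (G : ℕ → Y K → Y K → ℤ) (ω : OmW K) (j : ℕ) : ℤ :=
  G j ω.1 ω.2.1 + nzw ω.2.2 j

def ObW {K : ℕ} (g : ℕ → ℕ → Y K → Y K → ℤ) (p : ℕ) (ω : OmW K) (j : ℕ) : ℤ :=
  g p j ω.1 ω.2.1 + nzw ω.2.2 j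

def TtW {K : ℕ} (G : ℕ → Y K → Y K → ℤ) (t : ℕ → ℕ → ℕ → Y K → Y K → ℤ) (p q i : ℕ)
    (ω : OmW K) : ℤ := GamW G ω (p + i) - t p q i ω.1 ω.2.1

def labR {K : ℕ} (p : ℕ) (ω : OmW K) : (Y K × (Fin (2 * K) → ℤ)) × Y K :=
  ((ω.2.1, ω.2.2), pre p ω.1)

def labC {K : ℕ} (G : ℕ → Y K → Y K → ℤ) (q : ℕ) (ω : OmW K) :
    (Y K × (Fin (2 * K) → ℤ)) × Y K :=
  ((ω.1, fun j : Fin (2 * K) => GamW G ω j), pre q ω.2.1)

open Classical in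
noncomputable def labP {K : ℕ} (M : ℕ) (g : ℕ → ℕ → Y K → Y K → ℤ)
    (w : ℕ → ℕ → Y K → Y K → Prop) (p q : ℕ) (ω : OmW K) : Y K × Y K × (Fin K → ℤ) :=
  (pre p ω.1, pre q ω.2.1, fun i : Fin K =>
    if (i : ℕ) < q ∧ w p i ω.1 ω.2.1 then ObW g p ω (p + i) / (M : ℤ) else 0)

open Classical in
noncomputable def labT {K : ℕ} (M : ℕ) (G : ℕ → Y K → Y K → ℤ)
    (t : ℕ → ℕ → ℕ → Y K → Y K → ℤ) (w : ℕ → ℕ → Y K → Y K → Prop) (p q : ℕ) (ω : OmW K) :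
    Y K × Y K × (Fin K → ℤ) :=
  (pre p ω.1, pre q ω.2.1, fun i : Fin K =>
    if (i : ℕ) < q ∧ w p i ω.1 ω.2.1 then TtW G t p q i ω / (M : ℤ) else 0)

noncomputable def alp {K : ℕ} (T : ℕ) (φ : ℤ → ℝ) (ρ : Y K → Y K → ℝ) (p : ℕ) (ω : OmW K) : ℝ :=
  cavw (PW φ ρ) (SW K T) (labR p) (fun ω => sgr (bit ω.1 p)) ω

noncomputable def bet {K : ℕ} (T : ℕ) (φ : ℤ → ℝ) (ρ : Y K → Y K → ℝ) (G : ℕ → Y K → Y K → ℤ)
    (q : ℕ) (ω : OmW K) : ℝ :=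
  cavw (PW φ ρ) (SW K T) (labC G q) (fun ω => sgr (bit ω.2.1 q)) ω

open Classical in
/-- mass of the sample points with property `W` -/
noncomputable def ms {K : ℕ} (T : ℕ) (φ : ℤ → ℝ) (ρ : Y K → Y K → ℝ) (W : OmW K → Prop) : ℝ :=
  ∑ ω ∈ (SW K T).filter W, PW φ ρ ω

/-- mass of the label `l` with `Ob p (p + q)` in cell `r` -/
noncomputable def mlr {K : ℕ} (M T : ℕ) (φ : ℤ → ℝ) (ρ : Y K → Y K → ℝ)
    (g : ℕ → ℕ → Y K → Y K → ℤ) (w : ℕ → ℕ → Y K → Y K → Prop) (p q : ℕ)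
    (l : Y K × Y K × (Fin K → ℤ)) (r : ℤ) : ℝ :=
  ms T φ ρ (fun ω => labP M g w p q ω = l ∧ ObW g p ω (p + q) / (M : ℤ) = r)

open Classical in
noncomputable def amaxr (f : ℤ → ℝ) : ℤ := if h : ∃ o, ∀ o', f o' ≤ f o then h.choose else 0

/-- a most likely cell given the label `l` -/
noncomputable def mo {K : ℕ} (M T : ℕ) (φ : ℤ → ℝ) (ρ : Y K → Y K → ℝ)
    (g : ℕ → ℕ → Y K → Y K → ℤ) (w : ℕ → ℕ → Y K → Y K → Prop) (p q : ℕ)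
    (l : Y K × Y K × (Fin K → ℤ)) : ℤ := amaxr (mlr M T φ ρ g w p q l)

/-- its conditional probability -/
noncomputable def Qf {K : ℕ} (M T : ℕ) (φ : ℤ → ℝ) (ρ : Y K → Y K → ℝ)
    (g : ℕ → ℕ → Y K → Y K → ℤ) (w : ℕ → ℕ → Y K → Y K → Prop) (p q : ℕ) (ω : OmW K) : ℝ :=
  mlr M T φ ρ g w p q (labP M g w p q ω) (mo M T φ ρ g w p q (labP M g w p q ω)) /
    ms T φ ρ (fun ω' => labP M g w p q ω' = labP M g w p q ω)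

/-! ### the modules -/

/-- MEASW -/
def StMeasW : Prop :=
  ∀ (K M T : ℕ) (G : ℕ → Y K → Y K → ℤ) (g : ℕ → ℕ → Y K → Y K → ℤ)
    (t : ℕ → ℕ → ℕ → Y K → Y K → ℤ) (c : ℕ → ℕ → Y K → Y K → ℤ)
    (w : ℕ → ℕ → Y K → Y K → Prop), Dep g t c w → ∀ p q, p < K → q < K →
      Mb (SW K T) (labR p) (labP M g w p q) ∧
      Mb (SW K T) (labC G q) (labT M G t w p q) ∧
      Mb (SW K T) (labR p) (fun ω => ObW g p ω (p + q)) ∧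
      Mb (SW K T) (labC G q) (TtW G t p q q) ∧
      Mb (SW K T) (labR p) (fun ω => c p q ω.1 ω.2.1) ∧
      Mb (SW K T) (labR p) (fun ω => w p q ω.1 ω.2.1) ∧
      Mb (SW K T) (labC G q) (fun ω => c p q ω.1 ω.2.1) ∧
      Mb (SW K T) (labC G q) (fun ω => w p q ω.1 ω.2.1) ∧
      Mb (SW K T) (labP M g w p q) (fun ω => w p q ω.1 ω.2.1)

/-- MSW: basic facts about the sample space -/
def StMsW : Prop :=
  ∀ (K T : ℕ) (φ : ℤ → ℝ) (ρ : Y K → Y K → ℝ), (∀ x ∈ Icc (-(T : ℤ)) T, 0 < φ x) →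
    ∑ x ∈ Icc (-(T : ℤ)) T, φ x = 1 → (∀ y z, 0 < ρ y z) →
    (∀ ω ∈ SW K T, 0 < PW φ ρ ω) ∧
    (∀ f : Y K → Y K → ℝ, ∑ ω ∈ SW K T, PW φ ρ ω * f ω.1 ω.2.1 = Ey ρ f) ∧
    (∀ (j : Fin (2 * K)) (f : Y K → Y K → ℤ → ℝ),
      ∑ ω ∈ SW K T, PW φ ρ ω * f ω.1 ω.2.1 (ω.2.2 j) =
        Ey ρ (fun y z => ∑ x ∈ Icc (-(T : ℤ)) T, φ x * f y z x))

/-- ZBW: the two labels rarely differ on active pairs (union bound over the active `i < q`, `mis`) -/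
def StZBW : Prop :=
  ∀ (K M T R : ℕ) (δ : ℝ) (φ r : ℤ → ℝ) (ρ : Y K → Y K → ℝ) (G : ℕ → Y K → Y K → ℤ)
    (g : ℕ → ℕ → Y K → Y K → ℤ) (t : ℕ → ℕ → ℕ → Y K → Y K → ℤ) (w : ℕ → ℕ → Y K → Y K → Prop),
    1 ≤ M → Noi M T R δ φ r → (∀ y z, 0 < ρ y z) → ∀ p q, p < K → q < K →
      ms T φ ρ (fun ω => w p q ω.1 ω.2.1 ∧ labP M g w p q ω ≠ labT M G t w p q ω) ≤
        10 / M * Ey ρ (fun y z => i1 (w p q y z) * lk1 G g t w p q y z)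

/-- KEYW: the main inequality for one pair -/
def StKeyW : Prop :=
  ∀ (K M T : ℕ) (D : ℤ) (φ : ℤ → ℝ) (ρ : Y K → Y K → ℝ) (G : ℕ → Y K → Y K → ℤ)
    (g : ℕ → ℕ → Y K → Y K → ℤ) (t : ℕ → ℕ → ℕ → Y K → Y K → ℤ) (c : ℕ → ℕ → Y K → Y K → ℤ)
    (w : ℕ → ℕ → Y K → Y K → Prop), 1 ≤ D → 1 ≤ M → (∀ ω ∈ SW K T, 0 < PW φ ρ ω) →
    Dep g t c w → (∀ p q y z, w p q y z → D ≤ |c p q y z|) → ∀ p q, p < K → q < K →
      ∃ f₁ f₂ : OmW K → ℝ, Mb (SW K T) (labR p) f₁ ∧ Mb (SW K T) (labC G q) f₂ ∧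
        (∀ ω ∈ SW K T, |f₁ ω| ≤ i1 (w p q ω.1 ω.2.1)) ∧
        (∀ ω ∈ SW K T, |f₂ ω| ≤ i1 (w p q ω.1 ω.2.1)) ∧
        (D / (M + 6 * D) : ℝ) * ms T φ ρ (fun ω => w p q ω.1 ω.2.1 ∧
            ObW g p ω (p + q) / (M : ℤ) = mo M T φ ρ g w p q (labP M g w p q ω)) ≤
          (D / (M + 6 * D) : ℝ) * ∑ ω ∈ SW K T, PW φ ρ ω * (i1 (w p q ω.1 ω.2.1) *
            (|alp T φ ρ p ω| + |bet T φ ρ G q ω|)) +
          |∑ ω ∈ SW K T, PW φ ρ ω * (bet T φ ρ G q ω * ((sgr (bit ω.1 p) - alp T φ ρ p ω) * f₁ ω))| +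
          |∑ ω ∈ SW K T, PW φ ρ ω * (alp T φ ρ p ω * ((sgr (bit ω.2.1 q) - bet T φ ρ G q ω) * f₂ ω))| +
          5 * (D / (M + 6 * D) : ℝ) / D * ∑ ω ∈ SW K T, PW φ ρ ω * (i1 (w p q ω.1 ω.2.1) *
            lk0 G g t c p q ω.1 ω.2.1) +
          5 * ms T φ ρ (fun ω => w p q ω.1 ω.2.1 ∧ labP M g w p q ω ≠ labT M G t w p q ω)

/-- QLW: basic properties of `Qf` and the mode -/
def StQLW : Prop :=
  ∀ (K M T : ℕ) (φ : ℤ → ℝ) (ρ : Y K → Y K → ℝ) (g : ℕ → ℕ → Y K → Y K → ℤ)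
    (w : ℕ → ℕ → Y K → Y K → Prop) (p q : ℕ), (∀ ω ∈ SW K T, 0 < PW φ ρ ω) →
    (∀ ω ∈ SW K T, 0 < Qf M T φ ρ g w p q ω ∧ Qf M T φ ρ g w p q ω ≤ 1) ∧
    (∀ l r, mlr M T φ ρ g w p q l r ≤ mlr M T φ ρ g w p q l (mo M T φ ρ g w p q l)) ∧
    ∀ W : OmW K → Prop, Mb (SW K T) (labP M g w p q) W →
      ∑ ω ∈ SW K T, PW φ ρ ω * (i1 (W ω) * Qf M T φ ρ g w p q ω) =
        ms T φ ρ (fun ω => W ω ∧
          ObW g p ω (p + q) / (M : ℤ) = mo M T φ ρ g w p q (labP M g w p q ω))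

/-- the conditional probability of the cell of `Ob p (p + q)` given the label -/
noncomputable def piW {K : ℕ} (M T : ℕ) (φ : ℤ → ℝ) (ρ : Y K → Y K → ℝ)
    (g : ℕ → ℕ → Y K → Y K → ℤ) (w : ℕ → ℕ → Y K → Y K → Prop) (p q : ℕ) (ω : OmW K) : ℝ :=
  mlr M T φ ρ g w p q (labP M g w p q ω) (ObW g p ω (p + q) / (M : ℤ)) /
    ms T φ ρ (fun ω' => labP M g w p q ω' = labP M g w p q ω)

/-- CHW: predictability of the active prefixes (chain rule + Gibbs) -/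
def StChW : Prop :=
  ∀ (K M T R : ℕ) (δ : ℝ) (φ r : ℤ → ℝ) (ρ : Y K → Y K → ℝ) (g : ℕ → ℕ → Y K → Y K → ℤ)
    (t : ℕ → ℕ → ℕ → Y K → Y K → ℤ) (c : ℕ → ℕ → Y K → Y K → ℤ)
    (w : ℕ → ℕ → Y K → Y K → Prop), 1 ≤ M → Noi M T R δ φ r → (∀ y z, 0 < ρ y z) →
    Ey ρ (fun _ _ => 1) = 1 → Dep g t c w →
    (∀ p q, p < K → q < K → ∀ y z, |g p (p + q) y z| + |t p q q y z| + |c p q y z| + M ≤ R) →
    ∀ p, p < K →
    ∑ q ∈ range K, ∑ ω ∈ SW K T, PW φ ρ ω *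
        (i1 (w p q ω.1 ω.2.1) * Real.log (1 / piW M T φ ρ g w p q ω)) ≤
      klr ρ + ∑ q ∈ range K, Ey ρ (fun y z => i1 (w p q y z) *
        (21 + |((g p (p + q) y z + t p q q y z +
          sgi (bit y p) * sgi (bit z q) * c p q y z : ℤ) : ℝ)| / M))

/-- BUDW: the entropy budgets -/
def StBudW : Prop :=
  ∀ (K M T R : ℕ) (δ : ℝ) (φ r : ℤ → ℝ) (ρ : Y K → Y K → ℝ) (G : ℕ → Y K → Y K → ℤ),
    1 ≤ M → 0 < δ → Noi M T R δ φ r → (∀ y z, 0 < ρ y z) → Ey ρ (fun _ _ => 1) = 1 →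
    (∀ j < 2 * K, ∀ y z, |G j y z| ≤ R) →
    (∑ p ∈ range K, ∑ ω ∈ SW K T, PW φ ρ ω * alp T φ ρ p ω ^ 2 ≤ 2 * klr ρ) ∧
    (∑ q ∈ range K, ∑ ω ∈ SW K T, PW φ ρ ω * bet T φ ρ G q ω ^ 2 ≤
      2 * (klr ρ + 6 * ∑ j ∈ range (2 * K), Ey ρ (fun y z => psi ((G j y z : ℝ) / M)) +
        2 * K * δ))

/-- W: Theorem W for integers -/
def StW : Prop := ∃ C > (0 : ℝ), ∀ (K : ℕ) (D : ℤ) (ρ : Y K → Y K → ℝ) (G : ℕ → Y K → Y K → ℤ)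
    (g : ℕ → ℕ → Y K → Y K → ℤ) (t : ℕ → ℕ → ℕ → Y K → Y K → ℤ) (c : ℕ → ℕ → Y K → Y K → ℤ)
    (w : ℕ → ℕ → Y K → Y K → Prop), 1 ≤ K → 1 ≤ D → (∀ y z, 0 < ρ y z) →
    Ey ρ (fun _ _ => 1) = 1 → Dep g t c w → (∀ p q y z, w p q y z → D ≤ |c p q y z|) →
    ∑ p ∈ range K, ∑ q ∈ range K, Ey ρ (fun y z => i1 (w p q y z)) ≤
      C * (K * (klr ρ + ∑ j ∈ range (2 * K), Ey ρ (fun y z =>
        psi ((G j y z : ℝ) / (D * Real.sqrt K)))) +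
        1 / D * ∑ p ∈ range K, ∑ q ∈ range K, Ey ρ (fun y z => i1 (w p q y z) *
          (lk1 G g t w p q y z + lk0 G g t c p q y z)))

/-- the leak of the pair `(p, q)`, real functions -/
noncomputable def lkr {K : ℕ} (G : ℕ → Y K → Y K → ℝ) (g : ℕ → ℕ → Y K → Y K → ℝ)
    (t : ℕ → ℕ → ℕ → Y K → Y K → ℝ) (c : ℕ → ℕ → Y K → Y K → ℝ)
    (w : ℕ → ℕ → Y K → Y K → Prop) (p q : ℕ) (y z : Y K) : ℝ :=
  (∑ i ∈ range q, i1 (w p i y z) * |G (p + i) y z - g p (p + i) y z - t p q i y z|) +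
  |G (p + q) y z - g p (p + q) y z - t p q q y z - sgr (bit y p) * sgr (bit z q) * c p q y z|

/-- WR: Theorem W for real functions (from `StW`: round `T` times the functions, `D = T`,
`T` large) -/
def StWR : Prop := ∃ C > (0 : ℝ), ∀ (K : ℕ) (ρ : Y K → Y K → ℝ) (G : ℕ → Y K → Y K → ℝ)
    (g : ℕ → ℕ → Y K → Y K → ℝ) (t : ℕ → ℕ → ℕ → Y K → Y K → ℝ) (c : ℕ → ℕ → Y K → Y K → ℝ)
    (w : ℕ → ℕ → Y K → Y K → Prop), 1 ≤ K → (∀ y z, 0 < ρ y z) →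
    Ey ρ (fun _ _ => 1) = 1 → Dep g t c w → (∀ p q y z, w p q y z → 1 ≤ |c p q y z|) →
    ∑ p ∈ range K, ∑ q ∈ range K, Ey ρ (fun y z => i1 (w p q y z)) ≤
      C * (K * (klr ρ + ∑ j ∈ range (2 * K), Ey ρ (fun y z => psi (G j y z / Real.sqrt K))) +
        ∑ p ∈ range K, ∑ q ∈ range K, Ey ρ (fun y z => i1 (w p q y z) * lkr G g t c w p q y z))

end Pool.Agent.SB3.W
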